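import Pool.Agent.P8H1.CG.Defs
import Pool.Agent.P8H1.EK.Alg
set_option autoImplicit false

/-!
The elements `xi j` are cocycles without residues.
-/

namespace Pool.Agent.P8H1.CG

open Pool.Agent.N65.TK (Pt FS br dif wedge al tu tu_mul tu_inv tu_pow tu_torsion alt_add1 alt_smul1
  alt_smul2 alt_swap23 alt_eq12 alt_eq23 alt_eq13 alt_add2 alt_add3 bnd redB red Red redB_eq_zero
  one_lt_val_pair val_torsion Kap)
open Pool.Agent.P8H1.KC (alt_swap12 co_val)
open Pool.Agent.P8H1.EK (tr mono con val_pair_le val_pair_gt)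
open scoped WithZero

variable {K : Type*} [Field K] {d r : ℕ} {C : Dat K d r}

theorem co_x (j : Fin r) : (C.px j).co * (C.qx j).co = C.cx * C.cw j := by
  ext
  rw [Units.val_mul, co_val, co_val]
  exact prod_x j

theorem co_y (j : Fin r) (i : Fin d) : (C.py j i).co * (C.qy j i).co = C.cy * C.cv j i := by
  ext
  rw [Units.val_mul, co_val, co_val]
  exact prod_y j i

theorem tu_uc {c : Kˣ} {N : ℕ} (hN : 0 < N) (h : c ^ N = 1) : tu (C.uc c) = 0 :=
  tu_torsion hN (by rw [uc_pow, h, uc_one])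

theorem tu_one' {A : Type*} [CommRing A] : tu (1 : Aˣ) = 0 := by
  have h := tu_mul (1 : Aˣ) 1
  rw [mul_one] at h
  exact (left_eq_add.1 h)

theorem tu_prod {A : Type*} [CommRing A] {ι : Type*} (s : Finset ι) (f : ι → Aˣ) :
    tu (∏ i ∈ s, f i) = ∑ i ∈ s, tu (f i) := by
  classical
  induction s using Finset.induction_on with
  | empty => rw [Finset.prod_empty, Finset.sum_empty, tu_one']
  | insert a s ha ih => rw [Finset.prod_insert ha, Finset.sum_insert ha, tu_mul, ih]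

theorem al_sum {A : Type*} [CommRing A] {ι : Type*} (s : Finset ι) (f : ι → Pool.Agent.N65.TK.UQ A)
    (b c : Pool.Agent.N65.TK.UQ A) :
    ∑ i ∈ s, al A ![f i, b, c] = al A ![∑ i ∈ s, f i, b, c] := by
  classical
  induction s using Finset.induction_on with
  | empty =>
    rw [Finset.sum_empty, Finset.sum_empty]
    have h := alt_add1 (al A) (0 : Pool.Agent.N65.TK.UQ A) 0 b c
    rw [add_zero] at h
    exact (left_eq_add.1 h).symm
  | insert a s ha ih => rw [Finset.sum_insert ha, Finset.sum_insert ha, alt_add1, ih]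

theorem dif_xi {G : Polynomial K} (hC : C.Admissible G) (j : Fin r) : dif C.Crv (C.xi j) = 0 := by
  obtain ⟨N, hN, h⟩ := hC.tors j
  have hi : (C.z j)⁻¹ ^ N = 1 := by rw [inv_pow, h, inv_one]
  have key : ∀ (f : Pt C.Crv) (g : C.Crvˣ), dif C.Crv (br f g) =
      al C.Crv ![tu f.co, tu f.1, tu g] := by
    intro f g
    unfold dif br
    rw [Finsupp.linearCombination_single, one_smul]
    rfl
  have t1 : tu (C.px j).1 = tu C.cx := by
    show tu (C.uc (C.z j)⁻¹ * C.cx) = _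
    rw [tu_mul, tu_uc hN hi, zero_add]
  have t2 : tu (C.qx j).1 = tu C.cx := by
    show tu (C.uc (C.z j) * C.cx) = _
    rw [tu_mul, tu_uc hN h, zero_add]
  have t5 : tu (C.px j).co + tu (C.qx j).co = tu C.cx + tu (C.cw j) := by
    rw [← tu_mul, co_x, tu_mul]
  have ty : ∀ i, dif C.Crv (br (C.py j i) C.cx + br (C.qy j i) C.cx) =
      al C.Crv ![tu (C.cv j i), tu C.cy, tu C.cx] := by
    intro i
    obtain ⟨N', hN', h'⟩ := hC.tors' j i
    have hi' : (C.z' j i)⁻¹ ^ N' = 1 := by rw [inv_pow, h', inv_one]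
    have t3 : tu (C.py j i).1 = tu C.cy := by
      show tu (C.uc (C.z' j i)⁻¹ * C.cy) = _
      rw [tu_mul, tu_uc hN' hi', zero_add]
    have t4 : tu (C.qy j i).1 = tu C.cy := by
      show tu (C.uc (C.z' j i) * C.cy) = _
      rw [tu_mul, tu_uc hN' h', zero_add]
    have t6 : tu (C.py j i).co + tu (C.qy j i).co = tu C.cy + tu (C.cv j i) := by
      rw [← tu_mul, co_y, tu_mul]
    rw [map_add, key, key, t3, t4, ← alt_add1, t6, alt_add1, alt_eq12, zero_add]
  unfold Dat.xi
  rw [map_add, map_add, map_sum, Finset.sum_congr rfl fun i _ => ty i, al_sum, ← tu_prod, prod_cv,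
    key, key, t1, t2, ← alt_add1, t5, alt_add1, alt_eq12, zero_add,
    alt_swap23 _ (tu (C.cw j)) (tu C.cx) (tu C.cy), add_neg_cancel]

section res

variable {L : Type*} [Field L] (v : Valuation L ℤᵐ⁰)

theorem one_lt_prod' {m : ℕ} (hm : 0 < m) (f : Fin m → ℤᵐ⁰) (h : ∀ i, 1 < f i) :
    1 < ∏ i, f i := by
  obtain ⟨m, rfl⟩ := Nat.exists_eq_succ_of_ne_zero hm.ne'
  rw [Fin.prod_univ_succ]
  have h1 : 1 ≤ ∏ i : Fin m, f i.succ := Finset.one_le_prod' fun i _ => (h i.succ).le
  exact (h 0).trans_le (le_mul_of_one_le_right' h1)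

theorem prod_le_one' {m : ℕ} (f : Fin m → ℤᵐ⁰) (h : ∀ i, f i ≤ 1) : ∏ i, f i ≤ 1 :=
  Finset.prod_le_one' fun i _ => h i

theorem bnd_xi {G : Polynomial K} (hC : C.Admissible G) (hd : 0 < d) (φ : C.Crv →+* L) (j : Fin r) :
    bnd v (FS.map φ (C.xi j)) = 0 := by
  obtain ⟨N, hN, h⟩ := hC.tors j
  have hc : ∀ {c : Kˣ} {m : ℕ}, 0 < m → c ^ m = 1 →
      v ((Units.map (φ : C.Crv →* L) (C.uc c) : Lˣ) : L) = 1 := by
    intro c m hm h1
    refine val_torsion v hm ?_
    rw [← Units.val_pow_eq_pow_val, ← map_pow, uc_pow, h1, uc_one, map_one, Units.val_one]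
  set X : Lˣ := Units.map (φ : C.Crv →* L) C.cx with hX
  set Y : Lˣ := Units.map (φ : C.Crv →* L) C.cy with hY
  have hi : (C.z j)⁻¹ ^ N = 1 := by rw [inv_pow, h, inv_one]
  have vpx : v (((C.px j).map φ).1 : L) = v (X : L) := by
    show v ((Units.map (φ : C.Crv →* L) (C.uc (C.z j)⁻¹ * C.cx) : Lˣ) : L) = _
    rw [map_mul, Units.val_mul, map_mul, hc hN hi, one_mul]
  have vqx : v (((C.qx j).map φ).1 : L) = v (X : L) := by
    show v ((Units.map (φ : C.Crv →* L) (C.uc (C.z j) * C.cx) : Lˣ) : L) = _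
    rw [map_mul, Units.val_mul, map_mul, hc hN h, one_mul]
  have vpy : ∀ i, v (((C.py j i).map φ).1 : L) = v (Y : L) := by
    intro i
    obtain ⟨N', hN', h'⟩ := hC.tors' j i
    show v ((Units.map (φ : C.Crv →* L) (C.uc (C.z' j i)⁻¹ * C.cy) : Lˣ) : L) = _
    rw [map_mul, Units.val_mul, map_mul, hc hN' (by rw [inv_pow, h', inv_one]), one_mul]
  have vqy : ∀ i, v (((C.qy j i).map φ).1 : L) = v (Y : L) := by
    intro i
    obtain ⟨N', hN', h'⟩ := hC.tors' j i
    show v ((Units.map (φ : C.Crv →* L) (C.uc (C.z' j i) * C.cy) : Lˣ) : L) = _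
    rw [map_mul, Units.val_mul, map_mul, hc hN' h', one_mul]
  have ht : ∀ {c : Kˣ} {m : ℕ}, 0 < m → c ^ m = 1 → v (φ (C.cst (tr c))) ≤ 1 := by
    intro c m hm h1
    rw [← uc_add, map_add]
    refine (v.map_add _ _).trans (max_le (hc hm h1).le (hc hm (c := c⁻¹) ?_).le)
    rw [inv_pow, h1, inv_one]
  have hpair : (X : L) + (X⁻¹ : Lˣ) - φ (C.cst (tr (C.z j))) =
      ∏ i, ((Y : L) + (Y⁻¹ : Lˣ) - φ (C.cst (tr (C.z' j i)))) := by
    have h1 := congrArg φ ((rel_x (C := C) j).trans (rel_y (C := C) j).symm)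
    rw [map_sub, map_add, map_prod] at h1
    rw [hX, hY, ← map_inv, ← map_inv]
    refine h1.trans (Finset.prod_congr rfl fun i _ => ?_)
    rw [map_sub, map_add]
    rfl
  have hv := congrArg v hpair
  rw [map_prod] at hv
  have hXY : v (X : L) = 1 ↔ v (Y : L) = 1 := by
    constructor
    · intro h1
      by_contra h2
      have h3 : 1 < ∏ i, v ((Y : L) + (Y⁻¹ : Lˣ) - φ (C.cst (tr (C.z' j i)))) := by
        refine one_lt_prod' hd _ fun i => ?_
        obtain ⟨N', hN', h'⟩ := hC.tors' j i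
        exact val_pair_gt v (ht hN' h') h2
      rw [← hv] at h3
      exact absurd h3 (not_lt.2 (val_pair_le v (ht hN h) h1))
    · intro h1
      by_contra h2
      have h3 := val_pair_gt v (ht hN h) h2
      rw [hv] at h3
      refine absurd h3 (not_lt.2 (prod_le_one' _ fun i => ?_))
      obtain ⟨N', hN', h'⟩ := hC.tors' j i
      exact val_pair_le v (ht hN' h') h1
  have hb : ∀ (f : Pt L) (g : Lˣ), bnd v (br f g) =
      ((WithZero.log (v (g : L)) : ℤ) : ℚ) • redB v f := by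
    intro f g
    unfold bnd br
    rw [Finsupp.linearCombination_single, one_smul]
  have hm : ∀ (f : Pt C.Crv) (g : C.Crvˣ), FS.map φ (br f g) =
      br (f.map φ) (Units.map (φ : C.Crv →* L) g) := by
    intro f g
    unfold br FS.map
    rw [Finsupp.lmapDomain_apply, Finsupp.mapDomain_single]
  have hmap : bnd v (FS.map φ (C.xi j)) = bnd v (br ((C.px j).map φ) Y) +
      bnd v (br ((C.qx j).map φ) Y) +
      ∑ i, (bnd v (br ((C.py j i).map φ) X) + bnd v (br ((C.qy j i).map φ) X)) := by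
    unfold Dat.xi
    simp only [map_add, map_sum, hm]
    rfl
  rw [hmap]
  simp only [hb]
  by_cases h1 : v (X : L) = 1
  · have h2 := hXY.1 h1
    rw [h1, h2, WithZero.log_one, Int.cast_zero]
    simp
  · have h2 : v (Y : L) ≠ 1 := fun h3 => h1 (hXY.2 h3)
    have h3 : ∀ i, redB v ((C.py j i).map φ) = 0 := fun i =>
      redB_eq_zero v (f := (C.py j i).map φ) fun h => h2 (vpy i ▸ h.1)
    have h4 : ∀ i, redB v ((C.qy j i).map φ) = 0 := fun i =>
      redB_eq_zero v (f := (C.qy j i).map φ) fun h => h2 (vqy i ▸ h.1)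
    rw [redB_eq_zero v (f := (C.px j).map φ) fun h => h1 (vpx ▸ h.1),
      redB_eq_zero v (f := (C.qx j).map φ) fun h => h1 (vqx ▸ h.1)]
    simp [h3, h4]

end res

end Pool.Agent.P8H1.CG
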