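import Pool.Agent.P8H1.EK.Circ
set_option autoImplicit false

/-!
The Bloch-Wigner function on the unit circle (the Clausen function): derivative, distribution
relations, concavity.
-/

namespace Pool.Agent.P8H1.CG

open Real Set Filter Topology MeasureTheory
open Pool.Agent.N65.TK (D Dc Ls D_real hasDerivAt_D hasDerivAt_Dc)
open Pool.Agent.P8H1.EK (Dc_neg continuous_Dc Gz Gz_inv continuous_Gz Gz_neg exists_ang)

/-- derivative of `D (c e^(iθ))` -/
theorem hd_Dmul {c : ℂ} (hc : ‖c‖ = 1) {θ : ℝ} (h : c * Complex.exp (θ * Complex.I) ≠ 1) :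
    HasDerivAt (fun θ : ℝ => D (c * Complex.exp (θ * Complex.I)))
      (-Real.log ‖1 - c * Complex.exp (θ * Complex.I)‖) θ := by
  have hc0 : c ≠ 0 := norm_ne_zero_iff.1 (by rw [hc]; exact one_ne_zero)
  have h1 : HasDerivAt (fun s : ℝ => (s : ℂ)) 1 θ := Complex.ofRealCLM.hasDerivAt
  have h2 := ((h1.mul_const Complex.I).cexp).const_mul c
  have h3 : HasDerivAt (fun s : ℝ => c * Complex.exp (s * Complex.I))
      ((c * Complex.exp (θ * Complex.I)) * Complex.I) θ := h2.congr_deriv (by ring)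
  have hn : c * Complex.exp (θ * Complex.I) ≠ 0 := mul_ne_zero hc0 (Complex.exp_ne_zero _)
  refine (hasDerivAt_D h3 hn h).congr_deriv ?_
  unfold Pool.Agent.W367.KT.eta
  rw [mul_div_cancel_left₀ _ hn, norm_mul c, Complex.norm_exp_ofReal_mul_I, hc]
  simp

theorem hd_Dc {θ : ℝ} (h : Complex.exp (θ * Complex.I) ≠ 1) :
    HasDerivAt Dc (-Real.log ‖1 - Complex.exp (θ * Complex.I)‖) θ := by
  have h1 := hd_Dmul (c := 1) norm_one (θ := θ) (by rwa [one_mul])
  simp only [one_mul] at h1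
  exact h1

theorem norm_pair {z : ℂ} (hz : ‖z‖ = 1) (θ : ℝ) :
    ‖1 - z⁻¹ * Complex.exp (θ * Complex.I)‖ * ‖1 - z * Complex.exp (θ * Complex.I)‖ =
      |2 * Real.cos θ - 2 * z.re| := by
  have hz0 : z ≠ 0 := norm_ne_zero_iff.1 (by rw [hz]; exact one_ne_zero)
  have h1 : z + z⁻¹ = ((2 * z.re : ℝ) : ℂ) := by rw [Complex.inv_eq_conj hz, Complex.add_conj]
  have h2 : Complex.exp (θ * Complex.I) + (Complex.exp (θ * Complex.I))⁻¹ =
      ((2 * Real.cos θ : ℝ) : ℂ) := by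
    rw [← Complex.exp_neg, Complex.ofReal_mul, Complex.ofReal_cos, Complex.cos, ← neg_mul]
    push_cast
    ring
  have he : Complex.exp (θ * Complex.I) ≠ 0 := Complex.exp_ne_zero _
  have h3 : (1 - z⁻¹ * Complex.exp (θ * Complex.I)) * (1 - z * Complex.exp (θ * Complex.I)) =
      Complex.exp (θ * Complex.I) * ((2 * Real.cos θ - 2 * z.re : ℝ) : ℂ) := by
    rw [Complex.ofReal_sub, ← h1, ← h2]
    field_simp
    ring
  rw [← norm_mul, h3, norm_mul, Complex.norm_exp_ofReal_mul_I, one_mul, Complex.norm_real,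
    Real.norm_eq_abs]

theorem hd_Gz {z : ℂ} (hz : ‖z‖ = 1) {θ : ℝ} (h : 2 * Real.cos θ - 2 * z.re ≠ 0) :
    HasDerivAt (Gz z) (-Real.log (2 * Real.cos θ - 2 * z.re)) θ := by
  have hp := norm_pair hz θ
  have hzi : ‖z⁻¹‖ = 1 := by rw [norm_inv, hz, inv_one]
  have hne : ‖1 - z⁻¹ * Complex.exp (θ * Complex.I)‖ * ‖1 - z * Complex.exp (θ * Complex.I)‖ ≠ 0 := by
    rw [hp]
    exact abs_ne_zero.2 h
  have n1 := left_ne_zero_of_mul hne
  have n2 := right_ne_zero_of_mul hne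
  have e1 : z⁻¹ * Complex.exp (θ * Complex.I) ≠ 1 := fun h1 => n1 (by rw [h1, sub_self, norm_zero])
  have e2 : z * Complex.exp (θ * Complex.I) ≠ 1 := fun h1 => n2 (by rw [h1, sub_self, norm_zero])
  have h1 := (hd_Dmul hzi e1).add (hd_Dmul hz e2)
  refine h1.congr_deriv ?_
  rw [← neg_add, ← Real.log_mul n1 n2, hp, Real.log_abs]

theorem Dc_zero : Dc 0 = 0 := by
  have h := Dc_neg 0
  rw [neg_zero] at h
  linarith

theorem Dc_per (θ : ℝ) : Dc (θ + 2 * π) = Dc θ := by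
  unfold Dc
  congr 1
  rw [show ((θ + 2 * π : ℝ) : ℂ) * Complex.I = θ * Complex.I + 2 * π * Complex.I by push_cast; ring,
    Complex.exp_add, Complex.exp_two_pi_mul_I, mul_one]

theorem Dc_sub_per (θ : ℝ) : Dc (θ - 2 * π) = Dc θ := by
  have h := Dc_per (θ - 2 * π)
  rw [sub_add_cancel] at h
  exact h.symm

theorem Dc_pi : Dc π = 0 := by
  have h := Dc_per (-π)
  rw [Dc_neg, show -π + 2 * π = π by ring] at h
  linarith

/-- a continuous function with derivative zero off a countable set is constant -/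
theorem const_of_countable {f : ℝ → ℝ} (hf : Continuous f) {s : Set ℝ} (hs : s.Countable)
    (h : ∀ x, x ∉ s → HasDerivAt f 0 x) (a b : ℝ) : f a = f b := by
  have h1 := integral_eq_of_hasDerivAt_off_countable f (fun _ => 0) (a := a) (b := b) hs
    hf.continuousOn (fun x hx => h x hx.2) intervalIntegrable_const
  rw [intervalIntegral.integral_zero] at h1
  linarith

theorem norm_distr {n : ℕ} (hn : 0 < n) (θ : ℝ) :
    ‖1 - Complex.exp ((n * θ : ℝ) * Complex.I)‖ =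
      ∏ i ∈ Finset.range n, ‖1 - Complex.exp ((θ + 2 * π * i / n : ℝ) * Complex.I)‖ := by
  have hn' : (n : ℂ) ≠ 0 := by exact_mod_cast hn.ne'
  have h1 := X_pow_sub_C_eq_prod (Complex.isPrimitiveRoot_exp n hn.ne')
    (α := Complex.exp (θ * Complex.I)) (a := Complex.exp ((n * θ : ℝ) * Complex.I)) hn (by
      rw [← Complex.exp_nat_mul]
      congr 1
      push_cast
      ring)
  have h2 := congrArg (Polynomial.eval 1) h1
  rw [Polynomial.eval_prod] at h2
  simp only [Polynomial.eval_sub, Polynomial.eval_pow, Polynomial.eval_X, Polynomial.eval_C,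
    one_pow] at h2
  rw [h2, norm_prod]
  refine Finset.prod_congr rfl fun i _ => ?_
  rw [← Complex.exp_nat_mul, ← Complex.exp_add]
  congr 3
  push_cast
  field_simp
  ring

theorem countable_exp {n : ℕ} (hn : 0 < n) :
    {θ : ℝ | Complex.exp ((n * θ : ℝ) * Complex.I) = 1}.Countable := by
  have hn' : (n : ℝ) ≠ 0 := by exact_mod_cast hn.ne'
  refine (countable_range fun k : ℤ => (2 * π * k / n : ℝ)).mono ?_
  intro θ hθ
  obtain ⟨k, hk⟩ := Complex.exp_eq_one_iff.1 hθ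
  refine ⟨k, ?_⟩
  have h1 : ((n * θ : ℝ) : ℂ) = ((k * (2 * π) : ℝ) : ℂ) := by
    have h2 : ((n * θ : ℝ) : ℂ) * Complex.I = ((k * (2 * π) : ℝ) : ℂ) * Complex.I := by
      rw [hk]
      push_cast
      ring
    exact mul_right_cancel₀ Complex.I_ne_zero h2
  have h2 : n * θ = k * (2 * π) := by exact_mod_cast h1
  simp only
  field_simp
  linarith

/-- The distribution relation. -/
theorem distr {n : ℕ} (hn : 0 < n) (h0 : ∑ i ∈ Finset.range n, Dc (2 * π * i / n) = 0) (θ : ℝ) :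
    Dc (n * θ) = n * ∑ i ∈ Finset.range n, Dc (θ + 2 * π * i / n) := by
  have hn' : (n : ℝ) ≠ 0 := by exact_mod_cast hn.ne'
  set f : ℝ → ℝ := fun θ => Dc (n * θ) - n * ∑ i ∈ Finset.range n, Dc (θ + 2 * π * i / n) with hf
  have hc : Continuous f := by
    refine (continuous_Dc.comp (continuous_const.mul continuous_id)).sub (continuous_const.mul ?_)
    exact continuous_finset_sum _ fun i _ => continuous_Dc.comp (continuous_id.add continuous_const)
  have hd : ∀ x, x ∉ {θ : ℝ | Complex.exp ((n * θ : ℝ) * Complex.I) = 1} → HasDerivAt f 0 x := by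
    intro x hx
    have hx' : Complex.exp ((n * x : ℝ) * Complex.I) ≠ 1 := hx
    have hn1 : ‖1 - Complex.exp ((n * x : ℝ) * Complex.I)‖ ≠ 0 :=
      norm_ne_zero_iff.2 (sub_ne_zero.2 hx'.symm)
    have hprod := norm_distr hn x
    rw [hprod, Finset.prod_ne_zero_iff] at hn1
    have h1 : HasDerivAt (fun θ : ℝ => Dc (n * θ))
        (-Real.log ‖1 - Complex.exp ((n * x : ℝ) * Complex.I)‖ * n) x := by
      have h2 := (hd_Dc hx').comp x ((hasDerivAt_id x).const_mul (n : ℝ))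
      rw [mul_one] at h2
      exact h2
    have h2 : HasDerivAt (fun θ : ℝ => ∑ i ∈ Finset.range n, Dc (θ + 2 * π * i / n))
        (∑ i ∈ Finset.range n,
          -Real.log ‖1 - Complex.exp ((x + 2 * π * i / n : ℝ) * Complex.I)‖) x := by
      refine HasDerivAt.fun_sum fun i hi => ?_
      have h3 : Complex.exp ((x + 2 * π * i / n : ℝ) * Complex.I) ≠ 1 := by
        intro h4
        apply hn1 i hi
        rw [h4, sub_self, norm_zero]
      exact (hd_Dc h3).comp_add_const x (2 * π * i / n)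
    refine (h1.sub (h2.const_mul (n : ℝ))).congr_deriv ?_
    rw [hprod, Real.log_prod hn1, Finset.sum_neg_distrib]
    ring
  have h1 := const_of_countable hc (countable_exp hn) hd θ 0
  have h2 : f 0 = 0 := by
    simp only [hf, mul_zero, zero_add, Dc_zero, h0, sub_zero]
  rw [h2] at h1
  simp only [hf] at h1
  linarith

theorem Dc_two (θ : ℝ) : Dc (2 * θ) = 2 * (Dc θ + Dc (θ + π)) := by
  have h := distr (n := 2) (by norm_num) (by
    rw [Finset.sum_range_succ, Finset.sum_range_one]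
    rw [show 2 * π * ((0 : ℕ) : ℝ) / ((2 : ℕ) : ℝ) = 0 by push_cast; ring,
      show 2 * π * ((1 : ℕ) : ℝ) / ((2 : ℕ) : ℝ) = π by push_cast; ring, Dc_zero, Dc_pi, add_zero]) θ
  rw [Finset.sum_range_succ, Finset.sum_range_one] at h
  rw [show θ + 2 * π * ((0 : ℕ) : ℝ) / ((2 : ℕ) : ℝ) = θ by push_cast; ring,
    show θ + 2 * π * ((1 : ℕ) : ℝ) / ((2 : ℕ) : ℝ) = θ + π by push_cast; ring] at h
  exact_mod_cast h

theorem Dc_three (θ : ℝ) :
    Dc (3 * θ) = 3 * (Dc θ + Dc (θ + 2 * π / 3) + Dc (θ - 2 * π / 3)) := by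
  have e1 : Dc (θ + 4 * π / 3) = Dc (θ - 2 * π / 3) := by
    rw [← Dc_per (θ - 2 * π / 3)]
    congr 1
    ring
  have h := distr (n := 3) (by norm_num) (by
    rw [Finset.sum_range_succ, Finset.sum_range_succ, Finset.sum_range_one]
    rw [show 2 * π * ((0 : ℕ) : ℝ) / ((3 : ℕ) : ℝ) = 0 by push_cast; ring,
      show 2 * π * ((1 : ℕ) : ℝ) / ((3 : ℕ) : ℝ) = 2 * π / 3 by push_cast; ring,
      show 2 * π * ((2 : ℕ) : ℝ) / ((3 : ℕ) : ℝ) = -(2 * π / 3) + 2 * π by push_cast; ring,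
      Dc_zero, Dc_per, Dc_neg]
    ring) θ
  rw [Finset.sum_range_succ, Finset.sum_range_succ, Finset.sum_range_one] at h
  rw [show θ + 2 * π * ((0 : ℕ) : ℝ) / ((3 : ℕ) : ℝ) = θ by push_cast; ring,
    show θ + 2 * π * ((1 : ℕ) : ℝ) / ((3 : ℕ) : ℝ) = θ + 2 * π / 3 by push_cast; ring,
    show θ + 2 * π * ((2 : ℕ) : ℝ) / ((3 : ℕ) : ℝ) = θ + 4 * π / 3 by push_cast; ring, e1] at h
  exact_mod_cast h

theorem Dc_five (θ : ℝ) :
    Dc (5 * θ) = 5 * (Dc θ + Dc (θ + 2 * π / 5) + Dc (θ + 4 * π / 5) + Dc (θ - 4 * π / 5) +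
      Dc (θ - 2 * π / 5)) := by
  have e1 : Dc (θ + 6 * π / 5) = Dc (θ - 4 * π / 5) := by
    rw [← Dc_per (θ - 4 * π / 5)]
    congr 1
    ring
  have e2 : Dc (θ + 8 * π / 5) = Dc (θ - 2 * π / 5) := by
    rw [← Dc_per (θ - 2 * π / 5)]
    congr 1
    ring
  have h := distr (n := 5) (by norm_num) (by
    rw [Finset.sum_range_succ, Finset.sum_range_succ, Finset.sum_range_succ, Finset.sum_range_succ,
      Finset.sum_range_one]
    rw [show 2 * π * ((0 : ℕ) : ℝ) / ((5 : ℕ) : ℝ) = 0 by push_cast; ring,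
      show 2 * π * ((1 : ℕ) : ℝ) / ((5 : ℕ) : ℝ) = 2 * π / 5 by push_cast; ring,
      show 2 * π * ((2 : ℕ) : ℝ) / ((5 : ℕ) : ℝ) = 4 * π / 5 by push_cast; ring,
      show 2 * π * ((3 : ℕ) : ℝ) / ((5 : ℕ) : ℝ) = -(4 * π / 5) + 2 * π by push_cast; ring,
      show 2 * π * ((4 : ℕ) : ℝ) / ((5 : ℕ) : ℝ) = -(2 * π / 5) + 2 * π by push_cast; ring,
      Dc_zero, Dc_per, Dc_per, Dc_neg, Dc_neg]
    ring) θ
  rw [Finset.sum_range_succ, Finset.sum_range_succ, Finset.sum_range_succ, Finset.sum_range_succ,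
    Finset.sum_range_one] at h
  rw [show θ + 2 * π * ((0 : ℕ) : ℝ) / ((5 : ℕ) : ℝ) = θ by push_cast; ring,
    show θ + 2 * π * ((1 : ℕ) : ℝ) / ((5 : ℕ) : ℝ) = θ + 2 * π / 5 by push_cast; ring,
    show θ + 2 * π * ((2 : ℕ) : ℝ) / ((5 : ℕ) : ℝ) = θ + 4 * π / 5 by push_cast; ring,
    show θ + 2 * π * ((3 : ℕ) : ℝ) / ((5 : ℕ) : ℝ) = θ + 6 * π / 5 by push_cast; ring,
    show θ + 2 * π * ((4 : ℕ) : ℝ) / ((5 : ℕ) : ℝ) = θ + 8 * π / 5 by push_cast; ring, e1, e2] at h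
  exact_mod_cast h

theorem concave : StrictConcaveOn ℝ (Icc 0 π) Dc := by
  refine StrictAntiOn.strictConcaveOn_of_deriv (convex_Icc 0 π) continuous_Dc.continuousOn ?_
  rw [interior_Icc]
  intro a ha b hb hab
  have hpi := Real.pi_pos
  rw [(hasDerivAt_Dc hb.1 (by linarith [hb.2])).deriv, (hasDerivAt_Dc ha.1 (by linarith [ha.2])).deriv]
  unfold Ls
  have h1 : 0 < Real.sin (a / 2) := Real.sin_pos_of_pos_of_lt_pi (by linarith [ha.1]) (by linarith [ha.2])
  have h2 : Real.sin (a / 2) < Real.sin (b / 2) :=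
    Real.strictMonoOn_sin ⟨by linarith [ha.1], by linarith [ha.2]⟩
      ⟨by linarith [hb.1], by linarith [hb.2]⟩ (by linarith)
  have h3 := Real.log_lt_log (by positivity : 0 < 2 * Real.sin (a / 2))
    (by linarith : 2 * Real.sin (a / 2) < 2 * Real.sin (b / 2))
  linarith

theorem Dc_pos {θ : ℝ} (h0 : 0 < θ) (h1 : θ < π) : 0 < Dc θ := by
  have hpi := Real.pi_pos
  have ha : 0 < 1 - θ / π := by
    rw [sub_pos, div_lt_one hpi]
    exact h1
  have hb : 0 < θ / π := by positivity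
  have h := concave.2 (⟨le_rfl, hpi.le⟩ : (0 : ℝ) ∈ Icc 0 π) (⟨hpi.le, le_rfl⟩ : π ∈ Icc 0 π)
    hpi.ne ha hb (by ring)
  rw [Dc_zero, Dc_pi] at h
  simp only [smul_eq_mul, mul_zero, add_zero, zero_add] at h
  rwa [div_mul_cancel₀ _ hpi.ne'] at h

theorem Dc_nonneg {θ : ℝ} (h0 : 0 ≤ θ) (h1 : θ ≤ π) : 0 ≤ Dc θ := by
  rcases h0.eq_or_lt with rfl | h0
  · rw [Dc_zero]
  · rcases h1.eq_or_lt with rfl | h1
    · rw [Dc_pi]
    · exact (Dc_pos h0 h1).le

/-- `Dc` is increasing on `[0, π/3]` -/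
theorem Dc_mono : StrictMonoOn Dc (Icc 0 (π / 3)) := by
  have hpi := Real.pi_pos
  refine strictMonoOn_of_deriv_pos (convex_Icc 0 (π / 3)) continuous_Dc.continuousOn ?_
  rw [interior_Icc]
  intro a ha
  rw [(hasDerivAt_Dc ha.1 (by linarith [ha.2])).deriv]
  unfold Ls
  have h1 : 0 < Real.sin (a / 2) := Real.sin_pos_of_pos_of_lt_pi (by linarith [ha.1]) (by linarith [ha.2])
  have h2 : Real.sin (a / 2) < Real.sin (π / 6) :=
    Real.strictMonoOn_sin ⟨by linarith [ha.1], by linarith [ha.2]⟩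
      ⟨by linarith, by linarith⟩ (by linarith [ha.2])
  rw [Real.sin_pi_div_six] at h2
  have h3 := Real.log_neg (by positivity : 0 < 2 * Real.sin (a / 2)) (by linarith)
  linarith

/-- `Dc` is decreasing on `[π/3, π]` -/
theorem Dc_anti : StrictAntiOn Dc (Icc (π / 3) π) := by
  have hpi := Real.pi_pos
  refine strictAntiOn_of_deriv_neg (convex_Icc (π / 3) π) continuous_Dc.continuousOn ?_
  rw [interior_Icc]
  intro a ha
  rw [(hasDerivAt_Dc (by linarith [ha.1]) (by linarith [ha.2])).deriv]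
  unfold Ls
  have h2 : Real.sin (π / 6) < Real.sin (a / 2) :=
    Real.strictMonoOn_sin ⟨by linarith, by linarith⟩ ⟨by linarith [ha.1], by linarith [ha.2]⟩
      (by linarith [ha.1])
  rw [Real.sin_pi_div_six] at h2
  have h3 := Real.log_pos (by linarith : 1 < 2 * Real.sin (a / 2))
  linarith

/-- the maximum -/
theorem Dc_le (θ : ℝ) (h0 : 0 ≤ θ) (h1 : θ ≤ π) : Dc θ ≤ Dc (π / 3) := by
  have hpi := Real.pi_pos
  rcases le_total θ (π / 3) with h | h
  · exact Dc_mono.monotoneOn ⟨h0, h⟩ ⟨by linarith, le_rfl⟩ h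
  · exact Dc_anti.antitoneOn ⟨le_rfl, by linarith⟩ ⟨h, h1⟩ h

theorem Dc_two_thirds : Dc (2 * π / 3) = 2 / 3 * Dc (π / 3) := by
  have h := Dc_two (π / 3)
  have h1 : Dc (π / 3 + π) = -Dc (2 * π / 3) := by
    rw [← Dc_neg, ← Dc_per (-(2 * π / 3))]
    congr 1
    ring
  rw [h1, show 2 * (π / 3) = 2 * π / 3 by ring] at h
  linarith

/-- the comparison of `Dc` at `θ` and at `m θ` -/
theorem Dc_mul_lt {m θ : ℝ} (hm : 1 < m) (h0 : 0 < θ) (h1 : m * θ ≤ π) : Dc (m * θ) < m * Dc θ := by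
  have hpi := Real.pi_pos
  have hm0 : 0 < m := by linarith
  have hmθ : 0 < m * θ := by positivity
  have ha : 0 < 1 - 1 / m := by
    rw [sub_pos, div_lt_one hm0]
    exact hm
  have hb : 0 < 1 / m := by positivity
  have h := concave.2 (⟨le_rfl, hpi.le⟩ : (0 : ℝ) ∈ Icc 0 π) (⟨hmθ.le, h1⟩ : m * θ ∈ Icc 0 π)
    hmθ.ne ha hb (by ring)
  rw [Dc_zero] at h
  simp only [smul_eq_mul, mul_zero, zero_add] at h
  rw [show 1 / m * (m * θ) = θ by field_simp, one_div, inv_mul_lt_iff₀ hm0] at h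
  exact h

end Pool.Agent.P8H1.CG
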