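import Pool.Agent.P8H1.CG.Defs
set_option autoImplicit false

/-!
The polynomials `v² - v - κ` and the data for `κ = 2` and `κ = 3`.
-/

namespace Pool.Agent.P8H1.CG

/-- The polynomial `v² - v - κ`. -/
noncomputable def GG {K : Type*} [Field K] (κ : K) : Polynomial K :=
  Polynomial.X ^ 2 - Polynomial.X - Polynomial.C κ

variable {K : Type*} [Field K] (ζ : Kˣ)

/-- The data for `G = v² - v - 2`: `G + 2 = v (v - 1)`, `G = (v - 2) (v + 1)`. -/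
def E2 : Dat K 2 2 := ⟨![ζ ^ 30, ζ ^ 15], ![![ζ ^ 15, ζ ^ 10], ![1, ζ ^ 20]]⟩

/-- The data for `G = v² - v - 3`: `G + 2 = v² - v - 1`, `G + 1 = (v - 2) (v + 1)`. -/
def E3 : Dat K 2 2 := ⟨![ζ ^ 30, ζ ^ 20], ![![ζ ^ 6, ζ ^ 18], ![1, ζ ^ 20]]⟩

end Pool.Agent.P8H1.CG
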