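import Pool.Agent.P8H1.CG.Cl
set_option autoImplicit false

/-!
The signs of the sums `D(e^(iθ)/z) + D(e^(iθ) z)` for some `z`.
-/

namespace Pool.Agent.P8H1.CG

open Real Set Filter Topology MeasureTheory
open Pool.Agent.N65.TK (D Dc Ls D_real hasDerivAt_D hasDerivAt_Dc)
open Pool.Agent.P8H1.EK (Dc_neg continuous_Dc Gz Gz_inv continuous_Gz Gz_neg exists_ang)

theorem Dc_refl (θ : ℝ) : Dc (2 * π - θ) = -Dc θ := by
  rw [← Dc_neg, ← Dc_per (-θ)]
  congr 1
  ring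

theorem Dc_add_pi (θ : ℝ) : Dc (θ + π) = -Dc (π - θ) := by
  rw [← Dc_neg, ← Dc_per (-(π - θ))]
  congr 1
  ring

theorem Dc_sub_pi (θ : ℝ) : Dc (θ - π) = -Dc (π - θ) := by
  rw [← Dc_neg]
  congr 1
  ring

/-- `Dc` is nonpositive on `[π, 2π]` -/
theorem Dc_nonpos {θ : ℝ} (h0 : π ≤ θ) (h1 : θ ≤ 2 * π) : Dc θ ≤ 0 := by
  have h := Dc_refl (2 * π - θ)
  rw [sub_sub_cancel] at h
  have h2 := Dc_nonneg (θ := 2 * π - θ) (by linarith) (by linarith)
  linarith

/-- the mirrored comparison -/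
theorem Dc_mul_lt' {m φ : ℝ} (hm : 1 < m) (h0 : 0 < φ) (h1 : m * φ ≤ π) :
    Dc (π - m * φ) < m * Dc (π - φ) := by
  have hpi := Real.pi_pos
  have hm0 : 0 < m := by linarith
  have hmφ : 0 < m * φ := by positivity
  have ha : 0 < 1 - 1 / m := by
    rw [sub_pos, div_lt_one hm0]
    exact hm
  have hb : 0 < 1 / m := by positivity
  have h := concave.2 (⟨hpi.le, le_rfl⟩ : π ∈ Icc 0 π)
    (⟨by linarith, by linarith⟩ : π - m * φ ∈ Icc 0 π) (by linarith : π - m * φ < π).ne' ha hb (by ring)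
  rw [Dc_pi] at h
  simp only [smul_eq_mul, mul_zero, zero_add] at h
  rw [show (1 - 1 / m) * π + 1 / m * (π - m * φ) = π - φ by field_simp; ring, one_div,
    inv_mul_lt_iff₀ hm0] at h
  exact h

/-- `Dc(3θ) < 3 Dc(θ)` on `(0, π)` -/
theorem three_lt {θ : ℝ} (h0 : 0 < θ) (h1 : θ < π) : Dc (3 * θ) < 3 * Dc θ := by
  have hp := Dc_pos h0 h1
  rcases le_total θ (π / 3) with h | h
  · exact Dc_mul_lt (by norm_num) h0 (by linarith)
  · rcases le_total θ (2 * π / 3) with h2 | h2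
    · have := Dc_nonpos (θ := 3 * θ) (by linarith) (by linarith)
      linarith
    · have h3 := Dc_mul_lt' (m := 3) (φ := π - θ) (by norm_num) (by linarith) (by linarith)
      rw [sub_sub_cancel, show π - 3 * (π - θ) = 3 * θ - 2 * π by ring, Dc_sub_per] at h3
      exact h3

section facts

variable {z : ℂ} (hz : ‖z‖ = 1)
include hz

theorem Gz_zero : Gz z 0 = 0 := by
  have h := Gz_neg hz 0
  rw [neg_zero] at h
  linarith

theorem Gz_per (θ : ℝ) : Gz z (θ + 2 * π) = Gz z θ := by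
  rw [exists_ang hz, exists_ang hz, show θ + 2 * π - Real.arccos z.re = θ - Real.arccos z.re + 2 * π by ring,
    show θ + 2 * π + Real.arccos z.re = θ + Real.arccos z.re + 2 * π by ring, Dc_per, Dc_per]

theorem Gz_refl (θ : ℝ) : Gz z (2 * π - θ) = -Gz z θ := by
  rw [← Gz_neg hz, ← Gz_per hz (-θ)]
  congr 1
  ring

theorem Gz_pi : Gz z π = 0 := by
  have h := Gz_refl hz π
  rw [show 2 * π - π = π by ring] at h
  linarith

theorem Gz_one (h : z.re = 1) (θ : ℝ) : Gz z θ = 2 * Dc θ := by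
  rw [exists_ang hz, h, Real.arccos_one, sub_zero, add_zero]
  ring

theorem Gz_m1 (h : z.re = -1) (θ : ℝ) : Gz z θ = -(2 * Dc (π - θ)) := by
  rw [exists_ang hz, h, Real.arccos_neg_one, Dc_add_pi, Dc_sub_pi]
  ring

theorem Gz_re_zero (h : z.re = 0) (θ : ℝ) : Gz z θ = 1 / 2 * Dc (2 * θ - π) := by
  rw [exists_ang hz, h, Real.arccos_zero]
  have h1 := Dc_two (θ - π / 2)
  rw [show 2 * (θ - π / 2) = 2 * θ - π by ring, show θ - π / 2 + π = θ + π / 2 by ring] at h1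
  linarith

theorem arccos_half : Real.arccos (1 / 2) = π / 3 := by
  have hpi := Real.pi_pos
  rw [← Real.cos_pi_div_three, Real.arccos_cos (by linarith) (by linarith)]

theorem arccos_mhalf : Real.arccos (-1 / 2) = 2 * π / 3 := by
  have h := arccos_half hz
  rw [neg_div, Real.arccos_neg, h]
  ring

theorem Gz_mhalf (h : z.re = -1 / 2) (θ : ℝ) : Gz z θ = 1 / 3 * Dc (3 * θ) - Dc θ := by
  rw [exists_ang hz, h, arccos_mhalf hz]
  have h1 := Dc_three θ
  linarith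

theorem Gz_half (h : z.re = 1 / 2) (θ : ℝ) :
    Gz z θ = Dc (π - θ) - 1 / 3 * Dc (3 * (π - θ)) := by
  rw [exists_ang hz, h, arccos_half hz]
  have h1 := Dc_three (π - θ)
  have e1 : Dc (π - θ + 2 * π / 3) = -Dc (θ + π / 3) := by
    rw [← Dc_refl]
    congr 1
    ring
  have e2 : Dc (π - θ - 2 * π / 3) = -Dc (θ - π / 3) := by
    rw [← Dc_neg]
    congr 1
    ring
  rw [e1, e2] at h1
  linarith

/-- negative for `z = -1` -/
theorem neg_m1 (h : z.re = -1) {θ : ℝ} (h0 : 0 < θ) (h1 : θ < π) : Gz z θ < 0 := by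
  rw [Gz_m1 hz h]
  have := Dc_pos (θ := π - θ) (by linarith) (by linarith)
  linarith

/-- negative for the cube roots of unity -/
theorem neg_mhalf (h : z.re = -1 / 2) {θ : ℝ} (h0 : 0 < θ) (h1 : θ < π) : Gz z θ < 0 := by
  rw [Gz_mhalf hz h]
  have := three_lt h0 h1
  linarith

theorem pos_half (h : z.re = 1 / 2) {θ : ℝ} (h0 : 0 < θ) (h1 : θ < π) : 0 < Gz z θ := by
  rw [Gz_half hz h]
  have := three_lt (θ := π - θ) (by linarith) (by linarith)
  linarith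

theorem nonneg_i (h : z.re = 0) {θ : ℝ} (h0 : π / 2 ≤ θ) (h1 : θ ≤ π) : 0 ≤ Gz z θ := by
  rw [Gz_re_zero hz h]
  have := Dc_nonneg (θ := 2 * θ - π) (by linarith) (by linarith)
  linarith

theorem nonpos_i (h : z.re = 0) {θ : ℝ} (h0 : 0 ≤ θ) (h1 : θ ≤ π / 2) : Gz z θ ≤ 0 := by
  rw [Gz_re_zero hz h]
  have h2 := Dc_nonneg (θ := π - 2 * θ) (by linarith) (by linarith)
  have h3 : Dc (2 * θ - π) = -Dc (π - 2 * θ) := by
    rw [← Dc_neg]
    congr 1
    ring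
  linarith

theorem le_i (h : z.re = 0) {θ : ℝ} (h0 : π / 2 ≤ θ) (h1 : θ ≤ π) : Gz z θ ≤ 1 / 2 * Dc (π / 3) := by
  rw [Gz_re_zero hz h]
  have := Dc_le (2 * θ - π) (by linarith) (by linarith)
  linarith

variable {z' : ℂ} (hz' : ‖z'‖ = 1)
include hz'

/-- the pair `(i, e^(iπ/3))` -/
theorem pair_A (h : z.re = 0) (h' : z'.re = 1 / 2) {θ : ℝ} (h0 : π / 2 ≤ θ) (h1 : θ < π) :
    0 < Gz z θ + Gz z' θ := by
  have hpi := Real.pi_pos
  have h2 := nonneg_i hz h h0 h1.le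
  have h3 := pos_half hz' h' (θ := θ) (by linarith) h1
  linarith

/-- the pair `(1, e^(2πi/3))` -/
theorem pair_B_eq (h : z.re = 1) (h' : z'.re = -1 / 2) (θ : ℝ) :
    Gz z θ + Gz z' θ = Dc θ + 1 / 3 * Dc (3 * θ) := by
  rw [Gz_one hz h, Gz_mhalf hz' h']
  ring

theorem pair_B_ge (h : z.re = 1) (h' : z'.re = -1 / 2) {θ : ℝ} (h0 : π / 2 ≤ θ)
    (h1 : θ ≤ 2 * π / 3) : 1 / 3 * Dc (π / 3) ≤ Gz z θ + Gz z' θ := by
  have hpi := Real.pi_pos
  rw [pair_B_eq hz hz' h h']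
  have h2 : Dc (2 * π / 3) ≤ Dc θ :=
    Dc_anti.antitoneOn ⟨by linarith, by linarith⟩ ⟨by linarith, by linarith⟩ h1
  rw [Dc_two_thirds] at h2
  have h3 : Dc (3 * θ) = -Dc (2 * π - 3 * θ) := by
    rw [← Dc_refl]
    congr 1
    ring
  have h4 := Dc_le (2 * π - 3 * θ) (by linarith) (by linarith)
  linarith

theorem pair_B (h : z.re = 1) (h' : z'.re = -1 / 2) {θ : ℝ} (h0 : π / 2 ≤ θ) (h1 : θ < π) :
    0 < Gz z θ + Gz z' θ := by
  have hpi := Real.pi_pos
  rcases le_total θ (2 * π / 3) with h2 | h2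
  · have h3 := pair_B_ge hz hz' h h' h0 h2
    have h4 := Dc_pos (θ := π / 3) (by linarith) (by linarith)
    linarith
  · rw [pair_B_eq hz hz' h h']
    have h3 := Dc_pos (θ := θ) (by linarith) h1
    have h4 := Dc_nonneg (θ := 3 * θ - 2 * π) (by linarith) (by linarith)
    rw [Dc_sub_per] at h4
    linarith

/-- the pair `(e^(iπ/5), e^(3πi/5))` -/
theorem pair_C_eq (h : Real.arccos z.re = π / 5) (h' : Real.arccos z'.re = 3 * π / 5) (θ : ℝ) :
    Gz z θ + Gz z' θ = Dc (π - θ) - 1 / 5 * Dc (5 * (π - θ)) := by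
  rw [exists_ang hz, exists_ang hz', h, h']
  have h1 := Dc_five (π - θ)
  have e1 : Dc (π - θ + 2 * π / 5) = -Dc (θ + 3 * π / 5) := by
    rw [← Dc_refl]
    congr 1
    ring
  have e2 : Dc (π - θ + 4 * π / 5) = -Dc (θ + π / 5) := by
    rw [← Dc_refl]
    congr 1
    ring
  have e3 : Dc (π - θ - 4 * π / 5) = -Dc (θ - π / 5) := by
    rw [← Dc_neg]
    congr 1
    ring
  have e4 : Dc (π - θ - 2 * π / 5) = -Dc (θ - 3 * π / 5) := by
    rw [← Dc_neg]
    congr 1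
    ring
  rw [e1, e2, e3, e4] at h1
  linarith

theorem pair_C (h : Real.arccos z.re = π / 5) (h' : Real.arccos z'.re = 3 * π / 5) {θ : ℝ}
    (h0 : 3 * π / 5 ≤ θ) (h1 : θ < π) : 0 < Gz z θ + Gz z' θ := by
  have hpi := Real.pi_pos
  rw [pair_C_eq hz hz' h h']
  have hp := Dc_pos (θ := π - θ) (by linarith) (by linarith)
  rcases le_total (π - θ) (π / 5) with h2 | h2
  · have := Dc_mul_lt (m := 5) (θ := π - θ) (by norm_num) (by linarith) (by linarith)
    linarith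
  · have := Dc_nonpos (θ := 5 * (π - θ)) (by linarith) (by linarith)
    linarith

end facts

end Pool.Agent.P8H1.CG
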