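import Pool.Agent.P8H1.CG.Alg
import Pool.Agent.P8H1.EK.Inv
set_option autoImplicit false

/-!
The elements `xi j` are invariant under the automorphisms of the field which fix the numbers `v_j` and
permute the numbers `v'_ji`.
-/

namespace Pool.Agent.P8H1.CG

open Pool.Agent.N65.TK (Pt FS br)
open Pool.Agent.P8H1.PD (LP mo)
open Pool.Agent.P8H1.EK (tr mono con coef coef_single coef_mono coef_con tau_eq)

variable {K : Type*} [Field K] {d r : ℕ} (C : Dat K d r) (τ : K →+* K)
variable (e : Fin r → Equiv.Perm (Fin d)) (h : ∀ j, τ (tr (C.z j)) = tr (C.z j))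
  (h' : ∀ j i, τ (tr (C.z' j i)) = tr (C.z' j (e j i)))

include h h' in
theorem idl_le : C.idl ≤ C.idl.comap (coef r τ) := by
  conv_lhs => unfold Dat.idl
  rw [Ideal.span_le]
  rintro P ⟨j, rfl | rfl⟩
  · show coef r τ _ ∈ C.idl
    rw [map_sub, map_sub, map_add, coef_mono, coef_mono, coef_mono, coef_con, h j]
    exact Ideal.subset_span ⟨j, Or.inl rfl⟩
  · show coef r τ _ ∈ C.idl
    have h1 : ∏ i, coef r τ ((mono K r 1 1 : LP K (r + 2)) + (mono K r 1 (-1) : LP K (r + 2)) -
        con (tr (C.z' j i))) = ∏ i, ((mono K r 1 1 : LP K (r + 2)) +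
        (mono K r 1 (-1) : LP K (r + 2)) - con (tr (C.z' j i))) := by
      rw [← Equiv.prod_comp (e j) fun i => (mono K r 1 1 : LP K (r + 2)) +
        (mono K r 1 (-1) : LP K (r + 2)) - con (tr (C.z' j i))]
      refine Finset.prod_congr rfl fun i _ => ?_
      rw [map_sub, map_add, coef_mono, coef_mono, coef_con, h' j]
    rw [map_sub, map_prod, h1, coef_mono]
    exact Ideal.subset_span ⟨j, Or.inr rfl⟩

/-- The endomorphism of the coordinate ring given by `τ` on the coefficients. -/
noncomputable def Dat.gal : C.Crv →+* C.Crv :=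
  Ideal.quotientMap C.idl (coef r τ) (idl_le C τ e h h')

theorem gal_cst (a : K) : C.gal τ e h h' (C.cst a) = C.cst (τ a) := by
  show Ideal.quotientMap C.idl (coef r τ) (idl_le C τ e h h') (Ideal.Quotient.mk C.idl (con a)) = _
  rw [Ideal.quotientMap_mk, coef_con]
  rfl

theorem gal_mn (c : Kˣ) (k : Fin (r + 2) → ℤ) :
    Units.map (C.gal τ e h h' : C.Crv →* C.Crv) (C.mn c k) =
      C.mn (Units.map (τ : K →* K) c) k := by
  ext
  show Ideal.quotientMap C.idl (coef r τ) (idl_le C τ e h h')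
    (Ideal.Quotient.mk C.idl (AddMonoidAlgebra.single k (c : K))) = _
  rw [Ideal.quotientMap_mk, coef_single]
  rfl

/-- units with the same value of `tr` -/
theorem tr_eq_iff {a b : Kˣ} (hab : tr a = tr b) : a = b ∨ a = b⁻¹ := by
  have h1 : (a : K) + (a : K)⁻¹ = (b : K) + (b : K)⁻¹ := by
    unfold tr at hab
    rw [Units.val_inv_eq_inv_val, Units.val_inv_eq_inv_val] at hab
    exact hab
  have ha0 : (a : K) ≠ 0 := a.ne_zero
  have hb0 : (b : K) ≠ 0 := b.ne_zero
  have h2 : ((a : K) - b) * ((a : K) - (b : K)⁻¹) = 0 := by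
    field_simp at h1 ⊢
    linear_combination h1
  rcases mul_eq_zero.1 h2 with h3 | h3
  · left
    ext
    exact sub_eq_zero.1 h3
  · right
    ext
    rw [Units.val_inv_eq_inv_val]
    exact sub_eq_zero.1 h3

theorem tr_map (c : Kˣ) : tr (Units.map (τ : K →* K) c) = τ (tr c) := by
  unfold tr
  rw [map_add, ← map_inv]
  rfl

theorem gal_xi (j : Fin r) : FS.map (C.gal τ e h h') (C.xi j) = C.xi j := by
  have hx : Units.map (C.gal τ e h h' : C.Crv →* C.Crv) C.cx = C.cx := by
    unfold Dat.cx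
    rw [gal_mn, map_one]
  have hy : Units.map (C.gal τ e h h' : C.Crv →* C.Crv) C.cy = C.cy := by
    unfold Dat.cy
    rw [gal_mn, map_one]
  have hu : ∀ c : Kˣ, Units.map (C.gal τ e h h' : C.Crv →* C.Crv) (C.uc c) =
      C.uc (Units.map (τ : K →* K) c) := fun c => gal_mn C τ e h h' c 0
  have hpx : ∀ f : Pt C.Crv, ∀ c : Kˣ, f.1 = C.uc c * C.cx →
      (f.map (C.gal τ e h h')).1 = C.uc (Units.map (τ : K →* K) c) * C.cx := by
    intro f c hf
    show Units.map (C.gal τ e h h' : C.Crv →* C.Crv) f.1 = _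
    rw [hf, map_mul, hu, hx]
  have hpy : ∀ f : Pt C.Crv, ∀ c : Kˣ, f.1 = C.uc c * C.cy →
      (f.map (C.gal τ e h h')).1 = C.uc (Units.map (τ : K →* K) c) * C.cy := by
    intro f c hf
    show Units.map (C.gal τ e h h' : C.Crv →* C.Crv) f.1 = _
    rw [hf, map_mul, hu, hy]
  have e1 : br ((C.px j).map (C.gal τ e h h')) C.cy + br ((C.qx j).map (C.gal τ e h h')) C.cy =
      br (C.px j) C.cy + br (C.qx j) C.cy := by
    rcases tr_eq_iff ((tr_map τ (C.z j)).trans (h j)) with h1 | h1
    · have h2 : (C.px j).map (C.gal τ e h h') = C.px j := by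
        apply Subtype.ext
        rw [hpx (C.px j) (C.z j)⁻¹ rfl, map_inv, h1]
        rfl
      have h3 : (C.qx j).map (C.gal τ e h h') = C.qx j := by
        apply Subtype.ext
        rw [hpx (C.qx j) (C.z j) rfl, h1]
        rfl
      rw [h2, h3]
    · have h2 : (C.px j).map (C.gal τ e h h') = C.qx j := by
        apply Subtype.ext
        rw [hpx (C.px j) (C.z j)⁻¹ rfl, map_inv, h1, inv_inv]
        rfl
      have h3 : (C.qx j).map (C.gal τ e h h') = C.px j := by
        apply Subtype.ext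
        rw [hpx (C.qx j) (C.z j) rfl, h1]
        rfl
      rw [h2, h3, add_comm]
  have e2 : ∀ i, br ((C.py j i).map (C.gal τ e h h')) C.cx +
      br ((C.qy j i).map (C.gal τ e h h')) C.cx =
      br (C.py j (e j i)) C.cx + br (C.qy j (e j i)) C.cx := by
    intro i
    rcases tr_eq_iff ((tr_map τ (C.z' j i)).trans (h' j i)) with h1 | h1
    · have h2 : (C.py j i).map (C.gal τ e h h') = C.py j (e j i) := by
        apply Subtype.ext
        rw [hpy (C.py j i) (C.z' j i)⁻¹ rfl, map_inv, h1]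
        rfl
      have h3 : (C.qy j i).map (C.gal τ e h h') = C.qy j (e j i) := by
        apply Subtype.ext
        rw [hpy (C.qy j i) (C.z' j i) rfl, h1]
        rfl
      rw [h2, h3]
    · have h2 : (C.py j i).map (C.gal τ e h h') = C.qy j (e j i) := by
        apply Subtype.ext
        rw [hpy (C.py j i) (C.z' j i)⁻¹ rfl, map_inv, h1, inv_inv]
        rfl
      have h3 : (C.qy j i).map (C.gal τ e h h') = C.py j (e j i) := by
        apply Subtype.ext
        rw [hpy (C.qy j i) (C.z' j i) rfl, h1]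
        rfl
      rw [h2, h3, add_comm]
  have hm : ∀ (f : Pt C.Crv) (g : C.Crvˣ), FS.map (C.gal τ e h h') (br f g) =
      br (f.map (C.gal τ e h h')) (Units.map (C.gal τ e h h' : C.Crv →* C.Crv) g) := by
    intro f g
    unfold br FS.map
    rw [Finsupp.lmapDomain_apply, Finsupp.mapDomain_single]
  unfold Dat.xi
  simp only [map_add, map_sum, hm, hx, hy]
  rw [e1]
  congr 1
  simp only [e2]
  exact Equiv.sum_comp (e j) fun i => br (C.py j i) C.cx + br (C.qy j i) C.cx

end Pool.Agent.P8H1.CG
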