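import Pool.Agent.P8H1.CG.Lim
set_option autoImplicit false

/-!
The first loop: `x = e^(iψ)`, `y + 1/y = (1 - √(1 + 4k + 8 cos ψ))/2`.
-/

namespace Pool.Agent.P8H1.CG

open Real Set Filter Topology MeasureTheory
open Pool.Agent.P8H1.EK (Gz Gz_neg continuous_Gz)

section sqrt

/-- the complex square root -/
noncomputable def cs (z : ℂ) : ℂ := Complex.exp (Complex.log z / 2)

theorem cs_ne (z : ℂ) : cs z ≠ 0 := Complex.exp_ne_zero _

theorem cs_sq {z : ℂ} (h : z ≠ 0) : cs z ^ 2 = z := by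
  unfold cs
  rw [← Complex.exp_nat_mul]
  have h1 : ((2 : ℕ) : ℂ) * (Complex.log z / 2) = Complex.log z := by
    push_cast
    ring
  rw [h1, Complex.exp_log h]

theorem cs_real {r : ℝ} (h : 0 < r) : cs (r : ℂ) = ((√r : ℝ) : ℂ) := by
  unfold cs
  rw [← Complex.ofReal_log h.le]
  have h2 : ((Real.log r : ℝ) : ℂ) / 2 = ((Real.log r / 2 : ℝ) : ℂ) := by
    push_cast
    rfl
  rw [h2, ← Complex.ofReal_exp, ← Real.log_sqrt h.le, Real.exp_log (Real.sqrt_pos.2 h)]

theorem cs_diff {f : ℂ → ℂ} {z : ℂ} (hf : DifferentiableAt ℂ f z) (h : f z ∈ Complex.slitPlane) :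
    DifferentiableAt ℂ (fun z => cs (f z)) z := by
  unfold cs
  exact ((hf.clog h).div_const 2).cexp

theorem exp_arccos {x : ℝ} (h1 : -1 ≤ x) (h2 : x ≤ 1) :
    Complex.exp ((Real.arccos x : ℝ) * Complex.I) = (x : ℂ) + ((√(1 - x ^ 2) : ℝ) : ℂ) * Complex.I := by
  rw [Complex.exp_mul_I, ← Complex.ofReal_cos, ← Complex.ofReal_sin, Real.cos_arccos h1 h2,
    Real.sin_arccos]

/-- if `X + 1/X` is a real number of absolute value at most `2`, then `|X| = 1` -/
theorem norm_one_of {X : ℂ} (hX : X ≠ 0) {c : ℝ} (hc : |c| ≤ 2) (h : X + X⁻¹ = (c : ℂ)) :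
    ‖X‖ = 1 := by
  rw [abs_le] at hc
  set z : ℂ := Complex.exp ((Real.arccos (c / 2) : ℝ) * Complex.I) with hz
  have hz1 : ‖z‖ = 1 := Complex.norm_exp_ofReal_mul_I _
  have hz0 := ne_zero_of hz1
  have hre : z.re = c / 2 := by
    rw [hz, Complex.exp_ofReal_mul_I_re, Real.cos_arccos (by linarith) (by linarith)]
  have h1 : z + z⁻¹ = (c : ℂ) := by
    rw [Complex.inv_eq_conj hz1, Complex.add_conj, hre]
    push_cast
    ring
  have h2 : (X - z) * (X - z⁻¹) = 0 := by
    have h3 : (X - z) * (X - z⁻¹) = X * (X + X⁻¹ - (z + z⁻¹)) := by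
      field_simp
      ring
    rw [h3, h, h1, sub_self, mul_zero]
  rcases mul_eq_zero.1 h2 with h3 | h3
  · rw [sub_eq_zero.1 h3, hz1]
  · rw [sub_eq_zero.1 h3, norm_inv, hz1, inv_one]

end sqrt

variable (k : ℝ)

/-- the radicand -/
noncomputable def R1 (z : ℂ) : ℂ := 1 + 4 * k + 8 * Complex.cos z

/-- the number `y + 1/y` -/
noncomputable def V1 (z : ℂ) : ℂ := (1 - cs (R1 k z)) / 2

/-- the second radicand -/
noncomputable def T1 (z : ℂ) : ℂ := 1 - (V1 k z / 2) ^ 2

/-- the function `y` -/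
noncomputable def Q1 (z : ℂ) : ℂ := V1 k z / 2 + cs (T1 k z) * Complex.I

/-- the real radicand -/
noncomputable def r1 (s : ℝ) : ℝ := 1 + 4 * k + 8 * Real.cos s

/-- half of `y + 1/y` -/
noncomputable def v1 (s : ℝ) : ℝ := (1 - √(r1 k s)) / 4

/-- the angle of `y` -/
noncomputable def b1 (s : ℝ) : ℝ := Real.arccos (v1 k s)

/-- the positive factor of the derivative of the angle -/
noncomputable def m1 (s : ℝ) : ℝ := 1 / (√(r1 k s) * √(1 - v1 k s ^ 2))

section real

variable {k} (hk : 2 ≤ k) (hk' : k ≤ 3) (s : ℝ)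

theorem V1_per (z : ℂ) : V1 k (z + 2 * π) = V1 k z := by
  unfold V1 R1
  rw [Complex.cos_add_two_pi]

include hk

theorem r1_pos : 0 < r1 k s := by
  unfold r1
  have := Real.neg_one_le_cos s
  linarith

theorem R1_real : R1 k (s : ℂ) = ((r1 k s : ℝ) : ℂ) := by
  unfold R1 r1
  push_cast
  ring

theorem V1_real : V1 k (s : ℂ) / 2 = ((v1 k s : ℝ) : ℂ) := by
  unfold V1 v1
  rw [R1_real hk, cs_real (r1_pos hk s)]
  push_cast
  ring

theorem sqrt_r1_sq : √(r1 k s) ^ 2 = r1 k s := Real.sq_sqrt (r1_pos hk s).le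

theorem one_le_sqrt : 1 ≤ √(r1 k s) := by
  rw [Real.one_le_sqrt]
  unfold r1
  have := Real.neg_one_le_cos s
  linarith

theorem v1_le : v1 k s ≤ 0 := by
  have := one_le_sqrt hk s
  unfold v1
  linarith

include hk'

theorem sqrt_lt : √(r1 k s) < 5 := by
  rw [Real.sqrt_lt' (by norm_num)]
  unfold r1
  have := Real.cos_le_one s
  linarith

theorem v1_gt : -1 < v1 k s := by
  have := sqrt_lt hk hk' s
  unfold v1
  linarith

theorem t1_pos : 0 < 1 - v1 k s ^ 2 := by
  have h1 := v1_gt hk hk' s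
  have h2 := v1_le hk s
  nlinarith

theorem T1_real : T1 k (s : ℂ) = ((1 - v1 k s ^ 2 : ℝ) : ℂ) := by
  unfold T1
  rw [V1_real hk]
  push_cast
  ring

theorem Q1_real : Q1 k (s : ℂ) = Complex.exp (b1 k s * Complex.I) := by
  unfold Q1 b1
  rw [T1_real hk hk', cs_real (t1_pos hk hk' s), V1_real hk, exp_arccos (v1_gt hk hk' s).le
    ((v1_le hk s).trans zero_le_one)]

theorem m1_pos : 0 < m1 k s := by
  unfold m1
  have h1 := Real.sqrt_pos.2 (r1_pos hk s)
  have h2 := Real.sqrt_pos.2 (t1_pos hk hk' s)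
  positivity

theorem hd_b1 : HasDerivAt (b1 k) (-(m1 k s * Real.sin s)) s := by
  have hr : HasDerivAt (r1 k) (8 * (-Real.sin s)) s := by
    unfold r1
    exact ((Real.hasDerivAt_cos s).const_mul 8).const_add _
  have hs := hr.sqrt (r1_pos hk s).ne'
  have hv : HasDerivAt (v1 k) (-(8 * (-Real.sin s) / (2 * √(r1 k s))) / 4) s := by
    unfold v1
    exact (hs.const_sub 1).div_const 4
  have h1 := v1_gt hk hk' s
  have h2 := v1_le hk s
  have ha := (Real.hasDerivAt_arccos (x := v1 k s) (by linarith) (by linarith)).comp s hv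
  refine ha.congr_deriv ?_
  unfold m1
  have h3 := Real.sqrt_pos.2 (r1_pos hk s)
  have h4 := Real.sqrt_pos.2 (t1_pos hk hk' s)
  field_simp
  ring

theorem b1_range : π / 2 ≤ b1 k s ∧ b1 k s < π := by
  have h1 := v1_gt hk hk' s
  have h2 := v1_le hk s
  unfold b1
  constructor
  · rw [← Real.arccos_zero]
    exact Real.antitone_arccos h2
  · refine lt_of_le_of_ne (Real.arccos_le_pi _) fun h => ?_
    rw [Real.arccos_eq_pi] at h
    linarith

theorem exists_L1 : ∃ L : Lo k {((-2 : ℝ) : ℂ), ((2 - k : ℝ) : ℂ)},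
    (∀ s : ℝ, L.P s = Complex.exp (s * Complex.I)) ∧
    ∀ s : ℝ, L.Q s = Complex.exp (b1 k s * Complex.I) := by
  have dR : ∀ z, DifferentiableAt ℂ (R1 k) z := fun z => by
    unfold R1
    exact (Complex.differentiable_cos.differentiableAt.const_mul 8).const_add _
  obtain ⟨wa, wa0, wa1, hwa⟩ := exists_w Complex.isOpen_slitPlane (f := R1 k) one_pos
    (fun z _ => (dR z).continuousAt) (fun z => by unfold R1; rw [Complex.cos_add_two_pi])
    (fun s => by
      rw [R1_real hk]
      exact Complex.ofReal_mem_slitPlane.2 (r1_pos hk s))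
  have dV : ∀ z : ℂ, |z.im| < wa → DifferentiableAt ℂ (V1 k) z := fun z hz => by
    unfold V1
    exact (((cs_diff (dR z) (hwa z hz))).const_sub 1).div_const 2
  have dT : ∀ z : ℂ, |z.im| < wa → DifferentiableAt ℂ (T1 k) z := fun z hz => by
    unfold T1
    exact (((dV z hz).div_const 2).pow 2).const_sub 1
  obtain ⟨w, w0, w1, hw⟩ := exists_w Complex.isOpen_slitPlane (f := T1 k) wa0
    (fun z hz => (dT z hz).continuousAt) (fun z => by unfold T1; rw [V1_per])
    (fun s => by
      rw [T1_real hk hk']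
      exact Complex.ofReal_mem_slitPlane.2 (t1_pos hk hk' s))
  have hT0 : ∀ z : ℂ, |z.im| < w → T1 k z ≠ 0 := fun z hz => Complex.slitPlane_ne_zero (hw z hz)
  have hmul : ∀ z : ℂ, |z.im| < w → Q1 k z * (V1 k z / 2 - cs (T1 k z) * Complex.I) = 1 := by
    intro z hz
    have h1 := cs_sq (hT0 z hz)
    have h2 : T1 k z = 1 - (V1 k z / 2) ^ 2 := rfl
    unfold Q1
    linear_combination h1 + h2 - (cs (T1 k z)) ^ 2 * Complex.I_sq
  have hinv : ∀ z : ℂ, |z.im| < w → (Q1 k z)⁻¹ = V1 k z / 2 - cs (T1 k z) * Complex.I :=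
    fun z hz => inv_eq_of_mul_eq_one_right (hmul z hz)
  have hsum : ∀ z : ℂ, |z.im| < w → Q1 k z + (Q1 k z)⁻¹ = V1 k z := by
    intro z hz
    rw [hinv z hz]
    unfold Q1
    ring
  have hexp : ∀ z : ℂ, Complex.exp (z * Complex.I) + (Complex.exp (z * Complex.I))⁻¹ =
      2 * Complex.cos z := by
    intro z
    rw [← Complex.exp_neg, Complex.cos, ← neg_mul]
    ring
  refine ⟨
    { P := fun z => Complex.exp (z * Complex.I)
      Q := Q1 k
      w := w
      w0 := w0
      dP := ?_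
      dQ := ?_
      nP := ?_
      nQ := ?_
      perP := ?_
      perQ := ?_
      rel := ?_
      uP := ?_
      uQ := ?_
      av := ?_
      ae := ?_ }, fun s => rfl, Q1_real hk hk'⟩
  · intro z _
    fun_prop
  · intro z hz
    unfold Q1
    exact ((dV z (hz.trans_le w1)).div_const 2).add
      ((cs_diff (dT z (hz.trans_le w1)) (hw z hz)).mul_const Complex.I)
  · intro z _
    exact Complex.exp_ne_zero _
  · intro z hz
    exact left_ne_zero_of_mul (by rw [hmul z hz]; exact one_ne_zero)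
  · intro z
    rw [add_mul, Complex.exp_add, show (2 : ℂ) * π * Complex.I = 2 * π * Complex.I by ring,
      Complex.exp_two_pi_mul_I, mul_one]
  · intro z
    unfold Q1 T1
    rw [V1_per]
  · intro z hz
    rw [hexp, hsum z hz]
    have h1 := cs_sq (Complex.slitPlane_ne_zero (hwa z (hz.trans_le w1)))
    have h2 : R1 k z = 1 + 4 * k + 8 * Complex.cos z := rfl
    unfold V1
    rw [h2] at h1 ⊢
    linear_combination (-1 / 4) * h1
  · intro t
    exact Complex.norm_exp_ofReal_mul_I t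
  · intro t
    rw [Q1_real hk hk']
    exact Complex.norm_exp_ofReal_mul_I _
  · intro z hz _ c hc h
    have h1 : ‖Complex.exp (z * Complex.I)‖ = 1 := by
      have hc' : ∃ c' : ℝ, |c'| ≤ 2 ∧ c = (c' : ℂ) := by
        rcases hc with rfl | rfl
        · exact ⟨-2, by norm_num, rfl⟩
        · exact ⟨2 - k, by rw [abs_le]; constructor <;> linarith, rfl⟩
      obtain ⟨c', h2, rfl⟩ := hc'
      exact norm_one_of (Complex.exp_ne_zero _) h2 h
    rw [Complex.norm_exp] at h1
    have h2 : (z * Complex.I).re = -z.im := by simp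
    rw [h2, Real.exp_eq_one_iff] at h1
    linarith
  · intro c hc
    have hc' : ∃ c' : ℝ, c = (c' : ℂ) := by
      rcases hc with rfl | rfl
      · exact ⟨-2, rfl⟩
      · exact ⟨2 - k, rfl⟩
    obtain ⟨c', rfl⟩ := hc'
    filter_upwards [(countable_cos' (c' / 2)).ae_notMem volume] with t ht h
    apply ht
    rw [hexp, ← Complex.ofReal_cos] at h
    have h1 : 2 * Real.cos (2 * π * t) = c' := by exact_mod_cast h
    show Real.cos (2 * π * t) = c' / 2
    linarith

end real

end Pool.Agent.P8H1.CG
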