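import Pool.Agent.P8H1.CG.L1
set_option autoImplicit false

/-!
The second loop: `y + 1/y = 2 - 4 β² cos² ψ`, `x + 1/x = 4 B² - 2`, `B = √(d(ψ)) sin ψ / 2`.
-/

namespace Pool.Agent.P8H1.CG

open Real Set Filter Topology MeasureTheory
open Pool.Agent.P8H1.EK (Gz Gz_neg continuous_Gz)

/-- the function `(√(1 - B²) + i B)²` -/
noncomputable def PB (B : ℂ) : ℂ := (cs (1 - B ^ 2) + B * Complex.I) ^ 2

theorem PB_mul {B : ℂ} (h : 1 - B ^ 2 ≠ 0) : PB B * (cs (1 - B ^ 2) - B * Complex.I) ^ 2 = 1 := by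
  have h1 := cs_sq h
  unfold PB
  rw [← mul_pow]
  have h2 : (cs (1 - B ^ 2) + B * Complex.I) * (cs (1 - B ^ 2) - B * Complex.I) = 1 := by
    linear_combination h1 - B ^ 2 * Complex.I_sq
  rw [h2, one_pow]

theorem PB_ne {B : ℂ} (h : 1 - B ^ 2 ≠ 0) : PB B ≠ 0 :=
  left_ne_zero_of_mul (by rw [PB_mul h]; exact one_ne_zero)

theorem PB_add {B : ℂ} (h : 1 - B ^ 2 ≠ 0) : PB B + (PB B)⁻¹ = 2 - 4 * B ^ 2 := by
  rw [inv_eq_of_mul_eq_one_right (PB_mul h)]
  have h1 := cs_sq h
  unfold PB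
  linear_combination 2 * h1 + 2 * B ^ 2 * Complex.I_sq

theorem PB_real {x : ℝ} (h : |x| < 1) : PB (x : ℂ) = Complex.exp ((2 * Real.arcsin x : ℝ) * Complex.I) := by
  rw [abs_lt] at h
  have h0 : 0 < 1 - x ^ 2 := by nlinarith
  have h1 : (((2 * Real.arcsin x : ℝ) : ℂ)) * Complex.I =
      ((2 : ℕ) : ℂ) * (((Real.arcsin x : ℝ) : ℂ) * Complex.I) := by
    push_cast
    ring
  rw [h1, Complex.exp_nat_mul, Complex.exp_mul_I, ← Complex.ofReal_cos, ← Complex.ofReal_sin,
    Real.sin_arcsin h.1.le h.2.le, Real.cos_arcsin]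
  unfold PB
  have h2 : (1 : ℂ) - (x : ℂ) ^ 2 = ((1 - x ^ 2 : ℝ) : ℂ) := by
    push_cast
    rfl
  rw [h2, cs_real h0]

theorem PB_diff {f : ℂ → ℂ} {z : ℂ} (hf : DifferentiableAt ℂ f z)
    (h : 1 - f z ^ 2 ∈ Complex.slitPlane) : DifferentiableAt ℂ (fun z => PB (f z)) z := by
  unfold PB
  have h1 : DifferentiableAt ℂ (fun z => 1 - f z ^ 2) z := (hf.pow 2).const_sub 1
  exact ((cs_diff h1 h).add (hf.mul_const Complex.I)).pow 2

variable (k : ℝ)

/-- the larger zero of `v² - v - (k - 2)` -/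
noncomputable def vm : ℝ := (1 + √(4 * k - 7)) / 2

/-- the number `β` -/
noncomputable def bt : ℝ := √((2 - vm k) / 4)

/-- the number `y + 1/y` -/
noncomputable def V2 (z : ℂ) : ℂ := 2 - 4 * (bt k : ℂ) ^ 2 * Complex.cos z ^ 2

/-- the radicand -/
noncomputable def D2 (z : ℂ) : ℂ := (2 - (vm k : ℂ)) * (V2 k z - 1 + (vm k : ℂ))

/-- the function `B` -/
noncomputable def B2 (z : ℂ) : ℂ := cs (D2 k z) * Complex.sin z / 2

/-- the function `x` -/
noncomputable def P2 (z : ℂ) : ℂ := -PB (B2 k z)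

/-- the function `y` -/
noncomputable def Q2 (z : ℂ) : ℂ := PB ((bt k : ℂ) * Complex.cos z)

/-- the real radicand -/
noncomputable def d2 (s : ℝ) : ℝ := (2 - vm k) * (1 + vm k - 4 * bt k ^ 2 * Real.cos s ^ 2)

/-- the real function `B` -/
noncomputable def bb2 (s : ℝ) : ℝ := √(d2 k s) * Real.sin s / 2

/-- the angle of `x` -/
noncomputable def a2 (s : ℝ) : ℝ := π + 2 * Real.arcsin (bb2 k s)

/-- the angle of `y` -/
noncomputable def b2 (s : ℝ) : ℝ := 2 * Real.arcsin (bt k * Real.cos s)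

/-- the derivative of the angle of `x`, divided by `cos` -/
noncomputable def m2 (s : ℝ) : ℝ :=
  ((2 - vm k) * (4 * bt k ^ 2) * Real.sin s ^ 2 / √(d2 k s) + √(d2 k s)) / √(1 - bb2 k s ^ 2)

/-- the derivative of the angle of `y` -/
noncomputable def db2 (s : ℝ) : ℝ := -(2 * bt k * Real.sin s / √(1 - (bt k * Real.cos s) ^ 2))

section real

variable {k} (hk : 2 ≤ k) (hk' : k ≤ 3) (s : ℝ)

include hk

theorem vm_sq : vm k ^ 2 - vm k = k - 2 := by
  have h : √(4 * k - 7) ^ 2 = 4 * k - 7 := Real.sq_sqrt (by linarith)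
  unfold vm
  linear_combination 1 / 4 * h

theorem vm_ge : 1 ≤ vm k := by
  have h : 1 ≤ √(4 * k - 7) := by
    rw [Real.one_le_sqrt]
    linarith
  unfold vm
  linarith

include hk'

theorem vm_lt : vm k < 2 := by
  have h : √(4 * k - 7) < 3 := by
    rw [Real.sqrt_lt' (by norm_num)]
    linarith
  unfold vm
  linarith

theorem bt_sq : 4 * bt k ^ 2 = 2 - vm k := by
  unfold bt
  rw [Real.sq_sqrt (by have := vm_lt hk hk'; linarith)]
  ring

theorem bt_pos : 0 < bt k := by
  unfold bt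
  exact Real.sqrt_pos.2 (by have := vm_lt hk hk'; linarith)

theorem bt_lt : bt k < 1 := by
  have h1 := bt_sq hk hk'
  have h2 := vm_ge hk
  have h3 := bt_pos hk hk'
  nlinarith

theorem abs_bt : |bt k * Real.cos s| < 1 := by
  rw [abs_mul, abs_of_pos (bt_pos hk hk')]
  have h1 := Real.abs_cos_le_one s
  have h2 := bt_pos hk hk'
  have h3 := bt_lt hk hk'
  nlinarith [abs_nonneg (Real.cos s)]

theorem d2_pos : 0 < d2 k s := by
  have h1 := bt_sq hk hk'
  have h2 := vm_ge hk
  have h3 := vm_lt hk hk'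
  have h4 := Real.cos_sq_le_one s
  unfold d2
  rw [h1]
  apply mul_pos (by linarith)
  nlinarith

theorem d2_le : d2 k s ≤ 2 := by
  have h1 := bt_sq hk hk'
  have h2 := vm_ge hk
  have h3 := vm_lt hk hk'
  have h4 := vm_sq hk
  have h5 : 0 ≤ (2 - vm k) * (4 * bt k ^ 2 * Real.cos s ^ 2) :=
    mul_nonneg (by linarith) (by positivity)
  unfold d2
  nlinarith

theorem bb2_sq : 4 * bb2 k s ^ 2 = d2 k s * Real.sin s ^ 2 := by
  have h1 : √(d2 k s) ^ 2 = d2 k s := Real.sq_sqrt (d2_pos hk hk' s).le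
  unfold bb2
  linear_combination (Real.sin s ^ 2) * h1

theorem bb2_lt : bb2 k s ^ 2 < 1 := by
  have h1 := bb2_sq hk hk' s
  have h2 := d2_le hk hk' s
  have h3 := d2_pos hk hk' s
  have h4 := Real.sin_sq_le_one s
  have h5 : 0 ≤ Real.sin s ^ 2 := sq_nonneg _
  nlinarith

theorem abs_bb2 : |bb2 k s| < 1 := by
  have := bb2_lt hk hk' s
  rw [← sq_abs] at this
  have h2 := abs_nonneg (bb2 k s)
  nlinarith

theorem m2_pos : 0 < m2 k s := by
  have h1 := d2_pos hk hk' s
  have h2 := Real.sqrt_pos.2 h1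
  have h3 := bb2_lt hk hk' s
  have h4 : 0 < √(1 - bb2 k s ^ 2) := Real.sqrt_pos.2 (by linarith)
  have h5 := vm_lt hk hk'
  have h6 : 0 ≤ (2 - vm k) * (4 * bt k ^ 2) * Real.sin s ^ 2 :=
    mul_nonneg (mul_nonneg (by linarith) (by positivity)) (by positivity)
  unfold m2
  positivity

theorem hd_a2 : HasDerivAt (a2 k) (m2 k s * Real.cos s) s := by
  have h1 := d2_pos hk hk' s
  have h2 := Real.sqrt_pos.2 h1
  have h3 := bb2_lt hk hk' s
  have h4 : 0 < √(1 - bb2 k s ^ 2) := Real.sqrt_pos.2 (by linarith)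
  have h5 := abs_bb2 hk hk' s
  rw [abs_lt] at h5
  have hd : HasDerivAt (d2 k) ((2 - vm k) * -(4 * bt k ^ 2 * (2 * Real.cos s * -Real.sin s))) s := by
    unfold d2
    have h6 := ((((Real.hasDerivAt_cos s).pow 2).const_mul (4 * bt k ^ 2)).const_sub
      (1 + vm k)).const_mul (2 - vm k)
    refine h6.congr_deriv ?_
    push_cast
    ring
  have hb : HasDerivAt (bb2 k)
      ((((2 - vm k) * -(4 * bt k ^ 2 * (2 * Real.cos s * -Real.sin s))) / (2 * √(d2 k s)) * Real.sin s +
        √(d2 k s) * Real.cos s) / 2) s := by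
    unfold bb2
    exact ((hd.sqrt h1.ne').mul (Real.hasDerivAt_sin s)).div_const 2
  have ha := ((((Real.hasDerivAt_arcsin (x := bb2 k s) (by linarith) (by linarith)).comp s hb)).const_mul
    2).const_add π
  unfold a2
  refine ha.congr_deriv ?_
  unfold m2
  field_simp

theorem hd_b2 : HasDerivAt (b2 k) (db2 k s) s := by
  have h5 := abs_bt hk hk' s
  rw [abs_lt] at h5
  have h3 : 0 < 1 - (bt k * Real.cos s) ^ 2 := by nlinarith
  have h4 := Real.sqrt_pos.2 h3
  have ha := ((Real.hasDerivAt_arcsin (x := bt k * Real.cos s) (by linarith) (by linarith)).comp s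
    ((Real.hasDerivAt_cos s).const_mul (bt k))).const_mul 2
  unfold b2
  refine ha.congr_deriv ?_
  unfold db2
  field_simp

omit hk hk' in
theorem D2_real : D2 k (s : ℂ) = ((d2 k s : ℝ) : ℂ) := by
  unfold D2 V2 d2
  push_cast
  ring

theorem B2_real : B2 k (s : ℂ) = ((bb2 k s : ℝ) : ℂ) := by
  unfold B2 bb2
  rw [D2_real, cs_real (d2_pos hk hk' s)]
  push_cast
  ring

theorem P2_real : P2 k (s : ℂ) = Complex.exp (a2 k s * Complex.I) := by
  unfold P2 a2
  rw [B2_real hk hk', PB_real (abs_bb2 hk hk' s)]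
  rw [Complex.ofReal_add, add_mul, Complex.exp_add, Complex.exp_pi_mul_I]
  ring

theorem Q2_real : Q2 k (s : ℂ) = Complex.exp (b2 k s * Complex.I) := by
  unfold Q2 b2
  rw [← PB_real (abs_bt hk hk' s)]
  congr 1
  push_cast
  ring

theorem cos_b2 : 2 * Real.cos (b2 k s) = 2 - 4 * bt k ^ 2 * Real.cos s ^ 2 := by
  have h5 := abs_bt hk hk' s
  rw [abs_lt] at h5
  unfold b2
  rw [Real.cos_two_mul, Real.cos_sq', Real.sin_arcsin h5.1.le h5.2.le]
  ring

theorem cos_a2 : 2 * Real.cos (a2 k s) = 4 * bb2 k s ^ 2 - 2 := by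
  have h5 := abs_bb2 hk hk' s
  rw [abs_lt] at h5
  unfold a2
  rw [add_comm, Real.cos_add_pi, Real.cos_two_mul, Real.cos_sq', Real.sin_arcsin h5.1.le h5.2.le]
  ring

/-- the key relation -/
theorem four_B2 (z : ℂ) (h : D2 k z ≠ 0) : 4 * B2 k z ^ 2 = V2 k z ^ 2 - V2 k z - (k - 2) := by
  have h1 := cs_sq h
  have h2 : (4 : ℂ) * (bt k : ℂ) ^ 2 = 2 - (vm k : ℂ) := by exact_mod_cast bt_sq hk hk'
  have h3 : (vm k : ℂ) ^ 2 - (vm k : ℂ) = (k : ℂ) - 2 := by exact_mod_cast vm_sq hk
  have h4 := Complex.sin_sq_add_cos_sq z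
  have h5 : D2 k z = (2 - (vm k : ℂ)) * (V2 k z - 1 + (vm k : ℂ)) := rfl
  have h6 : V2 k z - (vm k : ℂ) = (2 - (vm k : ℂ)) * Complex.sin z ^ 2 := by
    unfold V2
    linear_combination (-Complex.cos z ^ 2) * h2 - (2 - (vm k : ℂ)) * h4
  unfold B2
  linear_combination (Complex.sin z ^ 2) * h1 + (Complex.sin z ^ 2) * h5 - h3 -
    (V2 k z - 1 + (vm k : ℂ)) * h6

theorem exists_L2 : ∃ L : Lo k {((-2 : ℝ) : ℂ), ((2 - k : ℝ) : ℂ)},
    (∀ s : ℝ, L.P s = Complex.exp (a2 k s * Complex.I)) ∧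
    ∀ s : ℝ, L.Q s = Complex.exp (b2 k s * Complex.I) := by
  have dV : ∀ z, DifferentiableAt ℂ (V2 k) z := fun z => by
    unfold V2
    exact ((Complex.differentiable_cos.differentiableAt.pow 2).const_mul _).const_sub _
  have dD : ∀ z, DifferentiableAt ℂ (D2 k) z := fun z => by
    unfold D2
    exact (((dV z).sub_const 1).add_const _).const_mul _
  have pV : ∀ z, V2 k (z + 2 * π) = V2 k z := fun z => by
    unfold V2
    rw [Complex.cos_add_two_pi]
  have pD : ∀ z, D2 k (z + 2 * π) = D2 k z := fun z => by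
    unfold D2
    rw [pV]
  have pB : ∀ z, B2 k (z + 2 * π) = B2 k z := fun z => by
    unfold B2
    rw [pD, Complex.sin_add_two_pi]
  obtain ⟨wa, wa0, wa1, hwa⟩ := exists_w Complex.isOpen_slitPlane (f := D2 k) one_pos
    (fun z _ => (dD z).continuousAt) pD
    (fun s => by
      rw [D2_real]
      exact Complex.ofReal_mem_slitPlane.2 (d2_pos hk hk' s))
  have dB : ∀ z : ℂ, |z.im| < wa → DifferentiableAt ℂ (B2 k) z := fun z hz => by
    unfold B2
    exact ((cs_diff (dD z) (hwa z hz)).mul Complex.differentiable_sin.differentiableAt).div_const 2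
  obtain ⟨wb, wb0, wb1, hwb⟩ := exists_w Complex.isOpen_slitPlane (f := fun z => 1 - B2 k z ^ 2) wa0
    (fun z hz => (((dB z hz).pow 2).const_sub 1).continuousAt) (fun z => by simp only [pB])
    (fun s => by
      have h1 := bb2_lt hk hk' s
      have h2 : 1 - B2 k (s : ℂ) ^ 2 = ((1 - bb2 k s ^ 2 : ℝ) : ℂ) := by
        rw [B2_real hk hk']
        push_cast
        rfl
      rw [h2]
      exact Complex.ofReal_mem_slitPlane.2 (by linarith))
  have dQ0 : ∀ z, DifferentiableAt ℂ (fun z => (bt k : ℂ) * Complex.cos z) z := fun z =>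
    Complex.differentiable_cos.differentiableAt.const_mul _
  obtain ⟨wc, wc0, wc1, hwc⟩ := exists_w Complex.isOpen_slitPlane
    (f := fun z => 1 - ((bt k : ℂ) * Complex.cos z) ^ 2) wb0
    (fun z hz => (((dQ0 z).pow 2).const_sub 1).continuousAt)
    (fun z => by simp only [Complex.cos_add_two_pi])
    (fun s => by
      have h1 := abs_bt hk hk' s
      rw [abs_lt] at h1
      have h2 : 1 - ((bt k : ℂ) * Complex.cos (s : ℂ)) ^ 2 =
          ((1 - (bt k * Real.cos s) ^ 2 : ℝ) : ℂ) := by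
        push_cast
        rfl
      rw [h2]
      exact Complex.ofReal_mem_slitPlane.2 (by nlinarith))
  obtain ⟨w, w0, w1, hw⟩ := exists_w (U := {z : ℂ | 0 < z.re})
    (isOpen_lt continuous_const Complex.continuous_re) (f := V2 k) wc0
    (fun z hz => (dV z).continuousAt) pV
    (fun s => by
      have h1 := bt_sq hk hk'
      have h2 := vm_ge hk
      have h3 := vm_lt hk hk'
      have h4 := Real.cos_sq_le_one s
      have h5 : V2 k (s : ℂ) = ((2 - 4 * bt k ^ 2 * Real.cos s ^ 2 : ℝ) : ℂ) := by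
        unfold V2
        push_cast
        rfl
      show 0 < (V2 k (s : ℂ)).re
      rw [h5, Complex.ofReal_re, h1]
      nlinarith)
  have ha : ∀ z : ℂ, |z.im| < w → D2 k z ∈ Complex.slitPlane := fun z hz =>
    hwa z (hz.trans_le (w1.trans (wc1.trans wb1)))
  have hb : ∀ z : ℂ, |z.im| < w → 1 - B2 k z ^ 2 ∈ Complex.slitPlane := fun z hz =>
    hwb z (hz.trans_le (w1.trans wc1))
  have hc : ∀ z : ℂ, |z.im| < w → 1 - ((bt k : ℂ) * Complex.cos z) ^ 2 ∈ Complex.slitPlane :=
    fun z hz => hwc z (hz.trans_le w1)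
  have hP : ∀ z : ℂ, |z.im| < w → P2 k z + (P2 k z)⁻¹ = 4 * B2 k z ^ 2 - 2 := by
    intro z hz
    have h1 := PB_add (Complex.slitPlane_ne_zero (hb z hz))
    unfold P2
    rw [inv_neg]
    linear_combination -h1
  have hQ : ∀ z : ℂ, |z.im| < w → Q2 k z + (Q2 k z)⁻¹ = V2 k z := by
    intro z hz
    have h1 := PB_add (Complex.slitPlane_ne_zero (hc z hz))
    unfold Q2 V2
    rw [h1]
    ring
  have hspec : ∀ z : ℂ, |z.im| < w → ∀ c ∈ ({((-2 : ℝ) : ℂ), ((2 - k : ℝ) : ℂ)} : Set ℂ),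
      P2 k z + (P2 k z)⁻¹ = c → Complex.sin z = 0 ∨ Complex.cos z = 0 := by
    intro z hz c hc h
    have h1 := four_B2 hk hk' z (Complex.slitPlane_ne_zero (ha z hz))
    rw [hP z hz] at h
    rcases hc with rfl | rfl
    · left
      have h2 : B2 k z ^ 2 = 0 := by
        push_cast at h
        linear_combination 1 / 4 * h
      have h3 : B2 k z = 0 := pow_eq_zero_iff (by norm_num) |>.1 h2
      unfold B2 at h3
      have h4 : cs (D2 k z) * Complex.sin z = 0 := by linear_combination 2 * h3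
      exact (mul_eq_zero.1 h4).resolve_left (cs_ne _)
    · right
      have h2 : (V2 k z - 2) * (V2 k z + 1) = 0 := by
        push_cast at h
        linear_combination h - h1
      have h3 : V2 k z + 1 ≠ 0 := by
        intro h4
        have h5 : 0 < (V2 k z).re := hw z hz
        have h6 : V2 k z = ((-1 : ℝ) : ℂ) := by
          push_cast
          linear_combination h4
        rw [h6, Complex.ofReal_re] at h5
        linarith
      have h4 := (mul_eq_zero.1 h2).resolve_right h3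
      unfold V2 at h4
      have h5 : (4 * (bt k : ℂ) ^ 2) * Complex.cos z ^ 2 = 0 := by linear_combination -h4
      have h6 : (4 : ℂ) * (bt k : ℂ) ^ 2 ≠ 0 := by
        have := (bt_pos hk hk').ne'
        have h7 : (bt k : ℂ) ≠ 0 := by exact_mod_cast this
        exact mul_ne_zero (by norm_num) (pow_ne_zero 2 h7)
      exact pow_eq_zero_iff (by norm_num) |>.1 ((mul_eq_zero.1 h5).resolve_left h6)
  refine ⟨
    { P := P2 k
      Q := Q2 k
      w := w
      w0 := w0
      dP := ?_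
      dQ := ?_
      nP := ?_
      nQ := ?_
      perP := ?_
      perQ := ?_
      rel := ?_
      uP := ?_
      uQ := ?_
      av := ?_
      ae := ?_ }, P2_real hk hk', Q2_real hk hk'⟩
  · intro z hz
    unfold P2
    exact (PB_diff (dB z (hz.trans_le (w1.trans (wc1.trans wb1)))) (hb z hz)).neg
  · intro z hz
    unfold Q2
    exact PB_diff (dQ0 z) (hc z hz)
  · intro z hz
    unfold P2
    exact neg_ne_zero.2 (PB_ne (Complex.slitPlane_ne_zero (hb z hz)))
  · intro z hz
    exact PB_ne (Complex.slitPlane_ne_zero (hc z hz))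
  · intro z
    unfold P2
    rw [pB]
  · intro z
    unfold Q2
    rw [Complex.cos_add_two_pi]
  · intro z hz
    have h1 := four_B2 hk hk' z (Complex.slitPlane_ne_zero (ha z hz))
    rw [hP z hz, hQ z hz]
    linear_combination h1
  · intro t
    rw [P2_real hk hk']
    exact Complex.norm_exp_ofReal_mul_I _
  · intro t
    rw [Q2_real hk hk']
    exact Complex.norm_exp_ofReal_mul_I _
  · intro z hz hz' c hc h
    rcases hspec z (by rwa [abs_of_pos hz]) c hc h with h1 | h1
    · rw [Complex.sin_eq_zero_iff] at h1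
      obtain ⟨n, hn⟩ := h1
      rw [hn] at hz
      simp at hz
    · rw [Complex.cos_eq_zero_iff] at h1
      obtain ⟨n, hn⟩ := h1
      have h2 : z = (((2 * n + 1) * π / 2 : ℝ) : ℂ) := by
        rw [hn]
        push_cast
        rfl
      rw [h2, Complex.ofReal_im] at hz
      exact lt_irrefl _ hz
  · intro c hc
    filter_upwards [(countable_cos' 1).ae_notMem volume, (countable_cos' (-1)).ae_notMem volume,
      (countable_cos' 0).ae_notMem volume] with t t1 t2 t3 h
    rcases hspec ((2 * π * t : ℝ) : ℂ) (by rw [Complex.ofReal_im, abs_zero]; exact w0) c hc h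
      with h1 | h1
    · rw [← Complex.ofReal_sin] at h1
      have h2 : Real.sin (2 * π * t) = 0 := by exact_mod_cast h1
      rw [Real.sin_eq_zero_iff_cos_eq] at h2
      rcases h2 with h2 | h2
      · exact t1 h2
      · exact t2 h2
    · rw [← Complex.ofReal_cos] at h1
      have h2 : Real.cos (2 * π * t) = 0 := by exact_mod_cast h1
      exact t3 h2

end real

end Pool.Agent.P8H1.CG
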