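import Pool.Agent.P8H1.CG.Lo2
import Pool.Agent.P8H1.CG.Fac
set_option autoImplicit false

/-!
The limit of the regulators of the loops as an integral over a real loop; a compactness lemma.
-/

namespace Pool.Agent.P8H1.CG

open Real Set Filter Topology MeasureTheory
open Pool.Agent.N65.TK (D Dc)
open Pool.Agent.P8H1.EK (ps ps_smooth hd_ps contAt_D D_le ne_one_of ps_zero Gz Gz_neg continuous_Gz)

/-- the integrand on a real loop -/
noncomputable def qq (z z1 z2 : ℂ) (a b a' b' : ℝ → ℝ) (s : ℝ) : ℝ :=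
  Gz z (a s) * b' s + (Gz z1 (b s) + Gz z2 (b s)) * a' s

section lim

variable {k : ℝ} {S : Set ℂ} (L : Lo k S)

theorem lgd_real {f : ℂ → ℂ} {s : ℝ} (hf : DifferentiableAt ℂ f s) {a : ℝ → ℝ} {a' : ℝ}
    (ha : HasDerivAt a a' s) (h : ∀ s : ℝ, f s = Complex.exp (a s * Complex.I)) :
    lgd f s = a' * Complex.I := by
  have h1 : HasDerivAt (fun s : ℝ => f s) (deriv f s) s := hf.hasDerivAt.comp_ofReal
  have h2 : HasDerivAt (fun s : ℝ => Complex.exp (a s * Complex.I))
      (Complex.exp (a s * Complex.I) * (a' * Complex.I)) s :=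
    (ha.ofReal_comp.mul_const Complex.I).cexp
  have h3 : (fun s : ℝ => f s) = fun s : ℝ => Complex.exp (a s * Complex.I) := funext h
  rw [h3] at h1
  have h4 := h1.unique h2
  unfold lgd
  rw [h4, h s, mul_div_cancel_left₀ _ (Complex.exp_ne_zero _)]

theorem Lo.lim {z z1 z2 : ℂ} {a b a' b' : ℝ → ℝ} (ha : ∀ s, HasDerivAt a (a' s) s)
    (hb : ∀ s, HasDerivAt b (b' s) s) (hP : ∀ s : ℝ, L.P s = Complex.exp (a s * Complex.I))
    (hQ : ∀ s : ℝ, L.Q s = Complex.exp (b s * Complex.I)) :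
    ∫ t in (0 : ℝ)..1, L.Me z z1 z2 0 t = ∫ s in (0 : ℝ)..(2 * π), qq z z1 z2 a b a' b' s := by
  have hw : ∀ s : ℝ, |((s : ℂ)).im| < L.w := by
    intro s
    rw [Complex.ofReal_im, abs_zero]
    exact L.w0
  have h1 : ∀ t : ℝ, L.Me z z1 z2 0 t = 2 * π * qq z z1 z2 a b a' b' (2 * π * t) := by
    intro t
    unfold Lo.Me Lo.X Lo.Y Lo.lx Lo.ly qq
    rw [ps_zero, lgd_real (L.dP _ (hw _)) (ha _) hP, lgd_real (L.dQ _ (hw _)) (hb _) hQ, hP, hQ,
      Complex.norm_exp_ofReal_mul_I, Real.log_one, zero_mul, zero_mul, add_zero]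
    have e1 : ∀ x : ℝ, (((2 * π : ℝ) : ℂ) * ((x : ℂ) * Complex.I)).im = 2 * π * x := by
      intro x
      rw [Complex.im_ofReal_mul, Complex.mul_im, Complex.I_re, Complex.I_im, Complex.ofReal_re]
      ring
    rw [e1, e1]
    unfold Gz
    ring
  simp only [h1]
  rw [intervalIntegral.integral_const_mul,
    intervalIntegral.mul_integral_comp_mul_left (f := qq z z1 z2 a b a' b'), mul_zero, mul_one]

end lim

/-- a periodic function with real values in an open set on the real axis -/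
theorem exists_w {U : Set ℂ} (hU : IsOpen U) {f : ℂ → ℂ} {w0 : ℝ} (h0 : 0 < w0)
    (hf : ∀ z : ℂ, |z.im| < w0 → ContinuousAt f z) (hper : ∀ z, f (z + 2 * π) = f z)
    (hr : ∀ s : ℝ, f s ∈ U) : ∃ w, 0 < w ∧ w ≤ w0 ∧ ∀ z : ℂ, |z.im| < w → f z ∈ U := by
  have hK : IsCompact ((fun s : ℝ => (s : ℂ)) '' Icc 0 (2 * π)) :=
    isCompact_Icc.image Complex.continuous_ofReal
  have hsub : (fun s : ℝ => (s : ℂ)) '' Icc 0 (2 * π) ⊆ interior (f ⁻¹' U) := by
    rintro z ⟨s, -, rfl⟩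
    rw [mem_interior_iff_mem_nhds]
    refine (hf s ?_).preimage_mem_nhds (hU.mem_nhds (hr s))
    rw [Complex.ofReal_im, abs_zero]
    exact h0
  obtain ⟨δ, hδ, hthick⟩ := hK.exists_thickening_subset_open isOpen_interior hsub
  have hpi := Real.pi_pos
  refine ⟨min δ w0, lt_min hδ h0, min_le_right _ _, fun z hz => ?_⟩
  have hper' : Function.Periodic f (2 * π) := hper
  obtain ⟨n, hn⟩ : ∃ n : ℤ, z.re - n * (2 * π) ∈ Icc 0 (2 * π) := by
    refine ⟨⌊z.re / (2 * π)⌋, ?_, ?_⟩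
    · have h1 := Int.floor_le (z.re / (2 * π))
      rw [le_div_iff₀ (by positivity)] at h1
      linarith
    · have h1 := (Int.lt_floor_add_one (z.re / (2 * π))).le
      rw [div_le_iff₀ (by positivity)] at h1
      linarith
  have h1 : f (z - n * (2 * π)) = f z := hper'.sub_int_mul_eq n
  rw [← h1]
  have h2 : z - n * (2 * π) ∈ interior (f ⁻¹' U) := by
    apply hthick
    rw [Metric.mem_thickening_iff]
    refine ⟨((z.re - n * (2 * π) : ℝ) : ℂ), ⟨_, hn, rfl⟩, ?_⟩
    rw [dist_eq_norm]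
    have h3 : z - n * (2 * π) - ((z.re - n * (2 * π) : ℝ) : ℂ) = (z.im : ℂ) * Complex.I := by
      apply Complex.ext <;> simp
    rw [h3, norm_mul, Complex.norm_I, mul_one, Complex.norm_real, Real.norm_eq_abs]
    exact hz.trans_le (min_le_left _ _)
  exact (interior_subset h2 : z - n * (2 * π) ∈ f ⁻¹' U)

theorem countable_cos' (c : ℝ) : {t : ℝ | Real.cos (2 * π * t) = c}.Countable := by
  refine ((Pool.Agent.P8H1.EK.countable_cos c).image fun t => 2 * t).mono ?_
  intro t ht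
  refine ⟨t / 2, ?_, by simp only; ring⟩
  show Real.cos (4 * π * (t / 2)) = c
  rw [show 4 * π * (t / 2) = 2 * π * t by ring]
  exact ht

end Pool.Agent.P8H1.CG
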