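import Pool.Agent.P8H1.EK.Sign
set_option autoImplicit false

/-!
Families of loops `t ↦ (P(2πt + ie), Q(2πt + ie))` on the curve `x + 1/x = v² - v - k`,
`v = y + 1/y`, and the limit of their regulators for `e → 0`.
-/

namespace Pool.Agent.P8H1.CG

open Real Set Filter Topology MeasureTheory
open Pool.Agent.N65.TK (D)
open Pool.Agent.P8H1.EK (ps ps_smooth hd_ps contAt_D D_le ne_one_of ps_zero)

/-- The numbers of one element. -/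
structure Cls (k : ℝ) (z z1 z2 : ℂ) : Prop where
  nz : ‖z‖ = 1
  n1 : ‖z1‖ = 1
  n2 : ‖z2‖ = 1
  rel : ∀ v : ℂ, v ^ 2 - v - k - (z + z⁻¹) = (v - (z1 + z1⁻¹)) * (v - (z2 + z2⁻¹))
  ne : z1 + z1⁻¹ ≠ z2 + z2⁻¹

/-- A family of loops. -/
structure Lo (k : ℝ) (S : Set ℂ) where
  /-- the function `x` -/
  P : ℂ → ℂ
  /-- the function `y` -/
  Q : ℂ → ℂ
  /-- the width -/
  w : ℝ
  w0 : 0 < w
  dP : ∀ z : ℂ, |z.im| < w → DifferentiableAt ℂ P z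
  dQ : ∀ z : ℂ, |z.im| < w → DifferentiableAt ℂ Q z
  nP : ∀ z : ℂ, |z.im| < w → P z ≠ 0
  nQ : ∀ z : ℂ, |z.im| < w → Q z ≠ 0
  perP : ∀ z, P (z + 2 * π) = P z
  perQ : ∀ z, Q (z + 2 * π) = Q z
  rel : ∀ z : ℂ, |z.im| < w → P z + (P z)⁻¹ = (Q z + (Q z)⁻¹) ^ 2 - (Q z + (Q z)⁻¹) - k
  uP : ∀ t : ℝ, ‖P t‖ = 1
  uQ : ∀ t : ℝ, ‖Q t‖ = 1
  av : ∀ z : ℂ, 0 < z.im → z.im < w → ∀ c ∈ S, P z + (P z)⁻¹ ≠ c
  ae : ∀ c ∈ S, ∀ᵐ t : ℝ, P ((2 * π * t : ℝ) : ℂ) + (P ((2 * π * t : ℝ) : ℂ))⁻¹ ≠ c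

/-- the logarithmic derivative -/
noncomputable def lgd (f : ℂ → ℂ) (z : ℂ) : ℂ := deriv f z / f z

section strip

/-- the strip -/
def strip (w : ℝ) : Set ℂ := {z | |z.im| < w}

theorem isOpen_strip (w : ℝ) : IsOpen (strip w) :=
  isOpen_lt (continuous_abs.comp Complex.continuous_im) continuous_const

theorem ps_im (e t : ℝ) : (ps e t).im = e := by
  unfold ps
  simp

theorem ps_mem {e w : ℝ} (he : |e| < w) (t : ℝ) : |(ps e t).im| < w := by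
  rw [ps_im]
  exact he

variable {f : ℂ → ℂ} {w : ℝ} (hf : ∀ z : ℂ, |z.im| < w → DifferentiableAt ℂ f z)

include hf

theorem diffOn : DifferentiableOn ℂ f (strip w) := fun z hz => (hf z hz).differentiableWithinAt

theorem deriv_diff {z : ℂ} (hz : |z.im| < w) : DifferentiableAt ℂ (deriv f) z :=
  ((diffOn hf).deriv (isOpen_strip w)).differentiableAt ((isOpen_strip w).mem_nhds hz)

theorem lgd_cont (hn : ∀ z : ℂ, |z.im| < w → f z ≠ 0) {z : ℂ} (hz : |z.im| < w) :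
    ContinuousAt (lgd f) z :=
  (deriv_diff hf hz).continuousAt.div₀ (hf z hz).continuousAt (hn z hz)

theorem comp_smooth {e : ℝ} (he : |e| < w) : ContDiff ℝ 2 fun t => f (ps e t) := by
  rw [contDiff_iff_contDiffAt]
  intro t
  have h1 : ContDiffAt ℂ 2 f (ps e t) :=
    ((diffOn hf).contDiffOn (isOpen_strip w)).contDiffAt ((isOpen_strip w).mem_nhds (ps_mem he t))
  exact (h1.restrict_scalars ℝ).comp t (ps_smooth e).contDiffAt

theorem comp_hd (hn : ∀ z : ℂ, |z.im| < w → f z ≠ 0) {e : ℝ} (he : |e| < w) (t : ℝ) :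
    HasDerivAt (fun t => f (ps e t)) (f (ps e t) * ((2 * π : ℝ) * lgd f (ps e t))) t := by
  have h1 := (hf _ (ps_mem he t)).hasDerivAt.comp t (hd_ps e t)
  refine h1.congr_deriv ?_
  unfold lgd
  have := hn _ (ps_mem he t)
  field_simp

/-- boundedness -/
theorem exists_bd {g : ℂ → ℂ} (hg : ∀ z : ℂ, |z.im| < w → ContinuousAt g z) (h0 : 0 < w) :
    ∃ M : ℝ, ∀ e t : ℝ, |e| ≤ w / 2 → t ∈ Icc (0 : ℝ) 1 → ‖g (ps e t)‖ ≤ M := by
  have hK : IsCompact ((fun p : ℝ × ℝ => ps p.1 p.2) '' (Icc (-(w / 2)) (w / 2) ×ˢ Icc (0 : ℝ) 1)) := by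
    refine (isCompact_Icc.prod isCompact_Icc).image ?_
    unfold ps
    fun_prop
  have hc : ContinuousOn g ((fun p : ℝ × ℝ => ps p.1 p.2) '' (Icc (-(w / 2)) (w / 2) ×ˢ Icc (0 : ℝ) 1)) := by
    rintro z ⟨⟨e, t⟩, ⟨he, ht⟩, rfl⟩
    refine (hg _ ?_).continuousWithinAt
    show |(ps e t).im| < w
    rw [ps_im]
    have h1 : |e| ≤ w / 2 := abs_le.2 ⟨he.1, he.2⟩
    linarith
  obtain ⟨M, hM⟩ := hK.exists_bound_of_continuousOn hc
  refine ⟨M, fun e t he ht => hM _ ⟨(e, t), ⟨abs_le.1 he, ht⟩, rfl⟩⟩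

end strip

section logs

theorem abs_log_le' {u M : ℝ} (h0 : 0 < u) (h1 : u ≤ M) (h2 : u⁻¹ ≤ M) : |Real.log u| ≤ M := by
  have h3 := Real.log_le_sub_one_of_pos h0
  have h4 := Real.one_sub_inv_le_log_of_pos h0
  rw [abs_le]
  constructor <;> linarith

theorem sq_log_le' {u M : ℝ} (hM : 1 ≤ M) (h0 : 0 < u) (h2 : u⁻¹ ≤ M) :
    Real.log u ^ 2 ≤ M ^ 2 * (u - 1) ^ 2 := by
  have h3 := Real.log_le_sub_one_of_pos h0
  have h4 := Real.one_sub_inv_le_log_of_pos h0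
  have h5 : 1 - u⁻¹ = u⁻¹ * (u - 1) := by field_simp
  have h6 : |Real.log u| ≤ M * |u - 1| := by
    rcases le_total 1 u with h | h
    · rw [abs_of_nonneg (Real.log_nonneg h), abs_of_nonneg (by linarith)]
      nlinarith
    · rw [abs_of_nonpos (Real.log_nonpos h0.le h), abs_of_nonpos (by linarith)]
      rw [h5] at h4
      have h7 : u⁻¹ * (1 - u) ≤ M * (1 - u) := mul_le_mul_of_nonneg_right h2 (by linarith)
      linarith
  calc Real.log u ^ 2 = |Real.log u| ^ 2 := (sq_abs _).symm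
    _ ≤ (M * |u - 1|) ^ 2 := by gcongr
    _ = M ^ 2 * (u - 1) ^ 2 := by rw [mul_pow, sq_abs]

/-- lower bound of `x + 1/x - (z + 1/z)` -/
theorem sq_log_norm_le' {X z : ℂ} {M : ℝ} (hM : 1 ≤ M) (hX : X ≠ 0) (hz : ‖z‖ = 1) (h1 : ‖X‖ ≤ M)
    (h2 : ‖X⁻¹‖ ≤ M) : Real.log ‖X‖ ^ 2 ≤ M ^ 3 * ‖X + X⁻¹ - (z + z⁻¹)‖ := by
  have hz0 : z ≠ 0 := norm_ne_zero_iff.1 (by rw [hz]; exact one_ne_zero)
  have hX0 : 0 < ‖X‖ := norm_pos_iff.2 hX
  rw [norm_inv] at h2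
  have h3 := sq_log_le' hM hX0 h2
  have h4 : (X - z) * (X - z⁻¹) = X * (X + X⁻¹ - (z + z⁻¹)) := by
    field_simp
    ring
  have h5 : (‖X‖ - 1) ^ 2 ≤ ‖X - z‖ * ‖X - z⁻¹‖ := by
    have h6 := abs_norm_sub_norm_le X z
    have h7 := abs_norm_sub_norm_le X z⁻¹
    rw [norm_inv, hz, inv_one] at h7
    rw [hz] at h6
    rw [← sq_abs, sq]
    gcongr
  have h6 := congrArg norm h4
  rw [norm_mul, norm_mul] at h6
  have h7 : ‖X‖ * ‖X + X⁻¹ - (z + z⁻¹)‖ ≤ M * ‖X + X⁻¹ - (z + z⁻¹)‖ := by gcongr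
  have h8 : M ^ 2 * (‖X‖ - 1) ^ 2 ≤ M ^ 2 * (M * ‖X + X⁻¹ - (z + z⁻¹)‖) := by
    gcongr
    linarith
  calc Real.log ‖X‖ ^ 2 ≤ M ^ 2 * (‖X‖ - 1) ^ 2 := h3
    _ ≤ M ^ 2 * (M * ‖X + X⁻¹ - (z + z⁻¹)‖) := h8
    _ = M ^ 3 * ‖X + X⁻¹ - (z + z⁻¹)‖ := by ring

/-- one of two factors is small -/
theorem min_le {v a b : ℂ} (hab : a ≠ b) {A : ℝ} (h1 : A ≤ ‖v - a‖) (h2 : A ≤ ‖v - b‖) (h0 : 0 ≤ A) :
    A ≤ 2 / ‖a - b‖ * ‖(v - a) * (v - b)‖ := by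
  have hd : 0 < ‖a - b‖ := norm_pos_iff.2 (sub_ne_zero.2 hab)
  have h3 : ‖a - b‖ ≤ ‖v - a‖ + ‖v - b‖ := by
    have h4 : a - b = (v - b) - (v - a) := by ring
    rw [h4]
    refine (norm_sub_le _ _).trans ?_
    linarith
  rw [norm_mul, div_mul_eq_mul_div, le_div_iff₀ hd]
  rcases le_total ‖v - a‖ ‖v - b‖ with h | h
  · have h5 : ‖a - b‖ ≤ 2 * ‖v - b‖ := by linarith
    calc A * ‖a - b‖ ≤ ‖v - a‖ * (2 * ‖v - b‖) := by gcongr
      _ = 2 * (‖v - a‖ * ‖v - b‖) := by ring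
  · have h5 : ‖a - b‖ ≤ 2 * ‖v - a‖ := by linarith
    calc A * ‖a - b‖ ≤ ‖v - b‖ * (2 * ‖v - a‖) := by gcongr
      _ = 2 * (‖v - a‖ * ‖v - b‖) := by ring

end logs

variable {k : ℝ} {S : Set ℂ} (L : Lo k S)

/-- the coordinate `x` on the loop -/
noncomputable def Lo.X (e t : ℝ) : ℂ := L.P (ps e t)

/-- the coordinate `y` on the loop -/
noncomputable def Lo.Y (e t : ℝ) : ℂ := L.Q (ps e t)

/-- the logarithmic derivative of `x` -/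
noncomputable def Lo.lx (e t : ℝ) : ℂ := (2 * π : ℝ) * lgd L.P (ps e t)

/-- the logarithmic derivative of `y` -/
noncomputable def Lo.ly (e t : ℝ) : ℂ := (2 * π : ℝ) * lgd L.Q (ps e t)

/-- the integrand of the regulator on the loops -/
noncomputable def Lo.Me (z z1 z2 : ℂ) (e t : ℝ) : ℝ :=
  (D (z⁻¹ * L.X e t) + D (z * L.X e t)) * (L.ly e t).im +
    ((D (z1⁻¹ * L.Y e t) + D (z1 * L.Y e t)) + (D (z2⁻¹ * L.Y e t) + D (z2 * L.Y e t))) *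
      (L.lx e t).im +
    Real.log ‖L.X e t‖ * Real.log ‖L.Y e t‖ *
      ((L.X e t - (L.X e t)⁻¹) * L.lx e t / (L.X e t + (L.X e t)⁻¹ - (z + z⁻¹))).re

section basic

variable {e : ℝ} (he : |e| < L.w)
include he

theorem Lo.X_ne (t : ℝ) : L.X e t ≠ 0 := L.nP _ (ps_mem he t)

theorem Lo.Y_ne (t : ℝ) : L.Y e t ≠ 0 := L.nQ _ (ps_mem he t)

theorem Lo.X_smooth : ContDiff ℝ 2 (L.X e) := comp_smooth L.dP he

theorem Lo.Y_smooth : ContDiff ℝ 2 (L.Y e) := comp_smooth L.dQ he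

theorem Lo.hd_X (t : ℝ) : HasDerivAt (L.X e) (L.X e t * L.lx e t) t := comp_hd L.dP L.nP he t

theorem Lo.hd_Y (t : ℝ) : HasDerivAt (L.Y e) (L.Y e t * L.ly e t) t := comp_hd L.dQ L.nQ he t

theorem Lo.XY (t : ℝ) : L.X e t + (L.X e t)⁻¹ =
    (L.Y e t + (L.Y e t)⁻¹) ^ 2 - (L.Y e t + (L.Y e t)⁻¹) - k := L.rel _ (ps_mem he t)

theorem Lo.W {z z1 z2 : ℂ} (hc : Cls k z z1 z2) (t : ℝ) : L.X e t + (L.X e t)⁻¹ - (z + z⁻¹) =
    (L.Y e t + (L.Y e t)⁻¹ - (z1 + z1⁻¹)) * (L.Y e t + (L.Y e t)⁻¹ - (z2 + z2⁻¹)) := by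
  rw [L.XY he, hc.rel]

theorem Lo.cont_lx : Continuous (L.lx e) := by
  unfold Lo.lx
  refine continuous_const.mul (continuous_iff_continuousAt.2 fun t => ?_)
  exact ContinuousAt.comp (g := lgd L.P) (lgd_cont L.dP L.nP (ps_mem he t))
    (ps_smooth e).continuous.continuousAt

theorem Lo.cont_ly : Continuous (L.ly e) := by
  unfold Lo.ly
  refine continuous_const.mul (continuous_iff_continuousAt.2 fun t => ?_)
  exact ContinuousAt.comp (g := lgd L.Q) (lgd_cont L.dQ L.nQ (ps_mem he t))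
    (ps_smooth e).continuous.continuousAt

end basic

theorem Lo.X_per (e t : ℝ) : L.X e (t + 1) = L.X e t := by
  unfold Lo.X
  have : ps e (t + 1) = ps e t + 2 * π := by
    unfold ps
    push_cast
    ring
  rw [this, L.perP]

theorem Lo.Y_per (e t : ℝ) : L.Y e (t + 1) = L.Y e t := by
  unfold Lo.Y
  have : ps e (t + 1) = ps e t + 2 * π := by
    unfold ps
    push_cast
    ring
  rw [this, L.perQ]

theorem Lo.W_ne {e : ℝ} (h0 : 0 < e) (he : e < L.w) {c : ℂ} (hc : c ∈ S) (t : ℝ) :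
    L.X e t + (L.X e t)⁻¹ - c ≠ 0 := by
  refine sub_ne_zero.2 (L.av _ ?_ ?_ c hc)
  · rw [ps_im]
    exact h0
  · rw [ps_im]
    exact he

section bound

variable {z z1 z2 : ℂ} (hc : Cls k z z1 z2)
include hc

/-- the integrand is bounded -/
theorem Lo.Me_le : ∃ B : ℝ, ∀ e t : ℝ, |e| ≤ L.w / 2 → t ∈ Icc (0 : ℝ) 1 →
    |L.Me z z1 z2 e t| ≤ B := by
  have hw := L.w0
  have cP : ∀ z : ℂ, |z.im| < L.w → ContinuousAt L.P z := fun z hz => (L.dP z hz).continuousAt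
  have cQ : ∀ z : ℂ, |z.im| < L.w → ContinuousAt L.Q z := fun z hz => (L.dQ z hz).continuousAt
  obtain ⟨M1, h1⟩ := exists_bd L.dP cP hw
  obtain ⟨M2, h2⟩ := exists_bd L.dP (g := fun z => (L.P z)⁻¹)
    (fun z hz => (cP z hz).inv₀ (L.nP z hz)) hw
  obtain ⟨M3, h3⟩ := exists_bd L.dP cQ hw
  obtain ⟨M4, h4⟩ := exists_bd L.dP (g := fun z => (L.Q z)⁻¹)
    (fun z hz => (cQ z hz).inv₀ (L.nQ z hz)) hw
  obtain ⟨M5, h5⟩ := exists_bd L.dP (g := lgd L.P) (fun z hz => lgd_cont L.dP L.nP hz) hw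
  obtain ⟨M6, h6⟩ := exists_bd L.dP (g := lgd L.Q) (fun z hz => lgd_cont L.dQ L.nQ hz) hw
  set M := max 1 (max M1 (max M2 (max M3 (max M4 (max (2 * π * M5) (2 * π * M6)))))) with hM
  have m0 : 1 ≤ M := by simp [hM]
  have m1 : M1 ≤ M := by simp [hM]
  have m2 : M2 ≤ M := by simp [hM]
  have m3 : M3 ≤ M := by simp [hM]
  have m4 : M4 ≤ M := by simp [hM]
  have m5 : 2 * π * M5 ≤ M := by simp [hM]
  have m6 : 2 * π * M6 ≤ M := by simp [hM]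
  set d := 2 / ‖z1 + z1⁻¹ - (z2 + z2⁻¹)‖ with hd
  have hd0 : 0 ≤ d := by positivity
  refine ⟨24 * M * M + 48 * M * M + (M ^ 3 + M ^ 3 * d) * (2 * M * M), fun e t he ht => ?_⟩
  have hM0 : 0 < M := by linarith
  have hel : |e| < L.w := by linarith
  have hX0 := L.X_ne hel t
  have hY0 := L.Y_ne hel t
  have hX1 : ‖L.X e t‖ ≤ M := (h1 e t he ht).trans m1
  have hX2 : ‖(L.X e t)⁻¹‖ ≤ M := (h2 e t he ht).trans m2
  have hY1 : ‖L.Y e t‖ ≤ M := (h3 e t he ht).trans m3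
  have hY2 : ‖(L.Y e t)⁻¹‖ ≤ M := (h4 e t he ht).trans m4
  have hlx : ‖L.lx e t‖ ≤ M := by
    unfold Lo.lx
    rw [norm_mul, Complex.norm_real, Real.norm_of_nonneg (by positivity)]
    have := h5 e t he ht
    have hpi := Real.pi_pos
    have h7 : 2 * π * ‖lgd L.P (ps e t)‖ ≤ 2 * π * M5 := by gcongr
    linarith
  have hly : ‖L.ly e t‖ ≤ M := by
    unfold Lo.ly
    rw [norm_mul, Complex.norm_real, Real.norm_of_nonneg (by positivity)]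
    have := h6 e t he ht
    have hpi := Real.pi_pos
    have h7 : 2 * π * ‖lgd L.Q (ps e t)‖ ≤ 2 * π * M6 := by gcongr
    linarith
  have hWe := L.W hel hc t
  set X := L.X e t with hX
  set Y := L.Y e t with hY
  have hD : ∀ {c u : ℂ}, ‖c‖ = 1 → u ≠ 0 → ‖u‖ ≤ M → ‖u⁻¹‖ ≤ M → |D (c * u)| ≤ 12 * M := by
    intro c u hc hu0 hu1 hu2
    have h1 : ‖c * u‖ = ‖u‖ := by rw [norm_mul, hc, one_mul]
    exact D_le (u := c * u) (M := M) (by rwa [h1])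
      (by rw [h1]; exact abs_log_le' (norm_pos_iff.2 hu0) hu1 (by rwa [norm_inv] at hu2))
  have hinv : ∀ {c : ℂ}, ‖c‖ = 1 → ‖c⁻¹‖ = 1 := fun {c} h => by rw [norm_inv, h, inv_one]
  have d1 := hD (hinv hc.nz) hX0 hX1 hX2
  have d2 := hD hc.nz hX0 hX1 hX2
  have d3 := hD (hinv hc.n1) hY0 hY1 hY2
  have d4 := hD hc.n1 hY0 hY1 hY2
  have d5 := hD (hinv hc.n2) hY0 hY1 hY2
  have d6 := hD hc.n2 hY0 hY1 hY2
  have t1 : |(D (z⁻¹ * X) + D (z * X)) * (L.ly e t).im| ≤ 24 * M * M := by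
    rw [abs_mul]
    have h1 := (abs_add_le (D (z⁻¹ * X)) (D (z * X))).trans (add_le_add d1 d2)
    have h2 := (Complex.abs_im_le_norm (L.ly e t)).trans hly
    have h3 : |D (z⁻¹ * X) + D (z * X)| * |(L.ly e t).im| ≤ (12 * M + 12 * M) * M := by gcongr
    linarith
  have t2 : |((D (z1⁻¹ * Y) + D (z1 * Y)) + (D (z2⁻¹ * Y) + D (z2 * Y))) * (L.lx e t).im| ≤
      48 * M * M := by
    rw [abs_mul]
    have h1 := (abs_add_le (D (z1⁻¹ * Y)) (D (z1 * Y))).trans (add_le_add d3 d4)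
    have h1' := (abs_add_le (D (z2⁻¹ * Y)) (D (z2 * Y))).trans (add_le_add d5 d6)
    have h1'' := (abs_add_le (D (z1⁻¹ * Y) + D (z1 * Y)) (D (z2⁻¹ * Y) + D (z2 * Y))).trans
      (add_le_add h1 h1')
    have h2 := (Complex.abs_im_le_norm (L.lx e t)).trans hlx
    have h3 : |D (z1⁻¹ * Y) + D (z1 * Y) + (D (z2⁻¹ * Y) + D (z2 * Y))| * |(L.lx e t).im| ≤
      (12 * M + 12 * M + (12 * M + 12 * M)) * M := by gcongr
    linarith
  set W := X + X⁻¹ - (z + z⁻¹) with hWd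
  have t3 : |Real.log ‖X‖ * Real.log ‖Y‖ * ((X - X⁻¹) * L.lx e t / W).re| ≤
      (M ^ 3 + M ^ 3 * d) * (2 * M * M) := by
    have h1 := sq_log_norm_le' m0 hX0 hc.nz hX1 hX2
    have h2a := sq_log_norm_le' m0 hY0 hc.n1 hY1 hY2
    have h2b := sq_log_norm_le' m0 hY0 hc.n2 hY1 hY2
    have hM3 : 0 < M ^ 3 := by positivity
    have h2 : Real.log ‖Y‖ ^ 2 ≤ M ^ 3 * d * ‖W‖ := by
      have h3 := min_le (v := Y + Y⁻¹) hc.ne (A := Real.log ‖Y‖ ^ 2 / M ^ 3)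
        (by rw [div_le_iff₀ hM3]; linarith) (by rw [div_le_iff₀ hM3]; linarith) (by positivity)
      rw [← hWe, div_le_iff₀ hM3] at h3
      calc Real.log ‖Y‖ ^ 2 ≤ 2 / ‖z1 + z1⁻¹ - (z2 + z2⁻¹)‖ * ‖W‖ * M ^ 3 := h3
        _ = M ^ 3 * d * ‖W‖ := by rw [hd]; ring
    have h3 : |Real.log ‖X‖ * Real.log ‖Y‖| ≤ (M ^ 3 + M ^ 3 * d) * ‖W‖ := by
      rw [abs_mul]
      rw [← sq_abs] at h1 h2
      have h4 : 0 ≤ (M ^ 3 + M ^ 3 * d) * ‖W‖ := by positivity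
      nlinarith [sq_nonneg (|Real.log ‖X‖| - |Real.log ‖Y‖|)]
    rw [abs_mul]
    have h4 := Complex.abs_re_le_norm ((X - X⁻¹) * L.lx e t / W)
    rw [norm_div, norm_mul] at h4
    have h5 : ‖X - X⁻¹‖ ≤ 2 * M := by
      have := norm_sub_le X X⁻¹
      linarith
    by_cases hW0 : W = 0
    · rw [hW0, norm_zero, mul_zero] at h3
      have h6 : |Real.log ‖X‖ * Real.log ‖Y‖| = 0 := le_antisymm h3 (abs_nonneg _)
      rw [h6, zero_mul]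
      positivity
    · have hW1 : 0 < ‖W‖ := norm_pos_iff.2 hW0
      have h6 : |((X - X⁻¹) * L.lx e t / W).re| ≤ 2 * M * M / ‖W‖ := by
        refine h4.trans ?_
        gcongr
      calc |Real.log ‖X‖ * Real.log ‖Y‖| * |((X - X⁻¹) * L.lx e t / W).re| ≤
            ((M ^ 3 + M ^ 3 * d) * ‖W‖) * (2 * M * M / ‖W‖) := by gcongr
        _ = (M ^ 3 + M ^ 3 * d) * (2 * M * M) := by field_simp
  have h1 := abs_add_le ((D (z⁻¹ * X) + D (z * X)) * (L.ly e t).im +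
    ((D (z1⁻¹ * Y) + D (z1 * Y)) + (D (z2⁻¹ * Y) + D (z2 * Y))) * (L.lx e t).im)
    (Real.log ‖X‖ * Real.log ‖Y‖ * ((X - X⁻¹) * L.lx e t / W).re)
  have h2 := abs_add_le ((D (z⁻¹ * X) + D (z * X)) * (L.ly e t).im)
    (((D (z1⁻¹ * Y) + D (z1 * Y)) + (D (z2⁻¹ * Y) + D (z2 * Y))) * (L.lx e t).im)
  have h3 : L.Me z z1 z2 e t = (D (z⁻¹ * X) + D (z * X)) * (L.ly e t).im +
    ((D (z1⁻¹ * Y) + D (z1 * Y)) + (D (z2⁻¹ * Y) + D (z2 * Y))) * (L.lx e t).im +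
    Real.log ‖X‖ * Real.log ‖Y‖ * ((X - X⁻¹) * L.lx e t / W).re := rfl
  rw [h3]
  linarith

end bound

end Pool.Agent.P8H1.CG
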