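import Pool.Agent.P8H1.CG.Lo
set_option autoImplicit false

/-!
The limit of the regulators of the loops for `e → 0`.
-/

namespace Pool.Agent.P8H1.CG

open Real Set Filter Topology MeasureTheory
open Pool.Agent.N65.TK (D)
open Pool.Agent.P8H1.EK (ps ps_smooth hd_ps contAt_D D_le ne_one_of ps_zero)

variable {k : ℝ} {S : Set ℂ} (L : Lo k S) {z z1 z2 : ℂ} (hc : Cls k z z1 z2)

theorem cont_ps (t : ℝ) : Continuous fun e : ℝ => ps e t := by
  unfold ps
  fun_prop

theorem ne_zero_of {z : ℂ} (h : ‖z‖ = 1) : z ≠ 0 :=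
  norm_ne_zero_iff.1 (by rw [h]; exact one_ne_zero)

section
include hc

theorem W_split {e t : ℝ} (he : |e| < L.w) (hW : L.X e t + (L.X e t)⁻¹ - (z + z⁻¹) ≠ 0) :
    L.Y e t + (L.Y e t)⁻¹ - (z1 + z1⁻¹) ≠ 0 ∧ L.Y e t + (L.Y e t)⁻¹ - (z2 + z2⁻¹) ≠ 0 := by
  rw [L.W he hc] at hW
  exact ⟨left_ne_zero_of_mul hW, right_ne_zero_of_mul hW⟩

theorem Lo.cont_Me {t : ℝ} (hW : L.X 0 t + (L.X 0 t)⁻¹ - (z + z⁻¹) ≠ 0) :
    ContinuousAt (fun e => L.Me z z1 z2 e t) 0 := by
  have h0 : |(0 : ℝ)| < L.w := by rw [abs_zero]; exact L.w0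
  have hX0 := L.X_ne h0 t
  have hY0 := L.Y_ne h0 t
  have hz0 := ne_zero_of hc.nz
  have hz1 := ne_zero_of hc.n1
  have hz2 := ne_zero_of hc.n2
  obtain ⟨w1, w2⟩ := W_split L hc h0 hW
  obtain ⟨x1, x2⟩ := ne_one_of hz0 hW
  obtain ⟨y1, y2⟩ := ne_one_of hz1 w1
  obtain ⟨y3, y4⟩ := ne_one_of hz2 w2
  have hm : |(ps 0 t).im| < L.w := ps_mem h0 t
  have cps := (cont_ps t).continuousAt (x := 0)
  have cX : ContinuousAt (fun e => L.X e t) 0 :=
    ContinuousAt.comp (g := L.P) (f := fun e => ps e t) (L.dP _ hm).continuousAt cps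
  have cY : ContinuousAt (fun e => L.Y e t) 0 :=
    ContinuousAt.comp (g := L.Q) (f := fun e => ps e t) (L.dQ _ hm).continuousAt cps
  have clx : ContinuousAt (fun e => L.lx e t) 0 := by
    unfold Lo.lx
    exact continuousAt_const.mul
      (ContinuousAt.comp (g := lgd L.P) (f := fun e => ps e t) (lgd_cont L.dP L.nP hm) cps)
  have cly : ContinuousAt (fun e => L.ly e t) 0 := by
    unfold Lo.ly
    exact continuousAt_const.mul
      (ContinuousAt.comp (g := lgd L.Q) (f := fun e => ps e t) (lgd_cont L.dQ L.nQ hm) cps)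
  have cD : ∀ {c : ℂ} {f : ℝ → ℂ}, c ≠ 0 → ContinuousAt f 0 → f 0 ≠ 0 → c * f 0 ≠ 1 →
      ContinuousAt (fun e => D (c * f e)) 0 := by
    intro c f hc hf hf0 hf1
    exact ContinuousAt.comp (g := D) (contAt_D (mul_ne_zero hc hf0) hf1) (continuousAt_const.mul hf)
  have cim : ∀ {f : ℝ → ℂ}, ContinuousAt f 0 → ContinuousAt (fun e => (f e).im) 0 :=
    fun hf => Complex.continuous_im.continuousAt.comp hf
  have cln : ∀ {f : ℝ → ℂ}, ContinuousAt f 0 → f 0 ≠ 0 →
      ContinuousAt (fun e => Real.log ‖f e‖) 0 :=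
    fun hf h => hf.norm.log (norm_ne_zero_iff.2 h)
  have c3 : ContinuousAt (fun e => ((L.X e t - (L.X e t)⁻¹) * L.lx e t /
      (L.X e t + (L.X e t)⁻¹ - (z + z⁻¹))).re) 0 :=
    Complex.continuous_re.continuousAt.comp (ContinuousAt.div₀ ((cX.sub (cX.inv₀ hX0)).mul clx)
      ((cX.add (cX.inv₀ hX0)).sub continuousAt_const) hW)
  unfold Lo.Me
  exact (((((cD (inv_ne_zero hz0) cX hX0 x1).add (cD hz0 cX hX0 x2)).mul (cim cly))).add
    ((((cD (inv_ne_zero hz1) cY hY0 y1).add (cD hz1 cY hY0 y2)).add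
      ((cD (inv_ne_zero hz2) cY hY0 y3).add (cD hz2 cY hY0 y4))).mul (cim clx))).add
    (((cln cX hX0).mul (cln cY hY0)).mul c3)

theorem Lo.cont_Me_t {e : ℝ} (he : |e| < L.w)
    (hW : ∀ t, L.X e t + (L.X e t)⁻¹ - (z + z⁻¹) ≠ 0) : Continuous (L.Me z z1 z2 e) := by
  have hz0 := ne_zero_of hc.nz
  have hz1 := ne_zero_of hc.n1
  have hz2 := ne_zero_of hc.n2
  have hX0 := L.X_ne he
  have hY0 := L.Y_ne he
  have cX := (L.X_smooth he).continuous
  have cY := (L.Y_smooth he).continuous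
  have clx := L.cont_lx he
  have cly := L.cont_ly he
  have cD : ∀ {c : ℂ} {f : ℝ → ℂ}, c ≠ 0 → Continuous f → (∀ t, f t ≠ 0) → (∀ t, c * f t ≠ 1) →
      Continuous (fun t => D (c * f t)) := by
    intro c f hc hf hf0 hf1
    rw [continuous_iff_continuousAt]
    intro t
    exact ContinuousAt.comp (g := D) (contAt_D (mul_ne_zero hc (hf0 t)) (hf1 t))
      (continuous_const.mul hf).continuousAt
  have cim : ∀ {f : ℝ → ℂ}, Continuous f → Continuous (fun e => (f e).im) :=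
    fun hf => Complex.continuous_im.comp hf
  have cln : ∀ {f : ℝ → ℂ}, Continuous f → (∀ t, f t ≠ 0) →
      Continuous (fun e => Real.log ‖f e‖) :=
    fun hf h => hf.norm.log fun t => norm_ne_zero_iff.2 (h t)
  have c3 : Continuous (fun t => ((L.X e t - (L.X e t)⁻¹) * L.lx e t /
      (L.X e t + (L.X e t)⁻¹ - (z + z⁻¹))).re) :=
    Complex.continuous_re.comp (((cX.sub (cX.inv₀ hX0)).mul clx).div
      ((cX.add (cX.inv₀ hX0)).sub continuous_const) hW)
  have w1 := fun t => (W_split L hc he (hW t)).1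
  have w2 := fun t => (W_split L hc he (hW t)).2
  unfold Lo.Me
  exact (((((cD (inv_ne_zero hz0) cX hX0 fun t => (ne_one_of hz0 (hW t)).1).add
    (cD hz0 cX hX0 fun t => (ne_one_of hz0 (hW t)).2)).mul (cim cly))).add
    ((((cD (inv_ne_zero hz1) cY hY0 fun t => (ne_one_of hz1 (w1 t)).1).add
    (cD hz1 cY hY0 fun t => (ne_one_of hz1 (w1 t)).2)).add
    ((cD (inv_ne_zero hz2) cY hY0 fun t => (ne_one_of hz2 (w2 t)).1).add
    (cD hz2 cY hY0 fun t => (ne_one_of hz2 (w2 t)).2))).mul (cim clx))).add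
    (((cln cX hX0).mul (cln cY hY0)).mul c3)

/-- the limit -/
theorem Lo.tendsto_Me (hS : z + z⁻¹ ∈ S) :
    Tendsto (fun e => ∫ t in (0 : ℝ)..1, L.Me z z1 z2 e t) (𝓝[>] 0)
      (𝓝 (∫ t in (0 : ℝ)..1, L.Me z z1 z2 0 t)) := by
  have hw := L.w0
  obtain ⟨B, hB⟩ := L.Me_le hc
  have hsmall : ∀ᶠ e : ℝ in 𝓝[>] 0, 0 < e ∧ e < L.w / 2 := by
    filter_upwards [self_mem_nhdsWithin, nhdsWithin_le_nhds (Iio_mem_nhds (half_pos hw))]
      with e h1 h2
    exact ⟨h1, h2⟩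
  refine intervalIntegral.tendsto_integral_filter_of_dominated_convergence
    (fun _ => B) ?_ ?_ intervalIntegrable_const ?_
  · filter_upwards [hsmall] with e he
    refine Continuous.aestronglyMeasurable (L.cont_Me_t hc ?_ fun t => ?_)
    · rw [abs_of_pos he.1]
      linarith [he.2]
    · exact L.W_ne he.1 (by linarith [he.2]) hS t
  · filter_upwards [hsmall] with e he
    refine Eventually.of_forall fun t ht => ?_
    rw [uIoc_of_le zero_le_one] at ht
    exact hB e t (by rw [abs_of_pos he.1]; linarith [he.2]) ⟨ht.1.le, ht.2⟩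
  · filter_upwards [L.ae _ hS] with t ht _
    refine (L.cont_Me hc ?_).tendsto.mono_left nhdsWithin_le_nhds
    rw [sub_ne_zero]
    unfold Lo.X
    rw [ps_zero]
    exact ht

end

end Pool.Agent.P8H1.CG
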