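import Pool.Agent.P8H1.CG.Defs
import Pool.Agent.P8H1.EK.Path
set_option autoImplicit false

/-!
Closed paths on the curve.
-/

namespace Pool.Agent.P8H1.CG

open Real Set Filter Topology
open Pool.Agent.N65.TK (Pt Path)
open Pool.Agent.P8H1.PD (LP mo)
open Pool.Agent.P8H1.EK (tr mono con ev ev_single ev_eq ev_smooth ev_mono ev_con)

variable {K : Type*} [Field K] {d r : ℕ} (C : Dat K d r) (σ : K →+* ℂ)

theorem ev_zero {X : Fin (r + 2) → ℂˣ}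
    (h1 : ∀ j : Fin r, (X 0 : ℂ) + (X 0 : ℂ)⁻¹ - σ (tr (C.z j)) = X j.succ.succ)
    (h2 : ∀ j : Fin r, ∏ i, ((X 1 : ℂ) + (X 1 : ℂ)⁻¹ - σ (tr (C.z' j i))) = X j.succ.succ)
    (P : LP K (r + 2)) (hP : P ∈ C.idl) : ev σ X P = 0 := by
  have h : C.idl ≤ RingHom.ker (ev σ X) := by
    unfold Dat.idl
    rw [Ideal.span_le]
    rintro Q ⟨j, rfl | rfl⟩
    · show ev σ X _ = 0
      rw [map_sub, map_sub, map_add, ev_mono, ev_mono, ev_mono, ev_con]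
      simp only [zpow_one, zpow_neg, Units.val_inv_eq_inv_val]
      rw [h1, sub_self]
    · show ev σ X _ = 0
      rw [map_sub, map_prod, ev_mono, zpow_one, ← h2, sub_eq_zero]
      refine Finset.prod_congr rfl fun i _ => ?_
      rw [map_sub, map_add, ev_mono, ev_mono, ev_con]
      simp only [zpow_one, zpow_neg, Units.val_inv_eq_inv_val]
  exact h hP

/-- The closed path given by the coordinates. -/
noncomputable def mkPath (X : ℝ → Fin (r + 2) → ℂˣ)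
    (h1 : ∀ t, ∀ j : Fin r, (X t 0 : ℂ) + (X t 0 : ℂ)⁻¹ - σ (tr (C.z j)) = X t j.succ.succ)
    (h2 : ∀ t, ∀ j : Fin r, ∏ i, ((X t 1 : ℂ) + (X t 1 : ℂ)⁻¹ - σ (tr (C.z' j i))) =
      X t j.succ.succ)
    (hs : ∀ l, ContDiff ℝ 2 fun t => (X t l : ℂ)) (hp : ∀ t, X (t + 1) = X t) : Path C.Crv where
  e t := Ideal.Quotient.lift C.idl (ev σ (X t)) (ev_zero C σ (h1 t) (h2 t))
  smooth h := by
    obtain ⟨P, rfl⟩ := Ideal.Quotient.mk_surjective h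
    exact ev_smooth σ hs P
  periodic t := by
    have h := hp t
    simp only [h] <;> rfl

variable {C}

theorem mkPath_mn (X : ℝ → Fin (r + 2) → ℂˣ)
    (h1 : ∀ t, ∀ j : Fin r, (X t 0 : ℂ) + (X t 0 : ℂ)⁻¹ - σ (tr (C.z j)) = X t j.succ.succ)
    (h2 : ∀ t, ∀ j : Fin r, ∏ i, ((X t 1 : ℂ) + (X t 1 : ℂ)⁻¹ - σ (tr (C.z' j i))) =
      X t j.succ.succ)
    (hs : ∀ l, ContDiff ℝ 2 fun t => (X t l : ℂ)) (hp : ∀ t, X (t + 1) = X t) (t : ℝ) (c : Kˣ)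
    (k : Fin (r + 2) → ℤ) : (mkPath C σ X h1 h2 hs hp).e t (C.mn c k) =
      σ c * ((∏ l, X t l ^ (k l) : ℂˣ) : ℂ) :=
  ev_single σ (X t) k c

theorem mkPath_cst (X : ℝ → Fin (r + 2) → ℂˣ)
    (h1 : ∀ t, ∀ j : Fin r, (X t 0 : ℂ) + (X t 0 : ℂ)⁻¹ - σ (tr (C.z j)) = X t j.succ.succ)
    (h2 : ∀ t, ∀ j : Fin r, ∏ i, ((X t 1 : ℂ) + (X t 1 : ℂ)⁻¹ - σ (tr (C.z' j i))) =
      X t j.succ.succ)
    (hs : ∀ l, ContDiff ℝ 2 fun t => (X t l : ℂ)) (hp : ∀ t, X (t + 1) = X t) (t : ℝ) (a : K) :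
    (mkPath C σ X h1 h2 hs hp).e t (C.cst a) = σ a :=
  ev_con σ (X t) a

theorem mkPath_single (X : ℝ → Fin (r + 2) → ℂˣ)
    (h1 : ∀ t, ∀ j : Fin r, (X t 0 : ℂ) + (X t 0 : ℂ)⁻¹ - σ (tr (C.z j)) = X t j.succ.succ)
    (h2 : ∀ t, ∀ j : Fin r, ∏ i, ((X t 1 : ℂ) + (X t 1 : ℂ)⁻¹ - σ (tr (C.z' j i))) =
      X t j.succ.succ)
    (hs : ∀ l, ContDiff ℝ 2 fun t => (X t l : ℂ)) (hp : ∀ t, X (t + 1) = X t) (t : ℝ) (c : Kˣ)
    (i : Fin (r + 2)) : (mkPath C σ X h1 h2 hs hp).e t (C.mn c (Pi.single i 1)) =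
      σ c * (X t i : ℂ) := by
  rw [mkPath_mn, Finset.prod_eq_single i]
  · rw [Pi.single_eq_same, zpow_one]
  · intro l _ hl
    rw [Pi.single_eq_of_ne hl, zpow_zero]
  · intro h
    exact absurd (Finset.mem_univ i) h

end Pool.Agent.P8H1.CG
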