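import Pool.Agent.P8H1.CG.Alg
import Pool.Agent.P8H1.CG.Path
import Pool.Agent.P8H1.KC.Reg
import Pool.Agent.N65.TK.Base
set_option autoImplicit false

/-!
The regulator of `xi j`.
-/

namespace Pool.Agent.P8H1.CG

open Real Set Filter Topology MeasureTheory
open Pool.Agent.N65.TK (Pt Path FS br D norm_root)
open Pool.Agent.P8H1.KC (ld_of ln_per)
open Pool.Agent.P8H1.EK (tr mono con)

variable {K : Type*} [Field K] {d r : ℕ} {C : Dat K d r} {G : Polynomial K}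
variable (hC : C.Admissible G) (γ : Path C.Crv) (j : Fin r) (t : ℝ)

theorem ln_mul_uc {c : Kˣ} (hc : ∃ N : ℕ, 0 < N ∧ c ^ N = 1) (f : C.Crvˣ) :
    γ.ln (C.uc c * f) t = γ.ln f t := by
  obtain ⟨N, hN, h⟩ := hc
  rw [γ.ln_mul, γ.ln_tors hN (f := C.uc c) (by rw [uc_pow, h, uc_one]), zero_add]

theorem ld_mul_uc {c : Kˣ} (hc : ∃ N : ℕ, 0 < N ∧ c ^ N = 1) (f : C.Crvˣ) :
    γ.ld (C.uc c * f) t = γ.ld f t := by
  obtain ⟨N, hN, h⟩ := hc
  rw [γ.ld_mul, γ.ld_tors hN (f := C.uc c) (by rw [uc_pow, h, uc_one]), zero_add]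

theorem inv_ex {c : Kˣ} (hc : ∃ N : ℕ, 0 < N ∧ c ^ N = 1) : ∃ N : ℕ, 0 < N ∧ c⁻¹ ^ N = 1 := by
  obtain ⟨N, hN, h⟩ := hc
  exact ⟨N, hN, by rw [inv_pow, h, inv_one]⟩

/-- the integrand of the regulator, up to an exact form -/
noncomputable def Mt (t : ℝ) : ℝ :=
  (D (γ.e t (C.px j).1) + D (γ.e t (C.qx j).1)) * (γ.ld C.cy t).im +
    (∑ i, (D (γ.e t (C.py j i).1) + D (γ.e t (C.qy j i).1))) * (γ.ld C.cx t).im +
    γ.ln C.cx t * γ.ln C.cy t * (γ.ld (C.cw j) t).re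

theorem ln_prod {ι : Type*} (s : Finset ι) (f : ι → C.Crvˣ) :
    γ.ln (∏ i ∈ s, f i) t = ∑ i ∈ s, γ.ln (f i) t := by
  classical
  induction s using Finset.induction_on with
  | empty => rw [Finset.prod_empty, Finset.sum_empty, γ.ln_one]
  | insert a s ha ih => rw [Finset.prod_insert ha, Finset.sum_insert ha, γ.ln_mul, ih]

theorem ld_prod {ι : Type*} (s : Finset ι) (f : ι → C.Crvˣ) :
    γ.ld (∏ i ∈ s, f i) t = ∑ i ∈ s, γ.ld (f i) t := by
  classical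
  induction s using Finset.induction_on with
  | empty => rw [Finset.prod_empty, Finset.sum_empty, γ.ld_one]
  | insert a s ha ih => rw [Finset.prod_insert ha, Finset.sum_insert ha, γ.ld_mul, ih]

include hC in
theorem sum_fx : γ.fr (C.px j) C.cy t + γ.fr (C.qx j) C.cy t =
    (D (γ.e t (C.px j).1) + D (γ.e t (C.qx j).1)) * (γ.ld C.cy t).im - 1 / 3 * γ.ln C.cy t *
      (γ.ln (C.cw j) t * (γ.ld C.cx t).re - γ.ln C.cx t * (γ.ld (C.cw j) t).re) := by
  have h1 := γ.ln_mul (C.px j).co (C.qx j).co t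
  rw [co_x, γ.ln_mul] at h1
  have h3 := congrArg Complex.re (γ.ld_mul (C.px j).co (C.qx j).co t)
  rw [co_x, γ.ld_mul, Complex.add_re, Complex.add_re] at h3
  have a1 : γ.ln (C.px j).1 t = γ.ln C.cx t := ln_mul_uc γ t (inv_ex (hC.tors j)) _
  have a2 : γ.ln (C.qx j).1 t = γ.ln C.cx t := ln_mul_uc γ t (hC.tors j) _
  have b1 : γ.ld (C.px j).1 t = γ.ld C.cx t := ld_mul_uc γ t (inv_ex (hC.tors j)) _
  have b2 : γ.ld (C.qx j).1 t = γ.ld C.cx t := ld_mul_uc γ t (hC.tors j) _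
  unfold Path.fr
  rw [a1, a2, b1, b2]
  linear_combination (1 / 3 * γ.ln C.cy t * (γ.ld C.cx t).re) * h1 -
    (1 / 3 * γ.ln C.cy t * γ.ln C.cx t) * h3

include hC in
theorem sum_fy (i : Fin d) : γ.fr (C.py j i) C.cx t + γ.fr (C.qy j i) C.cx t =
    (D (γ.e t (C.py j i).1) + D (γ.e t (C.qy j i).1)) * (γ.ld C.cx t).im - 1 / 3 * γ.ln C.cx t *
      (γ.ln (C.cv j i) t * (γ.ld C.cy t).re - γ.ln C.cy t * (γ.ld (C.cv j i) t).re) := by
  have h2 := γ.ln_mul (C.py j i).co (C.qy j i).co t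
  rw [co_y, γ.ln_mul] at h2
  have h4 := congrArg Complex.re (γ.ld_mul (C.py j i).co (C.qy j i).co t)
  rw [co_y, γ.ld_mul, Complex.add_re, Complex.add_re] at h4
  have a3 : γ.ln (C.py j i).1 t = γ.ln C.cy t := ln_mul_uc γ t (inv_ex (hC.tors' j i)) _
  have a4 : γ.ln (C.qy j i).1 t = γ.ln C.cy t := ln_mul_uc γ t (hC.tors' j i) _
  have b3 : γ.ld (C.py j i).1 t = γ.ld C.cy t := ld_mul_uc γ t (inv_ex (hC.tors' j i)) _
  have b4 : γ.ld (C.qy j i).1 t = γ.ld C.cy t := ld_mul_uc γ t (hC.tors' j i) _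
  unfold Path.fr
  rw [a3, a4, b3, b4]
  linear_combination (1 / 3 * γ.ln C.cx t * (γ.ld C.cy t).re) * h2 -
    (1 / 3 * γ.ln C.cx t * γ.ln C.cy t) * h4

include hC in
theorem sum_fr : γ.fr (C.px j) C.cy t + γ.fr (C.qx j) C.cy t +
    ∑ i, (γ.fr (C.py j i) C.cx t + γ.fr (C.qy j i) C.cx t) = Mt γ j t - 1 / 3 *
      ((γ.ld (C.cw j) t).re * γ.ln C.cx t * γ.ln C.cy t +
        γ.ln (C.cw j) t * (γ.ld C.cx t).re * γ.ln C.cy t +
        γ.ln (C.cw j) t * γ.ln C.cx t * (γ.ld C.cy t).re) := by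
  rw [sum_fx hC, Finset.sum_congr rfl fun i _ => sum_fy hC γ j t i]
  have h1 : ∑ i, γ.ln (C.cv j i) t = γ.ln (C.cw j) t := by rw [← ln_prod, prod_cv]
  have h2 : ∑ i, (γ.ld (C.cv j i) t).re = (γ.ld (C.cw j) t).re := by
    rw [← Complex.re_sum, ← ld_prod, prod_cv]
  unfold Mt
  rw [Finset.sum_sub_distrib, ← Finset.sum_mul, ← Finset.mul_sum, Finset.sum_sub_distrib,
    ← Finset.sum_mul, ← Finset.mul_sum, h1, h2]
  ring

include hC in
theorem reg_xi : γ.reg (C.xi j) = ∫ t in (0 : ℝ)..1, Mt γ j t := by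
  have i1 := γ.int_fr (C.px j) C.cy
  have i2 := γ.int_fr (C.qx j) C.cy
  have i3 : ∀ i, IntervalIntegrable (γ.fr (C.py j i) C.cx) volume 0 1 :=
    fun i => γ.int_fr (C.py j i) C.cx
  have i4 : ∀ i, IntervalIntegrable (γ.fr (C.qy j i) C.cx) volume 0 1 :=
    fun i => γ.int_fr (C.qy j i) C.cx
  have hd : ∀ t ∈ uIcc (0 : ℝ) 1, HasDerivAt (fun t => γ.ln (C.cw j) t * γ.ln C.cx t * γ.ln C.cy t)
      ((γ.ld (C.cw j) t).re * γ.ln C.cx t * γ.ln C.cy t +
        γ.ln (C.cw j) t * (γ.ld C.cx t).re * γ.ln C.cy t +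
        γ.ln (C.cw j) t * γ.ln C.cx t * (γ.ld C.cy t).re) t := by
    intro t _
    refine (((γ.hasDerivAt_ln (C.cw j) t).mul (γ.hasDerivAt_ln C.cx t)).mul
      (γ.hasDerivAt_ln C.cy t)).congr_deriv ?_
    simp only [Pi.mul_apply]
    ring
  have hcre : ∀ f : C.Crvˣ, Continuous fun t => (γ.ld f t).re := fun f =>
    Complex.continuous_re.comp (γ.cont_ld f)
  have hc : Continuous fun t => (γ.ld (C.cw j) t).re * γ.ln C.cx t * γ.ln C.cy t +
        γ.ln (C.cw j) t * (γ.ld C.cx t).re * γ.ln C.cy t +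
        γ.ln (C.cw j) t * γ.ln C.cx t * (γ.ld C.cy t).re :=
    ((((hcre _).mul (γ.cont_ln _)).mul (γ.cont_ln _)).add
      (((γ.cont_ln _).mul (hcre _)).mul (γ.cont_ln _))).add
      (((γ.cont_ln _).mul (γ.cont_ln _)).mul (hcre _))
  have h0 := intervalIntegral.integral_eq_sub_of_hasDerivAt hd (hc.intervalIntegrable _ _)
  rw [ln_per γ, ln_per γ, ln_per γ, sub_self] at h0
  have hreg : γ.reg (C.xi j) = ∫ t in (0 : ℝ)..1, (γ.fr (C.px j) C.cy t + γ.fr (C.qx j) C.cy t +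
      ∑ i, (γ.fr (C.py j i) C.cx t + γ.fr (C.qy j i) C.cx t)) := by
    have hs : IntervalIntegrable (fun t => ∑ i, (γ.fr (C.py j i) C.cx t + γ.fr (C.qy j i) C.cx t))
        volume 0 1 := by
      refine Continuous.intervalIntegrable ?_ _ _
      exact continuous_finset_sum _ fun i _ => (γ.cont_fr _ _).add (γ.cont_fr _ _)
    rw [intervalIntegral.integral_add (i1.add i2) hs, intervalIntegral.integral_add i1 i2,
      intervalIntegral.integral_finset_sum fun i _ => (i3 i).add (i4 i)]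
    unfold Dat.xi
    rw [map_add, map_add, map_sum, γ.reg_br, γ.reg_br]
    congr 1
    refine Finset.sum_congr rfl fun i _ => ?_
    rw [map_add, γ.reg_br, γ.reg_br, intervalIntegral.integral_add (i3 i) (i4 i)]
  rw [hreg]
  have h1 : (∫ t in (0 : ℝ)..1, (γ.fr (C.px j) C.cy t + γ.fr (C.qx j) C.cy t +
      ∑ i, (γ.fr (C.py j i) C.cx t + γ.fr (C.qy j i) C.cx t))) = ∫ t in (0 : ℝ)..1, (Mt γ j t - 1 / 3 *
      ((γ.ld (C.cw j) t).re * γ.ln C.cx t * γ.ln C.cy t +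
        γ.ln (C.cw j) t * (γ.ld C.cx t).re * γ.ln C.cy t +
        γ.ln (C.cw j) t * γ.ln C.cx t * (γ.ld C.cy t).re)) := by
    refine intervalIntegral.integral_congr fun t _ => ?_
    exact sum_fr hC γ j t
  have hcim : ∀ f : C.Crvˣ, Continuous fun t => (γ.ld f t).im := fun f =>
    Complex.continuous_im.comp (γ.cont_ld f)
  have hM : Continuous (Mt γ j) := by
    unfold Mt
    exact ((((γ.cont_D _).add (γ.cont_D _)).mul (hcim _)).add
      ((continuous_finset_sum _ fun i _ => (γ.cont_D (C.py j i)).add (γ.cont_D (C.qy j i))).mul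
        (hcim _))).add (((γ.cont_ln _).mul (γ.cont_ln _)).mul (hcre _))
  rw [h1, intervalIntegral.integral_sub (hM.intervalIntegrable _ _)
    ((hc.intervalIntegrable _ _).const_mul _), intervalIntegral.integral_const_mul, h0]
  ring

end Pool.Agent.P8H1.CG
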