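import Pool.Agent.P8H1.CG.Data
import Pool.Agent.P8H1.CG.Lo2
import Pool.Agent.P8H1.CG.Reg
set_option autoImplicit false

/-!
The closed paths given by the loops, and their regulators.
-/

namespace Pool.Agent.P8H1.CG

open Real Set Filter Topology MeasureTheory
open Pool.Agent.N65.TK (Pt Path FS br D norm_root)
open Pool.Agent.P8H1.KC (ld_of ln_per)
open Pool.Agent.P8H1.EK (tr mono con)

section cls

variable {K : Type*} [Field K] {C : Dat K 2 2} {κ : K} (σ : K →+* ℂ) {k : ℝ}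

theorem tr_map' (c : Kˣ) : σ (tr c) = σ (c : K) + (σ (c : K))⁻¹ := by
  unfold tr
  rw [map_add, Units.val_inv_eq_inv_val, map_inv₀]

theorem cls (hC : C.Admissible (GG κ)) (hk : σ κ = (k : ℂ)) (j : Fin 2)
    (hne : tr (C.z' j 0) ≠ tr (C.z' j 1)) :
    Cls k (σ (C.z j : K)) (σ (C.z' j 0 : K)) (σ (C.z' j 1 : K)) where
  nz := norm_root σ (hC.tors j)
  n1 := norm_root σ (hC.tors' j 0)
  n2 := norm_root σ (hC.tors' j 1)
  rel v := by
    have h1 := congrArg (Polynomial.eval₂ σ v) (hC.eq j)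
    unfold GG at h1
    simp only [Polynomial.eval₂_sub, Polynomial.eval₂_pow, Polynomial.eval₂_X,
      Polynomial.eval₂_C, Fin.prod_univ_two, Polynomial.eval₂_mul] at h1
    rw [tr_map', tr_map', tr_map', hk] at h1
    exact h1
  ne h := by
    rw [← tr_map', ← tr_map'] at h
    exact hne (σ.injective h)

end cls

section path

variable {K : Type*} [Field K] {C : Dat K 2 2} (σ : K →+* ℂ) {k : ℝ} {S : Set ℂ} (L : Lo k S)
  (hcl : ∀ j, Cls k (σ (C.z j : K)) (σ (C.z' j 0 : K)) (σ (C.z' j 1 : K)))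
  (hS : ∀ j, σ (tr (C.z j)) ∈ S) {e : ℝ} (h0 : 0 < e) (he : e < L.w)

include h0 he in
theorem abs_lt_w : |e| < L.w := by rwa [abs_of_pos h0]

/-- the coordinates of the loop -/
noncomputable def crd (t : ℝ) : Fin (2 + 2) → ℂˣ :=
  Fin.cons (Units.mk0 (L.X e t) (L.X_ne (abs_lt_w L h0 he) t))
    (Fin.cons (Units.mk0 (L.Y e t) (L.Y_ne (abs_lt_w L h0 he) t))
    fun j : Fin 2 => Units.mk0 (L.X e t + (L.X e t)⁻¹ - σ (tr (C.z j))) (L.W_ne h0 he (hS j) t))

/-- The loop. -/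
noncomputable def pth : Path C.Crv :=
  mkPath C σ (crd σ L hS h0 he) (fun t j => rfl) (fun t j => by
      rw [Fin.prod_univ_two, tr_map', tr_map']
      refine (L.W (abs_lt_w L h0 he) (hcl j) t).symm.trans ?_
      rw [← tr_map']
      rfl)
    (fun l => by
      have hX := L.X_smooth (abs_lt_w L h0 he)
      refine Fin.cases ?_ (fun l => Fin.cases ?_ (fun j => ?_) l) l
      · exact hX
      · exact L.Y_smooth (abs_lt_w L h0 he)
      · exact (hX.add (hX.inv fun t => L.X_ne (abs_lt_w L h0 he) t)).sub contDiff_const)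
    (fun t => by
      unfold crd
      congr 1
      · ext
        exact L.X_per e t
      · congr 1
        · ext
          exact L.Y_per e t
        · funext j
          ext
          show L.X e (t + 1) + (L.X e (t + 1))⁻¹ - _ = L.X e t + (L.X e t)⁻¹ - _
          rw [L.X_per])

theorem pth_cst (t : ℝ) (a : K) : (pth σ L hcl hS h0 he).e t (C.cst a) = σ a :=
  mkPath_cst σ _ _ _ _ _ t a

theorem pth_x (t : ℝ) : (pth σ L hcl hS h0 he).e t C.cx = L.X e t := by
  unfold Dat.cx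
  rw [pth, mkPath_single, Units.val_one, map_one, one_mul]
  rfl

theorem pth_y (t : ℝ) : (pth σ L hcl hS h0 he).e t C.cy = L.Y e t := by
  unfold Dat.cy
  rw [pth, mkPath_single, Units.val_one, map_one, one_mul]
  rfl

theorem pth_w (t : ℝ) (j : Fin 2) : (pth σ L hcl hS h0 he).e t (C.cw j) =
    L.X e t + (L.X e t)⁻¹ - σ (tr (C.z j)) := by
  unfold Dat.cw
  rw [pth, mkPath_single, Units.val_one, map_one, one_mul]
  rfl

theorem pth_uc_x (t : ℝ) (c : Kˣ) : (pth σ L hcl hS h0 he).e t (C.uc c * C.cx : C.Crvˣ) =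
    σ c * L.X e t := by
  rw [Units.val_mul, map_mul, pth_x, uc_val, pth_cst]

theorem pth_uc_y (t : ℝ) (c : Kˣ) : (pth σ L hcl hS h0 he).e t (C.uc c * C.cy : C.Crvˣ) =
    σ c * L.Y e t := by
  rw [Units.val_mul, map_mul, pth_y, uc_val, pth_cst]

theorem inv_val (c : Kˣ) : σ ((c⁻¹ : Kˣ) : K) = (σ (c : K))⁻¹ := by
  rw [Units.val_inv_eq_inv_val, map_inv₀]

theorem reg_pth {G : Polynomial K} (hC : C.Admissible G) (j : Fin 2) :
    (pth σ L hcl hS h0 he).reg (C.xi j) = ∫ t in (0 : ℝ)..1,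
      L.Me (σ (C.z j : K)) (σ (C.z' j 0 : K)) (σ (C.z' j 1 : K)) e t := by
  rw [reg_xi hC]
  refine intervalIntegral.integral_congr fun t _ => ?_
  have hel := abs_lt_w L h0 he
  set γ := pth σ L hcl hS h0 he with hγ
  set z := σ (C.z j : K) with hz
  set z1 := σ (C.z' j 0 : K) with hz1
  set z2 := σ (C.z' j 1 : K) with hz2
  have e1 : γ.e t (C.px j).1 = z⁻¹ * L.X e t := by
    show γ.e t (C.uc (C.z j)⁻¹ * C.cx : C.Crvˣ) = _
    rw [hγ, pth_uc_x, inv_val]
  have e2 : γ.e t (C.qx j).1 = z * L.X e t := by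
    show γ.e t (C.uc (C.z j) * C.cx : C.Crvˣ) = _
    rw [hγ, pth_uc_x]
  have e3 : ∀ i, γ.e t (C.py j i).1 = (σ (C.z' j i : K))⁻¹ * L.Y e t := by
    intro i
    show γ.e t (C.uc (C.z' j i)⁻¹ * C.cy : C.Crvˣ) = _
    rw [hγ, pth_uc_y, inv_val]
  have e4 : ∀ i, γ.e t (C.qy j i).1 = σ (C.z' j i : K) * L.Y e t := by
    intro i
    show γ.e t (C.uc (C.z' j i) * C.cy : C.Crvˣ) = _
    rw [hγ, pth_uc_y]
  have l1 : γ.ld C.cx t = L.lx e t :=
    ld_of γ C.cx t (pth_x σ L hcl hS h0 he) (L.hd_X hel t)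
  have l2 : γ.ld C.cy t = L.ly e t :=
    ld_of γ C.cy t (pth_y σ L hcl hS h0 he) (L.hd_Y hel t)
  have hX0 := L.X_ne hel t
  have htr : σ (tr (C.z j)) = z + z⁻¹ := tr_map' σ _
  have l3 : γ.ld (C.cw j) t = (L.X e t - (L.X e t)⁻¹) * L.lx e t /
      (L.X e t + (L.X e t)⁻¹ - (z + z⁻¹)) := by
    have hW := L.W_ne h0 he (hS j) t
    refine ld_of γ (C.cw j) t (fun s' => pth_w σ L hcl hS h0 he s' j) ?_
    have h1 := (((L.hd_X hel t).add ((L.hd_X hel t).inv hX0)).sub_const (σ (tr (C.z j))))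
    refine h1.congr_deriv ?_
    rw [htr] at hW ⊢
    rw [mul_div_assoc', mul_div_cancel_left₀ _ hW]
    field_simp
    ring
  have n1 : γ.ln C.cx t = Real.log ‖L.X e t‖ := by
    unfold Path.ln
    rw [hγ, pth_x]
  have n2 : γ.ln C.cy t = Real.log ‖L.Y e t‖ := by
    unfold Path.ln
    rw [hγ, pth_y]
  show Mt γ j t = L.Me z z1 z2 e t
  unfold Mt Lo.Me
  rw [Fin.sum_univ_two, e1, e2, e3, e4, e3, e4, l1, l2, l3, n1, n2]

end path

end Pool.Agent.P8H1.CG
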