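import Pool.Agent.P8H1.CG.L2
set_option autoImplicit false

/-!
The signs of the regulators on the second loop.
-/

namespace Pool.Agent.P8H1.CG

open Real Set Filter Topology MeasureTheory
open Pool.Agent.N65.TK (Dc)
open Pool.Agent.P8H1.EK (Gz Gz_neg continuous_Gz)

/-- the integrand on the second loop -/
noncomputable def q2 (k : ℝ) (z z1 z2 : ℂ) : ℝ → ℝ :=
  qq z z1 z2 (a2 k) (b2 k) (fun s => m2 k s * Real.cos s) (db2 k)

/-- the product of the two factors -/
noncomputable def Wd (z1 z2 : ℂ) (t : ℝ) : ℝ :=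
  (2 * Real.cos t - 2 * z1.re) * (2 * Real.cos t - 2 * z2.re)

/-- the deviation from linearity -/
noncomputable def Td (z1 z2 : ℂ) (t : ℝ) : ℝ := t * -Real.log (Wd z1 z2 t) - (Gz z1 t + Gz z2 t)

section conv

variable {k : ℝ} {z z1 z2 : ℂ} (hc : Cls k z z1 z2)

include hc

theorem re_rel (v : ℝ) : v ^ 2 - v - k - 2 * z.re = (v - 2 * z1.re) * (v - 2 * z2.re) := by
  have h := hc.rel v
  have e : ∀ {w : ℂ}, ‖w‖ = 1 → w + w⁻¹ = ((2 * w.re : ℝ) : ℂ) := by
    intro w hw
    rw [Complex.inv_eq_conj hw, Complex.add_conj]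
  rw [e hc.nz, e hc.n1, e hc.n2] at h
  exact_mod_cast h

theorem Wd_eq (t : ℝ) : Wd z1 z2 t = (2 * Real.cos t) ^ 2 - 2 * Real.cos t - k - 2 * z.re :=
  (re_rel hc _).symm

theorem hd_H {t : ℝ} (h : Wd z1 z2 t ≠ 0) :
    HasDerivAt (fun t => Gz z1 t + Gz z2 t) (-Real.log (Wd z1 z2 t)) t := by
  have h1 := left_ne_zero_of_mul h
  have h2 := right_ne_zero_of_mul h
  refine ((hd_Gz hc.n1 h1).add (hd_Gz hc.n2 h2)).congr_deriv ?_
  unfold Wd
  rw [Real.log_mul h1 h2]
  ring

theorem Td_neg (t : ℝ) : Td z1 z2 (-t) = -Td z1 z2 t := by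
  unfold Td Wd
  rw [Gz_neg hc.n1, Gz_neg hc.n2, Real.cos_neg]
  ring

theorem cont_H : Continuous fun t => Gz z1 t + Gz z2 t :=
  (continuous_Gz hc.n1).add (continuous_Gz hc.n2)

/-- the mean value theorem -/
theorem mvt {b : ℝ} (hb : 0 < b) (hW : ∀ t ∈ Ioo 0 b, Wd z1 z2 t ≠ 0) :
    ∃ t ∈ Ioo 0 b, Td z1 z2 b = b * (Real.log (Wd z1 z2 t) - Real.log (Wd z1 z2 b)) := by
  obtain ⟨t, ht, h⟩ := exists_hasDerivAt_eq_slope (fun t => Gz z1 t + Gz z2 t)
    (fun t => -Real.log (Wd z1 z2 t)) hb (cont_H hc).continuousOn fun t ht => hd_H hc (hW t ht)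
  refine ⟨t, ht, ?_⟩
  rw [Gz_zero hc.n1, Gz_zero hc.n2, sub_zero, add_zero, sub_zero, eq_div_iff hb.ne'] at h
  unfold Td
  rw [← h]
  ring

variable (hk : 2 ≤ k) (hk' : k ≤ 3)
include hk hk'

/-- the element with `x + 1/x = -2` -/
theorem Td_pos (hz : z.re = -1) {b : ℝ} (hb : 0 < b) (hb' : b < π) (hv : vm k < 2 * Real.cos b) :
    0 < Td z1 z2 b := by
  have hvm := vm_sq hk
  have hv1 := vm_ge hk
  have hW : ∀ t : ℝ, Wd z1 z2 t = (2 * Real.cos t - vm k) * (2 * Real.cos t - 1 + vm k) := by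
    intro t
    rw [Wd_eq hc, hz]
    linear_combination hvm
  have hcos : ∀ t ∈ Ioo 0 b, Real.cos b < Real.cos t := fun t ht =>
    Real.cos_lt_cos_of_nonneg_of_le_pi ht.1.le hb'.le ht.2
  have hpos : ∀ t ∈ Ioo 0 b, 0 < Wd z1 z2 t := by
    intro t ht
    have := hcos t ht
    rw [hW]
    apply mul_pos <;> linarith
  obtain ⟨t, ht, h⟩ := mvt hc hb fun t ht => (hpos t ht).ne'
  rw [h]
  have h1 := hcos t ht
  have h2 : 0 < Wd z1 z2 b := by
    rw [hW]
    apply mul_pos <;> linarith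
  have h3 : Wd z1 z2 b < Wd z1 z2 t := by
    rw [hW, hW]
    apply mul_lt_mul'' <;> linarith
  have h4 := Real.log_lt_log h2 h3
  have h5 : 0 < Real.log (Wd z1 z2 t) - Real.log (Wd z1 z2 b) := by linarith
  positivity

/-- the element with `x + 1/x = 2 - k` -/
theorem Td_lt (hz : 2 * z.re = 2 - k) {b : ℝ} (hb : 0 < b) (hb' : b < π)
    (hv : vm k < 2 * Real.cos b) : Td z1 z2 b < 0 := by
  have hv1 := vm_ge hk
  have hW : ∀ t : ℝ, Wd z1 z2 t = -((2 - 2 * Real.cos t) * (2 * Real.cos t + 1)) := by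
    intro t
    rw [Wd_eq hc, hz]
    ring
  have hcos : ∀ t ∈ Ioo 0 b, Real.cos b < Real.cos t := fun t ht =>
    Real.cos_lt_cos_of_nonneg_of_le_pi ht.1.le hb'.le ht.2
  have hlt : ∀ t ∈ Ioo 0 b, Real.cos t < 1 := by
    intro t ht
    have := Real.cos_lt_cos_of_nonneg_of_le_pi le_rfl (by linarith [ht.2]) ht.1
    rwa [Real.cos_zero] at this
  have hpos : ∀ t ∈ Ioo 0 b, 0 < (2 - 2 * Real.cos t) * (2 * Real.cos t + 1) := by
    intro t ht
    have := hcos t ht
    have := hlt t ht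
    apply mul_pos <;> linarith
  obtain ⟨t, ht, h⟩ := mvt hc hb fun t ht => by
    rw [hW]
    exact neg_ne_zero.2 (hpos t ht).ne'
  rw [h, hW, hW, Real.log_neg_eq_log, Real.log_neg_eq_log]
  have h1 := hcos t ht
  have h2 := hpos t ht
  have h3 := hlt t ht
  have h4 : (2 - 2 * Real.cos t) * (2 * Real.cos t + 1) <
      (2 - 2 * Real.cos b) * (2 * Real.cos b + 1) := by nlinarith
  have h5 := Real.log_lt_log h2 h4
  have h6 : Real.log ((2 - 2 * Real.cos t) * (2 * Real.cos t + 1)) -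
      Real.log ((2 - 2 * Real.cos b) * (2 * Real.cos b + 1)) < 0 := by linarith
  exact mul_neg_of_pos_of_neg hb h6

omit hk hk'
omit hc

end conv

section loop

variable {k : ℝ} (hk : 2 ≤ k) (hk' : k ≤ 3)

include hk hk' in
theorem cos_rel (s : ℝ) : 2 * Real.cos (a2 k s) =
    (2 * Real.cos (b2 k s)) ^ 2 - 2 * Real.cos (b2 k s) - k := by
  rw [cos_a2 hk hk', cos_b2 hk hk', bb2_sq hk hk']
  have h1 := bt_sq hk hk'
  have h2 := vm_sq hk
  have h3 := Real.sin_sq_add_cos_sq s
  have h4 : Real.sin s ^ 2 = 1 - Real.cos s ^ 2 := by linarith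
  unfold d2
  rw [h1, h4]
  linear_combination (-(1 : ℝ)) * h2

include hk hk' in
theorem b2_sign (s : ℝ) (h : 0 < Real.cos s) (h' : Real.sin s ≠ 0) :
    0 < b2 k s ∧ b2 k s < π ∧ vm k < 2 * Real.cos (b2 k s) := by
  have h1 := abs_bt hk hk' s
  rw [abs_lt] at h1
  have h2 := bt_pos hk hk'
  have h3 : 0 < bt k * Real.cos s := mul_pos h2 h
  refine ⟨?_, ?_, ?_⟩
  · unfold b2
    have := Real.arcsin_pos.2 h3
    linarith
  · unfold b2
    have := Real.arcsin_lt_pi_div_two.2 h1.2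
    linarith
  · rw [cos_b2 hk hk', bt_sq hk hk']
    have h4 := Real.sin_sq_add_cos_sq s
    have h5 : 0 < Real.sin s ^ 2 := by positivity
    have h6 := vm_lt hk hk'
    nlinarith

theorem b2_neg (s : ℝ) : b2 k (π - s) = -b2 k s := by
  unfold b2
  rw [Real.cos_pi_sub, mul_neg, Real.arcsin_neg]
  ring

theorem a2_zero : a2 k 0 = π := by
  unfold a2 bb2
  rw [Real.sin_zero, mul_zero, zero_div, Real.arcsin_zero]
  ring

theorem a2_two_pi : a2 k (2 * π) = π := by
  unfold a2 bb2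
  rw [Real.sin_two_pi, mul_zero, zero_div, Real.arcsin_zero]
  ring

variable {z z1 z2 : ℂ} (hc : Cls k z z1 z2)

include hk hk' hc

theorem cont_q2 : Continuous (q2 k z z1 z2) := by
  have ca : Continuous (a2 k) := continuous_iff_continuousAt.2 fun s => (hd_a2 hk hk' s).continuousAt
  have cb : Continuous (b2 k) := continuous_iff_continuousAt.2 fun s => (hd_b2 hk hk' s).continuousAt
  have cd : Continuous (d2 k) := by
    unfold d2
    fun_prop
  have cbb : Continuous (bb2 k) := by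
    unfold bb2
    exact (cd.sqrt.mul Real.continuous_sin).div_const 2
  have cm : Continuous (m2 k) := by
    unfold m2
    refine Continuous.div (Continuous.add (Continuous.div (by fun_prop) cd.sqrt fun s => ?_) cd.sqrt)
      (continuous_const.sub (cbb.pow 2)).sqrt fun s => ?_
    · exact (Real.sqrt_pos.2 (d2_pos hk hk' s)).ne'
    · exact (Real.sqrt_pos.2 (by linarith [bb2_lt hk hk' s])).ne'
  have cdb : Continuous (db2 k) := by
    unfold db2
    refine (Continuous.div (by fun_prop) (by fun_prop) fun s => ?_).neg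
    have h5 := abs_bt hk hk' s
    rw [abs_lt] at h5
    exact (Real.sqrt_pos.2 (by nlinarith)).ne'
  have cG := continuous_Gz hc.nz
  have cH := cont_H hc
  exact ((cG.comp ca).mul cdb).add ((cH.comp cb).mul (cm.mul Real.continuous_cos))

/-- the auxiliary function -/
theorem hd_R {s : ℝ} (h : Wd z1 z2 (b2 k s) ≠ 0) :
    HasDerivAt (fun s => Gz z (a2 k s) * b2 k s - ∫ t in (0 : ℝ)..s, q2 k z z1 z2 t)
      (m2 k s * (Real.cos s * Td z1 z2 (b2 k s))) s := by
  have hF : 2 * Real.cos (a2 k s) - 2 * z.re = Wd z1 z2 (b2 k s) := by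
    rw [cos_rel hk hk', Wd_eq hc]
  have h1 : HasDerivAt (Gz z) (-Real.log (Wd z1 z2 (b2 k s))) (a2 k s) := by
    rw [← hF] at h ⊢
    exact hd_Gz hc.nz h
  have h2 := (h1.comp s (hd_a2 hk hk' s)).mul (hd_b2 hk hk' s)
  have h3 := ((cont_q2 hk hk' hc).integral_hasStrictDerivAt 0 s).hasDerivAt
  refine (h2.sub h3).congr_deriv ?_
  unfold q2 qq Td
  simp only [Function.comp_apply]
  ring

theorem cont_R : Continuous fun s => Gz z (a2 k s) * b2 k s - ∫ t in (0 : ℝ)..s, q2 k z z1 z2 t := by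
  have ca : Continuous (a2 k) := continuous_iff_continuousAt.2 fun s => (hd_a2 hk hk' s).continuousAt
  have cb : Continuous (b2 k) := continuous_iff_continuousAt.2 fun s => (hd_b2 hk hk' s).continuousAt
  have h3 : Continuous fun s => ∫ t in (0 : ℝ)..s, q2 k z z1 z2 t :=
    continuous_iff_continuousAt.2 fun s =>
      ((cont_q2 hk hk' hc).integral_hasStrictDerivAt 0 s).hasDerivAt.continuousAt
  exact (((continuous_Gz hc.nz).comp ca).mul cb).sub h3

/-- the general argument -/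
theorem int_q2_sign {ε : ℝ}
    (hT : ∀ b, 0 < b → b < π → vm k < 2 * Real.cos b → 0 < ε * Td z1 z2 b)
    (hW : ∀ b, 0 < b → b < π → vm k < 2 * Real.cos b → Wd z1 z2 b ≠ 0) :
    ε * ∫ s in (0 : ℝ)..(2 * π), q2 k z z1 z2 s < 0 := by
  have hpi := Real.pi_pos
  set R : ℝ → ℝ := fun s => ε * (Gz z (a2 k s) * b2 k s - ∫ t in (0 : ℝ)..s, q2 k z z1 z2 t) with hR
  have hcR : Continuous R := continuous_const.mul (cont_R hk hk' hc)
  have key : ∀ s, Real.sin s ≠ 0 → Real.cos s ≠ 0 → Wd z1 z2 (b2 k s) ≠ 0 ∧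
      0 < Real.cos s * (ε * Td z1 z2 (b2 k s)) := by
    intro s h1 h2
    rcases lt_or_gt_of_ne h2 with h3 | h3
    · have h4 : 0 < Real.cos (π - s) := by
        rw [Real.cos_pi_sub]
        linarith
      have h5 : Real.sin (π - s) ≠ 0 := by rwa [Real.sin_pi_sub]
      obtain ⟨g1, g2, g3⟩ := b2_sign hk hk' (π - s) h4 h5
      have g4 := hT _ g1 g2 g3
      have g5 := hW _ g1 g2 g3
      rw [b2_neg, Td_neg hc] at g4
      rw [b2_neg] at g5
      unfold Wd at g5 ⊢
      rw [Real.cos_neg] at g5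
      exact ⟨g5, by nlinarith⟩
    · obtain ⟨g1, g2, g3⟩ := b2_sign hk hk' s h3 h1
      exact ⟨hW _ g1 g2 g3, mul_pos h3 (hT _ g1 g2 g3)⟩
  have step : ∀ p : ℝ, (∀ s ∈ Ioo p (p + π / 2), Real.sin (2 * s) ≠ 0) → R p < R (p + π / 2) := by
    intro p hp
    have hm : StrictMonoOn R (Icc p (p + π / 2)) := by
      refine strictMonoOn_of_deriv_pos (convex_Icc _ _) hcR.continuousOn ?_
      rw [interior_Icc]
      intro s hs
      have h1 := hp s hs
      rw [Real.sin_two_mul] at h1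
      have h2 : Real.sin s ≠ 0 := fun h => h1 (by rw [h]; ring)
      have h3 : Real.cos s ≠ 0 := fun h => h1 (by rw [h]; ring)
      obtain ⟨h4, h5⟩ := key s h2 h3
      rw [((hd_R hk hk' hc h4).const_mul ε).deriv]
      have h6 := mul_pos (m2_pos hk hk' s) h5
      linarith
    exact hm ⟨le_rfl, by linarith⟩ ⟨by linarith, le_rfl⟩ (by linarith)
  have s0 : R 0 < R (π / 2) := by
    have := step 0 fun s hs => (Real.sin_pos_of_pos_of_lt_pi (by linarith [hs.1])
      (by linarith [hs.2])).ne'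
    rwa [zero_add] at this
  have s1 : R (π / 2) < R π := by
    have := step (π / 2) fun s hs => by
      have h1 : 0 < Real.sin (2 * s - π) :=
        Real.sin_pos_of_pos_of_lt_pi (by linarith [hs.1]) (by linarith [hs.2])
      rw [Real.sin_sub_pi] at h1
      exact (by linarith : Real.sin (2 * s) < 0).ne
    rwa [show π / 2 + π / 2 = π by ring] at this
  have s2 : R π < R (π + π / 2) := step π fun s hs => by
    have h1 : 0 < Real.sin (2 * s - 2 * π) :=
      Real.sin_pos_of_pos_of_lt_pi (by linarith [hs.1]) (by linarith [hs.2])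
    rw [Real.sin_sub_two_pi] at h1
    exact h1.ne'
  have s3 : R (π + π / 2) < R (2 * π) := by
    have := step (π + π / 2) fun s hs => by
      have h1 : 0 < Real.sin (2 * s - 2 * π - π) :=
        Real.sin_pos_of_pos_of_lt_pi (by linarith [hs.1]) (by linarith [hs.2])
      rw [Real.sin_sub_pi, Real.sin_sub_two_pi] at h1
      exact (by linarith : Real.sin (2 * s) < 0).ne
    rwa [show π + π / 2 + π / 2 = 2 * π by ring] at this
  have e0 : R 0 = 0 := by
    simp only [hR]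
    rw [a2_zero, Gz_pi hc.nz, intervalIntegral.integral_same]
    ring
  have e1 : R (2 * π) = -(ε * ∫ s in (0 : ℝ)..(2 * π), q2 k z z1 z2 s) := by
    simp only [hR]
    rw [a2_two_pi, Gz_pi hc.nz]
    ring
  linarith

/-- the element with `x + 1/x = -2` -/
theorem neg2 (hz : z.re = -1) : ∫ s in (0 : ℝ)..(2 * π), q2 k z z1 z2 s < 0 := by
  have h := int_q2_sign hk hk' hc (ε := 1) (fun b h1 h2 h3 => by
    rw [one_mul]
    exact Td_pos hc hk hk' hz h1 h2 h3) fun b h1 h2 h3 => by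
      have hvm := vm_sq hk
      have hv1 := vm_ge hk
      have hW : Wd z1 z2 b = (2 * Real.cos b - vm k) * (2 * Real.cos b - 1 + vm k) := by
        rw [Wd_eq hc, hz]
        linear_combination hvm
      rw [hW]
      exact (mul_pos (by linarith) (by linarith)).ne'
  rwa [one_mul] at h

/-- the element with `x + 1/x = 2 - k` -/
theorem pos2 (hz : 2 * z.re = 2 - k) : 0 < ∫ s in (0 : ℝ)..(2 * π), q2 k z z1 z2 s := by
  have h := int_q2_sign hk hk' hc (ε := -1) (fun b h1 h2 h3 => by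
    have := Td_lt hc hk hk' hz h1 h2 h3
    linarith) fun b h1 h2 h3 => by
      have hv1 := vm_ge hk
      have hW : Wd z1 z2 b = -((2 - 2 * Real.cos b) * (2 * Real.cos b + 1)) := by
        rw [Wd_eq hc, hz]
        ring
      have h4 : Real.cos b < 1 := by
        have := Real.cos_lt_cos_of_nonneg_of_le_pi le_rfl h2.le h1
        rwa [Real.cos_zero] at this
      rw [hW]
      exact (neg_neg_of_pos (mul_pos (by linarith) (by linarith))).ne
  linarith

end loop

end Pool.Agent.P8H1.CG
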