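import Pool.Agent.P8H1.CG.S1
import Pool.Agent.P8H1.CG.S2
import Pool.Agent.P8H1.CG.Pth
import Pool.Agent.P8H1.EK.Main
set_option autoImplicit false

/-!
Two loops on which the regulators of the two elements have a regular matrix.
-/

namespace Pool.Agent.P8H1.CG

open Real Set Filter Topology MeasureTheory
open Pool.Agent.N65.TK (Pt Path FS br D norm_root Rels Dc)
open Pool.Agent.P8H1.EK (tr tr_val Gz)

section general

variable {K : Type*} [Field K] {C : Dat K 2 2} {κ : K} (σ : K →+* ℂ) {k : ℝ}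

/-- a loop with prescribed signs -/
theorem exists_loop (hC : C.Admissible (GG κ)) {S : Set ℂ} (L : Lo k S)
    (hcl : ∀ j, Cls k (σ (C.z j : K)) (σ (C.z' j 0 : K)) (σ (C.z' j 1 : K)))
    (hS : ∀ j, σ (tr (C.z j)) ∈ S) (ε : Fin 2 → ℝ)
    (h : ∀ j, 0 < ε j * ∫ t in (0 : ℝ)..1,
      L.Me (σ (C.z j : K)) (σ (C.z' j 0 : K)) (σ (C.z' j 1 : K)) 0 t) :
    ∃ γ : Path C.Crv, (∀ t a, γ.e t (C.cst a) = σ a) ∧ ∀ j, 0 < ε j * γ.reg (C.xi j) := by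
  have hev : ∀ᶠ e : ℝ in 𝓝[>] 0, ∀ j : Fin 2,
      0 < ε j * ∫ t in (0 : ℝ)..1,
        L.Me (σ (C.z j : K)) (σ (C.z' j 0 : K)) (σ (C.z' j 1 : K)) e t := by
    rw [eventually_all]
    intro j
    have h1 := (L.tendsto_Me (hcl j) (by rw [← tr_map']; exact hS j)).const_mul (ε j)
    exact h1.eventually_const_lt (h j)
  have hsm : ∀ᶠ e : ℝ in 𝓝[>] 0, e < L.w := nhdsWithin_le_nhds (Iio_mem_nhds L.w0)
  have hpos : ∀ᶠ e : ℝ in 𝓝[>] 0, e ∈ Ioi (0 : ℝ) := self_mem_nhdsWithin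
  obtain ⟨e, ⟨h1, h2⟩, h3⟩ := ((hev.and hsm).and hpos).exists
  refine ⟨pth σ L hcl hS h3 h2, pth_cst σ L hcl hS h3 h2, fun j => ?_⟩
  rw [reg_pth σ L hcl hS h3 h2 hC]
  exact h1 j

theorem exists_two (hC : C.Admissible (GG κ)) (hk : 2 ≤ k) (hk' : k ≤ 3) (hσ : σ κ = (k : ℂ))
    (hne : ∀ j, tr (C.z' j 0) ≠ tr (C.z' j 1)) (h0 : (σ (C.z 0 : K)).re = -1)
    (h1 : 2 * (σ (C.z 1 : K)).re = 2 - k)
    (hI : ∀ j, 0 < ∫ s in (0 : ℝ)..(2 * π),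
      q1 k (σ (C.z j : K)) (σ (C.z' j 0 : K)) (σ (C.z' j 1 : K)) s) :
    ∃ γ₁ γ₂ : Path C.Crv, (∀ t a, γ₁.e t (C.cst a) = σ a) ∧ (∀ t a, γ₂.e t (C.cst a) = σ a) ∧
      0 < γ₁.reg (C.xi 0) ∧ 0 < γ₁.reg (C.xi 1) ∧ γ₂.reg (C.xi 0) < 0 ∧ 0 < γ₂.reg (C.xi 1) := by
  have hcl : ∀ j, Cls k (σ (C.z j : K)) (σ (C.z' j 0 : K)) (σ (C.z' j 1 : K)) :=
    fun j => cls σ hC hσ j (hne j)
  have hS : ∀ j, σ (tr (C.z j)) ∈ ({((-2 : ℝ) : ℂ), ((2 - k : ℝ) : ℂ)} : Set ℂ) := by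
    rw [Fin.forall_fin_two, tr_val σ (hC.tors 0), tr_val σ (hC.tors 1), h0, h1]
    exact ⟨Or.inl (by norm_num), Or.inr rfl⟩
  obtain ⟨L₁, hP, hQ⟩ := exists_L1 hk hk'
  obtain ⟨L₂, hP2, hQ2⟩ := exists_L2 hk hk'
  have l1 : ∀ j, 0 < (1 : ℝ) * ∫ t in (0 : ℝ)..1,
      L₁.Me (σ (C.z j : K)) (σ (C.z' j 0 : K)) (σ (C.z' j 1 : K)) 0 t := by
    intro j
    rw [one_mul, L₁.lim (a := fun s => s) (b := b1 k) (a' := fun _ => 1)
      (b' := fun s => -(m1 k s * Real.sin s)) (fun s => hasDerivAt_id s) (hd_b1 hk hk') hP hQ]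
    exact hI j
  obtain ⟨γ₁, c1, r1⟩ := exists_loop σ hC L₁ hcl hS (fun _ => 1) l1
  have l2 : ∀ j, L₂.Me (σ (C.z j : K)) (σ (C.z' j 0 : K)) (σ (C.z' j 1 : K)) 0 =
      L₂.Me (σ (C.z j : K)) (σ (C.z' j 0 : K)) (σ (C.z' j 1 : K)) 0 := fun _ => rfl
  have e2 : ∀ j, ∫ t in (0 : ℝ)..1,
      L₂.Me (σ (C.z j : K)) (σ (C.z' j 0 : K)) (σ (C.z' j 1 : K)) 0 t =
      ∫ s in (0 : ℝ)..(2 * π), q2 k (σ (C.z j : K)) (σ (C.z' j 0 : K)) (σ (C.z' j 1 : K)) s := by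
    intro j
    exact L₂.lim (hd_a2 hk hk') (hd_b2 hk hk') hP2 hQ2
  obtain ⟨γ₂, c2, r2⟩ := exists_loop σ hC L₂ hcl hS ![-1, 1] (by
    rw [Fin.forall_fin_two, e2, e2]
    have h2 := neg2 hk hk' (hcl 0) h0
    have h3 := pos2 hk hk' (hcl 1) h1
    refine ⟨?_, ?_⟩
    · show 0 < (-1 : ℝ) * _
      linarith
    · show 0 < (1 : ℝ) * _
      linarith)
  have g0 := r1 0
  have g1 := r1 1
  have g2 := r2 0
  have g3 := r2 1
  rw [one_mul] at g0 g1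
  have g2' : 0 < (-1 : ℝ) * γ₂.reg (C.xi 0) := g2
  have g3' : 0 < (1 : ℝ) * γ₂.reg (C.xi 1) := g3
  exact ⟨γ₁, γ₂, c1, c2, g0, g1, by linarith, by linarith⟩

end general

section data

variable {K : Type*} [Field K] (ζ : Kˣ)

theorem GG_eq {κ c a b : K} (h1 : a + b = 1) (h2 : a * b = -κ - c) :
    GG κ - Polynomial.C c = (Polynomial.X - Polynomial.C a) * (Polynomial.X - Polynomial.C b) := by
  have e1 : Polynomial.C a + Polynomial.C b = (1 : Polynomial K) := by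
    rw [← Polynomial.C_add, h1, Polynomial.C_1]
  have e2 : Polynomial.C a * Polynomial.C b = -Polynomial.C κ - Polynomial.C c := by
    rw [← Polynomial.C_mul, h2, Polynomial.C_sub, Polynomial.C_neg]
  unfold GG
  linear_combination Polynomial.X * e1 - e2

variable {ζ} [CharZero K] (hζ : IsPrimitiveRoot ζ 60)

include hζ

theorem tr_30 : tr (ζ ^ 30) = (-2 : K) := by
  obtain ⟨h1, h2, h3⟩ := Pool.Agent.P8H1.EK.cyc hζ
  rw [Pool.Agent.P8H1.EK.tr_pow hζ (by norm_num)]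
  linear_combination 2 * h1

theorem tr_20 : tr (ζ ^ 20) = (-1 : K) := by
  obtain ⟨h1, h2, h3⟩ := Pool.Agent.P8H1.EK.cyc hζ
  rw [Pool.Agent.P8H1.EK.tr_pow hζ (by norm_num)]
  linear_combination (ζ : K) ^ 10 * h1 + h2

theorem tors_pow (m : ℕ) : ∃ N : ℕ, 0 < N ∧ (ζ ^ m) ^ N = 1 :=
  ⟨60, by norm_num, by rw [← pow_mul, mul_comm, pow_mul, hζ.pow_eq_one, one_pow]⟩

theorem adm2 : (E2 ζ).Admissible (GG (2 : K)) := by
  have t1 : tr (1 : Kˣ) = (2 : K) := Pool.Agent.P8H1.EK.tr_one hζ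
  constructor
  · rw [Fin.forall_fin_two]
    exact ⟨tors_pow hζ 30, tors_pow hζ 15⟩
  · rw [Fin.forall_fin_two, Fin.forall_fin_two, Fin.forall_fin_two]
    exact ⟨⟨tors_pow hζ 15, tors_pow hζ 10⟩, ⟨1, one_pos, one_pow 1⟩, tors_pow hζ 20⟩
  · rw [Fin.forall_fin_two, Fin.prod_univ_two, Fin.prod_univ_two]
    refine ⟨GG_eq ?_ ?_, GG_eq ?_ ?_⟩
    · show tr (ζ ^ 15) + tr (ζ ^ 10) = 1
      rw [Pool.Agent.P8H1.EK.tr_15 hζ, Pool.Agent.P8H1.EK.tr_10 hζ]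
      ring
    · show tr (ζ ^ 15) * tr (ζ ^ 10) = -2 - tr (ζ ^ 30)
      rw [Pool.Agent.P8H1.EK.tr_15 hζ, Pool.Agent.P8H1.EK.tr_10 hζ, tr_30 hζ]
      ring
    · show tr (1 : Kˣ) + tr (ζ ^ 20) = 1
      rw [t1, tr_20 hζ]
      ring
    · show tr (1 : Kˣ) * tr (ζ ^ 20) = -2 - tr (ζ ^ 15)
      rw [t1, tr_20 hζ, Pool.Agent.P8H1.EK.tr_15 hζ]
      ring

theorem adm3 : (E3 ζ).Admissible (GG (3 : K)) := by
  have t1 : tr (1 : Kˣ) = (2 : K) := Pool.Agent.P8H1.EK.tr_one hζ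
  have t6 := Pool.Agent.P8H1.EK.tr_six_sq hζ
  constructor
  · rw [Fin.forall_fin_two]
    exact ⟨tors_pow hζ 30, tors_pow hζ 20⟩
  · rw [Fin.forall_fin_two, Fin.forall_fin_two, Fin.forall_fin_two]
    exact ⟨⟨tors_pow hζ 6, tors_pow hζ 18⟩, ⟨1, one_pos, one_pow 1⟩, tors_pow hζ 20⟩
  · rw [Fin.forall_fin_two, Fin.prod_univ_two, Fin.prod_univ_two]
    refine ⟨GG_eq ?_ ?_, GG_eq ?_ ?_⟩
    · show tr (ζ ^ 6) + tr (ζ ^ 18) = 1
      rw [Pool.Agent.P8H1.EK.tr_18 hζ]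
      ring
    · show tr (ζ ^ 6) * tr (ζ ^ 18) = -3 - tr (ζ ^ 30)
      rw [Pool.Agent.P8H1.EK.tr_18 hζ, tr_30 hζ]
      linear_combination -t6
    · show tr (1 : Kˣ) + tr (ζ ^ 20) = 1
      rw [t1, tr_20 hζ]
      ring
    · show tr (1 : Kˣ) * tr (ζ ^ 20) = -3 - tr (ζ ^ 20)
      rw [t1, tr_20 hζ]
      ring

theorem re_of (σ : K →+* ℂ) {c : Kˣ} (hc : ∃ N : ℕ, 0 < N ∧ c ^ N = 1) {q : ℝ}
    (h : σ (tr c) = (q : ℂ)) : (σ (c : K)).re = q / 2 := by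
  rw [tr_val σ hc] at h
  have h1 : 2 * (σ (c : K)).re = q := by exact_mod_cast h
  linarith

theorem full2 (σ : K →+* ℂ) : ∃ γ₁ γ₂ : Path (E2 ζ).Crv,
    (∀ t a, γ₁.e t ((E2 ζ).cst a) = σ a) ∧ (∀ t a, γ₂.e t ((E2 ζ).cst a) = σ a) ∧
      0 < γ₁.reg ((E2 ζ).xi 0) ∧ 0 < γ₁.reg ((E2 ζ).xi 1) ∧ γ₂.reg ((E2 ζ).xi 0) < 0 ∧
      0 < γ₂.reg ((E2 ζ).xi 1) := by
  have hC := adm2 hζ
  have t1 : tr (1 : Kˣ) = (2 : K) := Pool.Agent.P8H1.EK.tr_one hζ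
  have n30 := norm_root σ (tors_pow hζ 30)
  have n15 := norm_root σ (tors_pow hζ 15)
  have n10 := norm_root σ (tors_pow hζ 10)
  have n20 := norm_root σ (tors_pow hζ 20)
  have n1 : ‖σ ((1 : Kˣ) : K)‖ = 1 := norm_root σ ⟨1, one_pos, one_pow 1⟩
  have r30 : (σ ((ζ ^ 30 : Kˣ) : K)).re = -1 := by
    rw [re_of hζ σ (tors_pow hζ 30) (q := -2) (by rw [tr_30 hζ, map_neg, map_ofNat]; norm_num)]
    norm_num
  have r15 : (σ ((ζ ^ 15 : Kˣ) : K)).re = 0 := by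
    rw [re_of hζ σ (tors_pow hζ 15) (q := 0)
      (by rw [Pool.Agent.P8H1.EK.tr_15 hζ, map_zero]; norm_num)]
    norm_num
  have r10 : (σ ((ζ ^ 10 : Kˣ) : K)).re = 1 / 2 := by
    rw [re_of hζ σ (tors_pow hζ 10) (q := 1)
      (by rw [Pool.Agent.P8H1.EK.tr_10 hζ, map_one]; norm_num)]
  have r20 : (σ ((ζ ^ 20 : Kˣ) : K)).re = -1 / 2 := by
    rw [re_of hζ σ (tors_pow hζ 20) (q := -1) (by rw [tr_20 hζ, map_neg, map_one]; norm_num)]
  have r1 : (σ ((1 : Kˣ) : K)).re = 1 := by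
    rw [Units.val_one, map_one, Complex.one_re]
  refine exists_two σ hC (k := 2) le_rfl (by norm_num) (by rw [map_ofNat]; norm_num) ?_ r30
    (by show 2 * (σ ((ζ ^ 15 : Kˣ) : K)).re = _; rw [r15]; norm_num) ?_
  · rw [Fin.forall_fin_two]
    constructor
    · show tr (ζ ^ 15) ≠ tr (ζ ^ 10)
      rw [Pool.Agent.P8H1.EK.tr_15 hζ, Pool.Agent.P8H1.EK.tr_10 hζ]
      exact zero_ne_one
    · show tr (1 : Kˣ) ≠ tr (ζ ^ 20)
      rw [t1, tr_20 hζ]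
      norm_num
  · rw [Fin.forall_fin_two]
    constructor
    · refine pos1 le_rfl (by norm_num) n30 n15 n10 (fun s h1 h2 => neg_m1 n30 r30 h1 h2) fun s => ?_
      obtain ⟨h1, h2⟩ := b1_range (k := 2) le_rfl (by norm_num) s
      exact pair_A n15 n10 r15 r10 h1 h2
    · exact pos1' le_rfl (by norm_num) n15 n1 n20 rfl r15 r1 r20

theorem full3 (σ : K →+* ℂ) : ∃ γ₁ γ₂ : Path (E3 ζ).Crv,
    (∀ t a, γ₁.e t ((E3 ζ).cst a) = σ a) ∧ (∀ t a, γ₂.e t ((E3 ζ).cst a) = σ a) ∧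
      0 < γ₁.reg ((E3 ζ).xi 0) ∧ 0 < γ₁.reg ((E3 ζ).xi 1) ∧ γ₂.reg ((E3 ζ).xi 0) < 0 ∧
      0 < γ₂.reg ((E3 ζ).xi 1) := by
  have hC := adm3 hζ
  have hpi := Real.pi_pos
  have t1 : tr (1 : Kˣ) = (2 : K) := Pool.Agent.P8H1.EK.tr_one hζ
  have t6 := Pool.Agent.P8H1.EK.tr_six_sq hζ
  have t18 := Pool.Agent.P8H1.EK.tr_18 hζ
  have n30 := norm_root σ (tors_pow hζ 30)
  have n6 := norm_root σ (tors_pow hζ 6)
  have n18 := norm_root σ (tors_pow hζ 18)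
  have n20 := norm_root σ (tors_pow hζ 20)
  have n1 : ‖σ ((1 : Kˣ) : K)‖ = 1 := norm_root σ ⟨1, one_pos, one_pow 1⟩
  have r30 : (σ ((ζ ^ 30 : Kˣ) : K)).re = -1 := by
    rw [re_of hζ σ (tors_pow hζ 30) (q := -2) (by rw [tr_30 hζ, map_neg, map_ofNat]; norm_num)]
    norm_num
  have r20 : (σ ((ζ ^ 20 : Kˣ) : K)).re = -1 / 2 := by
    rw [re_of hζ σ (tors_pow hζ 20) (q := -1) (by rw [tr_20 hζ, map_neg, map_one]; norm_num)]
  have r1 : (σ ((1 : Kˣ) : K)).re = 1 := by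
    rw [Units.val_one, map_one, Complex.one_re]
  have s5 : √(5 : ℝ) ^ 2 = 5 := Real.sq_sqrt (by norm_num)
  have c1 : Real.arccos ((1 + √5) / 4) = π / 5 := by
    rw [← Real.cos_pi_div_five, Real.arccos_cos (by linarith) (by linarith)]
  have c3 : Real.arccos ((1 - √5) / 4) = 3 * π / 5 := by
    have h1 : Real.cos (3 * π / 5) = (1 - √5) / 4 := by
      have h2 : 3 * π / 5 = π - 2 * (π / 5) := by ring
      rw [h2, Real.cos_pi_sub, Real.cos_two_mul, Real.cos_pi_div_five]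
      linear_combination (-1 / 8) * s5
    rw [← h1, Real.arccos_cos (by linarith) (by linarith)]
  set x := (σ ((ζ ^ 6 : Kˣ) : K)).re with hx
  set y := (σ ((ζ ^ 18 : Kˣ) : K)).re with hy
  have hx2 : σ (tr (ζ ^ 6)) = ((2 * x : ℝ) : ℂ) := tr_val σ (tors_pow hζ 6)
  have hy2 : σ (tr (ζ ^ 18)) = ((2 * y : ℝ) : ℂ) := tr_val σ (tors_pow hζ 18)
  have q1' : (2 * x) ^ 2 = 2 * x + 1 := by
    have h1 := congrArg σ t6
    rw [map_pow, map_add, map_one, hx2] at h1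
    exact_mod_cast h1
  have q2' : 2 * y = 1 - 2 * x := by
    have h1 := congrArg σ t18
    rw [map_sub, map_one, hx2, hy2] at h1
    exact_mod_cast h1
  have hxy : (Real.arccos x = π / 5 ∧ Real.arccos y = 3 * π / 5) ∨
      (Real.arccos y = π / 5 ∧ Real.arccos x = 3 * π / 5) := by
    have h1 : (x - (1 + √5) / 4) * (x - (1 - √5) / 4) = 0 := by
      linear_combination (1 / 4) * q1' - (1 / 16) * s5
    rcases mul_eq_zero.1 h1 with h2 | h2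
    · left
      have h3 : x = (1 + √5) / 4 := by linarith
      have h4 : y = (1 - √5) / 4 := by linarith
      rw [h3, h4]
      exact ⟨c1, c3⟩
    · right
      have h3 : x = (1 - √5) / 4 := by linarith
      have h4 : y = (1 + √5) / 4 := by linarith
      rw [h3, h4]
      exact ⟨c1, c3⟩
  refine exists_two σ hC (k := 3) (by norm_num) le_rfl (by rw [map_ofNat]; norm_num) ?_ r30
    (by show 2 * (σ ((ζ ^ 20 : Kˣ) : K)).re = _; rw [r20]; norm_num) ?_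
  · rw [Fin.forall_fin_two]
    constructor
    · show tr (ζ ^ 6) ≠ tr (ζ ^ 18)
      intro h
      rw [t18] at h
      have h1 : (2 : K) * tr (ζ ^ 6) = 1 := by linear_combination h
      have h2 : (5 : K) = 0 := by linear_combination (-4 : K) * t6 + (2 * tr (ζ ^ 6) - 1) * h1
      norm_num at h2
    · show tr (1 : Kˣ) ≠ tr (ζ ^ 20)
      rw [t1, tr_20 hζ]
      norm_num
  · rw [Fin.forall_fin_two]
    constructor
    · refine pos1 (by norm_num) le_rfl n30 n6 n18 (fun s h1 h2 => neg_m1 n30 r30 h1 h2) fun s => ?_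
      obtain ⟨h1, h2⟩ := b1_range (k := 3) (by norm_num) le_rfl s
      have h3 : 3 * π / 5 ≤ b1 3 s := by
        rw [← c3]
        unfold b1
        apply Real.antitone_arccos
        unfold v1
        have h4 : √5 ≤ √(CG.r1 3 s) := by
          apply Real.sqrt_le_sqrt
          unfold CG.r1
          have := Real.neg_one_le_cos s
          linarith
        linarith
      rcases hxy with ⟨g1, g2⟩ | ⟨g1, g2⟩
      · exact pair_C n6 n18 g1 g2 h3 h2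
      · have := pair_C n18 n6 g1 g2 h3 h2
        rw [add_comm]
        exact this
    · refine pos1 (by norm_num) le_rfl n20 n1 n20 (fun s h1 h2 => neg_mhalf n20 r20 h1 h2) fun s => ?_
      obtain ⟨h1, h2⟩ := b1_range (k := 3) (by norm_num) le_rfl s
      exact pair_B n1 n20 r1 r20 h1 h2

end data

end Pool.Agent.P8H1.CG
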