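import Pool.Agent.P8H1.CG.Reg
import Pool.Agent.P8H1.EK.Circ
set_option autoImplicit false

/-!
The inversions `x ↦ 1/x` and `y ↦ 1/y` of the curve change the sign of the regulator of `xi j`.
-/

namespace Pool.Agent.P8H1.CG

open Real Set Filter Topology MeasureTheory
open Pool.Agent.N65.TK (Pt Path FS br D D_real)
open Pool.Agent.P8H1.PD (LP mo)
open Pool.Agent.P8H1.EK (tr mono con)
open Pool.Agent.P8H1.KC (D_inv)

section hom

variable {K : Type*} [Field K] {d r : ℕ}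

/-- `X_i ↦ X_i^(s_i)` -/
noncomputable def flp (K : Type*) [Field K] {r : ℕ} (s : Fin (r + 2) → ℤ) :
    LP K (r + 2) →+* LP K (r + 2) :=
  AddMonoidAlgebra.mapDomainRingHom K (AddMonoidHom.mulLeft s)

variable (s : Fin (r + 2) → ℤ)

theorem flp_single (k : Fin (r + 2) → ℤ) (a : K) :
    flp K s (AddMonoidAlgebra.single k a) = AddMonoidAlgebra.single (s * k) a := by
  unfold flp
  exact AddMonoidAlgebra.mapDomain_single

theorem flp_mono (i : Fin (r + 2)) (m : ℤ) :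
    flp K s (mono K r i m : LP K (r + 2)) = (mono K r i (s i * m) : LP K (r + 2)) := by
  show flp K s (AddMonoidAlgebra.single _ _) = AddMonoidAlgebra.single _ _
  rw [flp_single]
  congr 1
  funext l
  rw [Pi.mul_apply]
  by_cases h : l = i
  · subst h
    rw [Pi.single_eq_same, Pi.single_eq_same]
  · rw [Pi.single_eq_of_ne h, Pi.single_eq_of_ne h, mul_zero]

theorem flp_con (a : K) : flp K s (con a) = con a := by
  show flp K s (AddMonoidAlgebra.single _ _) = AddMonoidAlgebra.single _ _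
  rw [flp_single, mul_zero]

variable (C : Dat K d r)

/-- The exponents `(±1, ±1, 1, …, 1)`. -/
structure Sg (s : Fin (r + 2) → ℤ) : Prop where
  h0 : s 0 = 1 ∨ s 0 = -1
  h1 : s 1 = 1 ∨ s 1 = -1
  h2 : ∀ j : Fin r, s j.succ.succ = 1

theorem pair_flp {s : Fin (r + 2) → ℤ} {i : Fin (r + 2)} (h : s i = 1 ∨ s i = -1) :
    (mono K r i (s i * 1) : LP K (r + 2)) + (mono K r i (s i * -1) : LP K (r + 2)) =
      (mono K r i 1 : LP K (r + 2)) + (mono K r i (-1) : LP K (r + 2)) := by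
  rcases h with h | h <;> rw [h]
  · rw [one_mul, one_mul]
  · rw [mul_one, neg_mul_neg, one_mul]
    exact add_comm _ _

variable {s} (hs : Sg s)

include hs in
theorem idl_le_flp : C.idl ≤ C.idl.comap (flp K s) := by
  conv_lhs => unfold Dat.idl
  rw [Ideal.span_le]
  rintro P ⟨j, rfl | rfl⟩
  · show flp K s _ ∈ C.idl
    rw [map_sub, map_sub, map_add, flp_mono, flp_mono, flp_mono, flp_con, pair_flp hs.h0, hs.h2,
      one_mul]
    exact Ideal.subset_span ⟨j, Or.inl rfl⟩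
  · show flp K s _ ∈ C.idl
    have h1 : ∏ i, flp K s ((mono K r 1 1 : LP K (r + 2)) + (mono K r 1 (-1) : LP K (r + 2)) -
        con (tr (C.z' j i))) = ∏ i, ((mono K r 1 1 : LP K (r + 2)) +
        (mono K r 1 (-1) : LP K (r + 2)) - con (tr (C.z' j i))) := by
      refine Finset.prod_congr rfl fun i _ => ?_
      rw [map_sub, map_add, flp_mono, flp_mono, flp_con, pair_flp hs.h1]
    rw [map_sub, map_prod, h1, flp_mono, hs.h2, one_mul]
    exact Ideal.subset_span ⟨j, Or.inr rfl⟩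

/-- The endomorphism of the coordinate ring with `x ↦ x^(s_0)`, `y ↦ y^(s_1)`. -/
noncomputable def Dat.inv : C.Crv →+* C.Crv := Ideal.quotientMap C.idl (flp K s) (idl_le_flp C hs)

theorem inv_cst (a : K) : C.inv hs (C.cst a) = C.cst a := by
  show Ideal.quotientMap C.idl (flp K s) (idl_le_flp C hs) (Ideal.Quotient.mk C.idl (con a)) = _
  rw [Ideal.quotientMap_mk, flp_con]
  rfl

theorem inv_mn (c : Kˣ) (k : Fin (r + 2) → ℤ) :
    Units.map (C.inv hs : C.Crv →* C.Crv) (C.mn c k) = C.mn c (s * k) := by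
  ext
  show Ideal.quotientMap C.idl (flp K s) (idl_le_flp C hs)
    (Ideal.Quotient.mk C.idl (AddMonoidAlgebra.single k (c : K))) = _
  rw [Ideal.quotientMap_mk, flp_single]
  rfl

theorem mn_zpow_one (i : Fin (r + 2)) (m : ℤ) (hm : m = 1 ∨ m = -1) :
    C.mn 1 (Pi.single i m) = C.mn 1 (Pi.single i 1) ^ m := by
  rcases hm with rfl | rfl
  · rw [zpow_one]
  · rw [zpow_neg, zpow_one, mn_inv, inv_one, Pi.single_neg]

theorem inv_single (i : Fin (r + 2)) (h : s i = 1 ∨ s i = -1) :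
    Units.map (C.inv hs : C.Crv →* C.Crv) (C.mn 1 (Pi.single i 1)) =
      C.mn 1 (Pi.single i 1) ^ s i := by
  rw [inv_mn, ← mn_zpow_one C i (s i) h]
  congr 1
  funext l
  rw [Pi.mul_apply]
  by_cases h : l = i
  · subst h
    rw [Pi.single_eq_same, Pi.single_eq_same, mul_one]
  · rw [Pi.single_eq_of_ne h, Pi.single_eq_of_ne h, mul_zero]

theorem inv_cx : Units.map (C.inv hs : C.Crv →* C.Crv) C.cx = C.cx ^ s 0 := inv_single C hs 0 hs.h0

theorem inv_cy : Units.map (C.inv hs : C.Crv →* C.Crv) C.cy = C.cy ^ s 1 := inv_single C hs 1 hs.h1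

theorem inv_uc (c : Kˣ) : Units.map (C.inv hs : C.Crv →* C.Crv) (C.uc c) = C.uc c := by
  unfold Dat.uc
  rw [inv_mn, mul_zero]

end hom

section reg

variable {A : Type*} [CommRing A] (γ : Path A)

theorem D_inv' {z : ℂ} : D z⁻¹ = -D z := by
  by_cases h : z.im = 0
  · have h1 : z = (z.re : ℂ) := Complex.ext rfl (by rw [h, Complex.ofReal_im])
    rw [h1, ← Complex.ofReal_inv, D_real, D_real, neg_zero]
  · exact D_inv h

theorem fr_inv_right (f : Pt A) (g : Aˣ) (t : ℝ) : γ.fr f g⁻¹ t = -γ.fr f g t := by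
  unfold Path.fr
  rw [γ.ln_inv, γ.ld_inv, Complex.neg_im]
  ring

theorem co_inv {f f' : Pt A} (h : f'.1 = f.1⁻¹) : f'.co * f.1 = -f.co := by
  ext
  have h1 : (f'.co : A) = 1 - f'.1 := rfl
  have h2 : (f.co : A) = 1 - f.1 := rfl
  rw [Units.val_mul, Units.val_neg, h1, h2, h, sub_mul, Units.inv_mul]
  ring

theorem ln_neg (f : Aˣ) (t : ℝ) : γ.ln (-f) t = γ.ln f t := by
  unfold Path.ln
  rw [Units.val_neg, map_neg, norm_neg]

theorem ld_neg (f : Aˣ) (t : ℝ) : γ.ld (-f) t = γ.ld f t := by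
  unfold Path.ld
  have h1 : (fun s => γ.e s ((-f : Aˣ) : A)) = -fun s => γ.e s f := by
    funext s
    rw [Units.val_neg, map_neg]
    rfl
  rw [h1, Units.val_neg, map_neg, (γ.hd f t).neg.deriv, neg_div_neg_eq]

theorem fr_inv_left {f f' : Pt A} (h : f'.1 = f.1⁻¹) (g : Aˣ) (t : ℝ) :
    γ.fr f' g t = -γ.fr f g t := by
  have h1 := γ.ln_mul f'.co f.1 t
  have h2 := congrArg Complex.re (γ.ld_mul f'.co f.1 t)
  rw [co_inv h, ln_neg] at h1
  rw [co_inv h, ld_neg, Complex.add_re] at h2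
  have h3 : γ.e t f'.1 = (γ.e t f.1)⁻¹ := by
    rw [h]
    refine eq_inv_of_mul_eq_one_left ?_
    rw [← map_mul, Units.inv_mul, map_one]
  unfold Path.fr
  rw [h3, D_inv', h, γ.ln_inv, γ.ld_inv, Complex.neg_re]
  linear_combination (-(1 / 3) * γ.ln g t * (γ.ld f.1 t).re) * h1 +
    (1 / 3 * γ.ln g t * γ.ln f.1 t) * h2

theorem reg_inv_right (f : Pt A) (g : Aˣ) : γ.reg (br f g⁻¹) = -γ.reg (br f g) := by
  rw [γ.reg_br, γ.reg_br, ← intervalIntegral.integral_neg]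
  exact intervalIntegral.integral_congr fun t _ => fr_inv_right γ f g t

theorem reg_inv_left {f f' : Pt A} (h : f'.1 = f.1⁻¹) (g : Aˣ) :
    γ.reg (br f' g) = -γ.reg (br f g) := by
  rw [γ.reg_br, γ.reg_br, ← intervalIntegral.integral_neg]
  exact intervalIntegral.integral_congr fun t _ => fr_inv_left γ h g t

end reg

section main

variable {K : Type*} [Field K] {d r : ℕ} (C : Dat K d r) (γ : Path C.Crv)

/-- `(-1, 1, 1, …)` -/
theorem sgx (r : ℕ) : Sg (Fin.cons (-1) (Fin.cons 1 fun _ => 1) : Fin (r + 2) → ℤ) :=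
  ⟨Or.inr rfl, Or.inl rfl, fun _ => rfl⟩

/-- `(1, -1, 1, …)` -/
theorem sgy (r : ℕ) : Sg (Fin.cons 1 (Fin.cons (-1) fun _ => 1) : Fin (r + 2) → ℤ) :=
  ⟨Or.inl rfl, Or.inr rfl, fun _ => rfl⟩

theorem map_br {A B : Type*} [CommRing A] [CommRing B] (φ : A →+* B) (f : Pt A) (g : Aˣ) :
    FS.map φ (br f g) = br (f.map φ) (Units.map (φ : A →* B) g) := by
  unfold br FS.map
  rw [Finsupp.lmapDomain_apply, Finsupp.mapDomain_single]

theorem pt_map_val {A B : Type*} [CommRing A] [CommRing B] (φ : A →+* B) (f : Pt A) :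
    (f.map φ).1 = Units.map (φ : A →* B) f.1 := rfl

/-- the inversion of `x` -/
theorem odd_x (j : Fin r) : γ.reg (FS.map (C.inv (sgx r)) (C.xi j)) = -γ.reg (C.xi j) := by
  have hx : Units.map (C.inv (sgx r) : C.Crv →* C.Crv) C.cx = C.cx⁻¹ := by
    rw [inv_cx]
    show C.cx ^ (-1 : ℤ) = _
    rw [zpow_neg, zpow_one]
  have hy : Units.map (C.inv (sgx r) : C.Crv →* C.Crv) C.cy = C.cy := by
    rw [inv_cy]
    show C.cy ^ (1 : ℤ) = _
    rw [zpow_one]
  have h1 : ((C.px j).map (C.inv (sgx r))).1 = (C.qx j).1⁻¹ := by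
    rw [pt_map_val]
    show Units.map (C.inv (sgx r) : C.Crv →* C.Crv) (C.uc (C.z j)⁻¹ * C.cx) =
      (C.uc (C.z j) * C.cx)⁻¹
    rw [map_mul, inv_uc, hx, mul_inv, uc_inv]
  have h2 : ((C.qx j).map (C.inv (sgx r))).1 = (C.px j).1⁻¹ := by
    rw [pt_map_val]
    show Units.map (C.inv (sgx r) : C.Crv →* C.Crv) (C.uc (C.z j) * C.cx) =
      (C.uc (C.z j)⁻¹ * C.cx)⁻¹
    rw [map_mul, inv_uc, hx, mul_inv, uc_inv, inv_inv]
  have h3 : ∀ i, (C.py j i).map (C.inv (sgx r)) = C.py j i := by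
    intro i
    apply Subtype.ext
    rw [pt_map_val]
    show Units.map (C.inv (sgx r) : C.Crv →* C.Crv) (C.uc (C.z' j i)⁻¹ * C.cy) =
      C.uc (C.z' j i)⁻¹ * C.cy
    rw [map_mul, inv_uc, hy]
  have h4 : ∀ i, (C.qy j i).map (C.inv (sgx r)) = C.qy j i := by
    intro i
    apply Subtype.ext
    rw [pt_map_val]
    show Units.map (C.inv (sgx r) : C.Crv →* C.Crv) (C.uc (C.z' j i) * C.cy) =
      C.uc (C.z' j i) * C.cy
    rw [map_mul, inv_uc, hy]
  unfold Dat.xi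
  simp only [map_add, map_sum, map_br, hx, hy, h3, h4]
  rw [reg_inv_left γ h1, reg_inv_left γ h2]
  simp only [reg_inv_right, ← neg_add, Finset.sum_neg_distrib]
  ring

/-- the inversion of `y` -/
theorem odd_y (j : Fin r) : γ.reg (FS.map (C.inv (sgy r)) (C.xi j)) = -γ.reg (C.xi j) := by
  have hx : Units.map (C.inv (sgy r) : C.Crv →* C.Crv) C.cx = C.cx := by
    rw [inv_cx]
    show C.cx ^ (1 : ℤ) = _
    rw [zpow_one]
  have hy : Units.map (C.inv (sgy r) : C.Crv →* C.Crv) C.cy = C.cy⁻¹ := by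
    rw [inv_cy]
    show C.cy ^ (-1 : ℤ) = _
    rw [zpow_neg, zpow_one]
  have h1 : (C.px j).map (C.inv (sgy r)) = C.px j := by
    apply Subtype.ext
    rw [pt_map_val]
    show Units.map (C.inv (sgy r) : C.Crv →* C.Crv) (C.uc (C.z j)⁻¹ * C.cx) =
      C.uc (C.z j)⁻¹ * C.cx
    rw [map_mul, inv_uc, hx]
  have h2 : (C.qx j).map (C.inv (sgy r)) = C.qx j := by
    apply Subtype.ext
    rw [pt_map_val]
    show Units.map (C.inv (sgy r) : C.Crv →* C.Crv) (C.uc (C.z j) * C.cx) =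
      C.uc (C.z j) * C.cx
    rw [map_mul, inv_uc, hx]
  have h3 : ∀ i, ((C.py j i).map (C.inv (sgy r))).1 = (C.qy j i).1⁻¹ := by
    intro i
    rw [pt_map_val]
    show Units.map (C.inv (sgy r) : C.Crv →* C.Crv) (C.uc (C.z' j i)⁻¹ * C.cy) =
      (C.uc (C.z' j i) * C.cy)⁻¹
    rw [map_mul, inv_uc, hy, mul_inv, uc_inv]
  have h4 : ∀ i, ((C.qy j i).map (C.inv (sgy r))).1 = (C.py j i).1⁻¹ := by
    intro i
    rw [pt_map_val]
    show Units.map (C.inv (sgy r) : C.Crv →* C.Crv) (C.uc (C.z' j i) * C.cy) =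
      (C.uc (C.z' j i)⁻¹ * C.cy)⁻¹
    rw [map_mul, inv_uc, hy, mul_inv, uc_inv, inv_inv]
  unfold Dat.xi
  simp only [map_add, map_sum, map_br, hx, hy, h1, h2]
  have h5 : ∀ i, γ.reg (br ((C.py j i).map (C.inv (sgy r))) C.cx) = -γ.reg (br (C.qy j i) C.cx) :=
    fun i => reg_inv_left γ (h3 i) _
  have h6 : ∀ i, γ.reg (br ((C.qy j i).map (C.inv (sgy r))) C.cx) = -γ.reg (br (C.py j i) C.cx) :=
    fun i => reg_inv_left γ (h4 i) _
  simp only [h5, h6, reg_inv_right, ← neg_add, Finset.sum_neg_distrib]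
  have h7 : ∀ i, γ.reg (br (C.qy j i) C.cx) + γ.reg (br (C.py j i) C.cx) =
      γ.reg (br (C.py j i) C.cx) + γ.reg (br (C.qy j i) C.cx) := fun i => add_comm _ _
  simp only [h7]

end main

end Pool.Agent.P8H1.CG
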