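import Pool.Agent.P8H1.CG.Odd
import Pool.Agent.P8H1.EK.Main
set_option autoImplicit false

/-!
The case of a linear polynomial `G`: the curves `x + 1/x = y + 1/y + k`, and the transfer of the
elements, paths and regulators from the earlier file on these curves.
-/

namespace Pool.Agent.P8H1.CG

open Pool.Agent.N65.TK (Pt Path FS br Rels)
open Pool.Agent.P8H1.PD (LP mo)
open Pool.Agent.P8H1.EK (tr mono con)

section comap

variable {A B : Type*} [CommRing A] [CommRing B]

/-- The composition of a path with a homomorphism of rings. -/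
noncomputable def pull (γ : Path B) (f : A →+* B) : Path A :=
  ⟨fun t => (γ.e t).comp f, fun h => γ.smooth (f h), fun t => by rw [γ.periodic]⟩

theorem reg_pull (γ : Path B) (f : A →+* B) (s : FS A) :
    (pull γ f).reg s = γ.reg (FS.map f s) := by
  have h : (pull γ f).reg = γ.reg.comp (FS.map f) := by
    apply Finsupp.lhom_ext'
    intro p
    apply LinearMap.ext_ring
    show (pull γ f).reg (Finsupp.single p 1) = γ.reg (FS.map f (Finsupp.single p 1))
    have h1 : FS.map f (Finsupp.single p 1) =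
        Finsupp.single (p.1.map f, Units.map (f : A →* B) p.2) 1 := by
      unfold FS.map
      rw [Finsupp.lmapDomain_apply, Finsupp.mapDomain_single]
    rw [h1]
    unfold Path.reg
    rw [Finsupp.linearCombination_single, Finsupp.linearCombination_single]
    rfl
  rw [h]
  rfl

end comap

variable {K : Type*} [Field K] {r : ℕ} (C : Dat K 1 r)

/-- the same data for a linear polynomial -/
def Dat.lin : EK.Dat K r := ⟨C.z, fun j => C.z' j 0⟩

theorem idl_lin : C.idl = C.lin.idl := by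
  unfold Dat.idl EK.Dat.idl
  congr 1
  ext P
  simp only [Set.mem_setOf_eq, Fin.prod_univ_one]
  rfl

/-- the identity of the coordinate rings -/
noncomputable def Dat.tol : C.Crv →+* C.lin.Crv :=
  Ideal.quotientMap C.lin.idl (RingHom.id _) (by rw [idl_lin C]; exact le_of_eq rfl)

theorem tol_cst (a : K) : C.tol (C.cst a) = C.lin.cst a := rfl

theorem tol_mn (c : Kˣ) (k : Fin (r + 2) → ℤ) :
    Units.map (C.tol : C.Crv →* C.lin.Crv) (C.mn c k) = C.lin.mn c k := by
  ext
  rfl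

theorem tol_xi (j : Fin r) : FS.map C.tol (C.xi j) = C.lin.xi j := by
  have hx : Units.map (C.tol : C.Crv →* C.lin.Crv) C.cx = C.lin.cx := tol_mn C _ _
  have hy : Units.map (C.tol : C.Crv →* C.lin.Crv) C.cy = C.lin.cy := tol_mn C _ _
  have hu : ∀ c : Kˣ, Units.map (C.tol : C.Crv →* C.lin.Crv) (C.uc c) = C.lin.uc c :=
    fun c => tol_mn C c 0
  have h1 : (C.px j).map C.tol = C.lin.px j := by
    apply Subtype.ext
    rw [pt_map_val]
    show Units.map (C.tol : C.Crv →* C.lin.Crv) (C.uc (C.z j)⁻¹ * C.cx) = _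
    rw [map_mul, hu, hx]
    rfl
  have h2 : (C.qx j).map C.tol = C.lin.qx j := by
    apply Subtype.ext
    rw [pt_map_val]
    show Units.map (C.tol : C.Crv →* C.lin.Crv) (C.uc (C.z j) * C.cx) = _
    rw [map_mul, hu, hx]
    rfl
  have h3 : (C.py j 0).map C.tol = C.lin.py j := by
    apply Subtype.ext
    rw [pt_map_val]
    show Units.map (C.tol : C.Crv →* C.lin.Crv) (C.uc (C.z' j 0)⁻¹ * C.cy) = _
    rw [map_mul, hu, hy]
    rfl
  have h4 : (C.qy j 0).map C.tol = C.lin.qy j := by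
    apply Subtype.ext
    rw [pt_map_val]
    show Units.map (C.tol : C.Crv →* C.lin.Crv) (C.uc (C.z' j 0) * C.cy) = _
    rw [map_mul, hu, hy]
    rfl
  unfold Dat.xi EK.Dat.xi
  rw [Fin.sum_univ_one]
  simp only [map_add, map_br, hx, hy, h1, h2, h3, h4]
  rw [← add_assoc]

variable {C}

/-- the conditions -/
theorem adm_lin {k : K} (hC : C.Admissible (Polynomial.X + Polynomial.C k))
    (hne : ∀ j, tr (C.z j) ≠ tr (C.z' j 0) ∧ tr (C.z j) ≠ -tr (C.z' j 0)) :
    C.lin.Admissible k := by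
  refine ⟨hC.tors, fun j => hC.tors' j 0, fun j => ?_, fun j => (hne j).1, fun j => (hne j).2⟩
  have h1 := congrArg (Polynomial.eval 0) (hC.eq j)
  rw [Fin.prod_univ_one] at h1
  simp only [Polynomial.eval_sub, Polynomial.eval_add, Polynomial.eval_X, Polynomial.eval_C] at h1
  show tr (C.z j) - tr (C.z' j 0) = k
  linear_combination -h1

/-- the loops of the earlier file -/
theorem exists_lin {k : K} (hC : C.Admissible (Polynomial.X + Polynomial.C k))
    (hne : ∀ j, tr (C.z j) ≠ tr (C.z' j 0) ∧ tr (C.z j) ≠ -tr (C.z' j 0)) (hr : 0 < r)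
    (σ : K →+* ℂ) : ∃ γ : Path C.Crv, (∀ t a, γ.e t (C.cst a) = σ a) ∧
      ∀ j, γ.reg (C.xi j) * (σ (k * (tr (C.z j) + tr (C.z' j 0)))).re < 0 := by
  obtain ⟨γ, h1, h2⟩ := EK.exists_path σ (adm_lin hC hne) hr
  refine ⟨pull γ C.tol, fun t a => h1 t a, fun j => ?_⟩
  rw [reg_pull, tol_xi]
  exact h2 j

/-- two loops with a regular matrix -/
theorem exists_det_lin {C : Dat K 1 2} {k : K}
    (hC : C.Admissible (Polynomial.X + Polynomial.C k))
    (hne : ∀ j, tr (C.z j) ≠ tr (C.z' j 0) ∧ tr (C.z j) ≠ -tr (C.z' j 0)) (σ₁ σ₂ : K →+* ℂ)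
    (h : (σ₁ (EK.sgn C.lin)).re * (σ₂ (EK.sgn C.lin)).re < 0) : ∃ γ₁ γ₂ : Path C.Crv,
      (∀ t a, γ₁.e t (C.cst a) = σ₁ a) ∧ (∀ t a, γ₂.e t (C.cst a) = σ₂ a) ∧
      γ₁.reg (C.xi 0) * γ₂.reg (C.xi 1) - γ₁.reg (C.xi 1) * γ₂.reg (C.xi 0) ≠ 0 := by
  obtain ⟨γ₁, γ₂, h1, h2, h3⟩ := EK.exists_det (adm_lin hC hne) σ₁ σ₂ h
  refine ⟨pull γ₁ C.tol, pull γ₂ C.tol, fun t a => h1 t a, fun t a => h2 t a, ?_⟩
  rw [reg_pull, reg_pull, reg_pull, reg_pull, tol_xi, tol_xi]
  exact h3

end Pool.Agent.P8H1.CG
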