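import Pool.Agent.P8H1.CG.L1
set_option autoImplicit false

/-!
The regulators on the first loop are positive.
-/

namespace Pool.Agent.P8H1.CG

open Real Set Filter Topology MeasureTheory
open Pool.Agent.N65.TK (Dc)
open Pool.Agent.P8H1.EK (Gz Gz_neg continuous_Gz)

/-- the integrand on the first loop -/
noncomputable def q1 (k : ℝ) (z z1 z2 : ℂ) : ℝ → ℝ :=
  qq z z1 z2 (fun s => s) (b1 k) (fun _ => 1) fun s => -(m1 k s * Real.sin s)

variable {k : ℝ} (hk : 2 ≤ k) (hk' : k ≤ 3)

theorem q1_eq (z z1 z2 : ℂ) (s : ℝ) : q1 k z z1 z2 s =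
    Gz z s * -(m1 k s * Real.sin s) + (Gz z1 (b1 k s) + Gz z2 (b1 k s)) := by
  unfold q1 qq
  rw [mul_one]

theorem r1_refl (s : ℝ) : r1 k (2 * π - s) = r1 k s := by
  unfold r1
  rw [Real.cos_two_pi_sub]

theorem v1_refl (s : ℝ) : v1 k (2 * π - s) = v1 k s := by
  unfold v1
  rw [r1_refl]

theorem b1_refl (s : ℝ) : b1 k (2 * π - s) = b1 k s := by
  unfold b1
  rw [v1_refl]

theorem m1_refl (s : ℝ) : m1 k (2 * π - s) = m1 k s := by
  unfold m1
  rw [v1_refl, r1_refl]

include hk hk'

theorem cont_b1 : Continuous (b1 k) :=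
  continuous_iff_continuousAt.2 fun s => (hd_b1 hk hk' s).continuousAt

theorem cont_m1 : Continuous (m1 k) := by
  have h1 : Continuous (r1 k) := by
    unfold r1
    fun_prop
  have h2 : Continuous (v1 k) := by
    unfold v1
    exact (continuous_const.sub h1.sqrt).div_const 4
  unfold m1
  refine continuous_const.div (h1.sqrt.mul (continuous_const.sub (h2.pow 2)).sqrt) fun s => ?_
  have h3 := Real.sqrt_pos.2 (r1_pos hk s)
  have h4 := Real.sqrt_pos.2 (t1_pos hk hk' s)
  positivity

variable {z z1 z2 : ℂ} (hz : ‖z‖ = 1) (hz1 : ‖z1‖ = 1) (hz2 : ‖z2‖ = 1)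

include hz hz1 hz2 in
theorem cont_q1 : Continuous (q1 k z z1 z2) := by
  have h := funext (q1_eq (k := k) z z1 z2)
  rw [h]
  have hb := cont_b1 hk hk'
  exact ((continuous_Gz hz).mul ((cont_m1 hk hk').mul Real.continuous_sin).neg).add
    (((continuous_Gz hz1).comp hb).add ((continuous_Gz hz2).comp hb))

omit hk hk' in
include hz in
theorem q1_refl (s : ℝ) : q1 k z z1 z2 (2 * π - s) = q1 k z z1 z2 s := by
  rw [q1_eq, q1_eq, Gz_refl hz, m1_refl, b1_refl, Real.sin_two_pi_sub]
  ring

include hz hz1 hz2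

theorem int_q1 : ∫ s in (0 : ℝ)..(2 * π), q1 k z z1 z2 s = 2 * ∫ s in (0 : ℝ)..π, q1 k z z1 z2 s := by
  have hc := cont_q1 hk hk' hz hz1 hz2
  rw [← intervalIntegral.integral_add_adjacent_intervals (b := π) (hc.intervalIntegrable _ _)
    (hc.intervalIntegrable _ _)]
  have h1 := intervalIntegral.integral_comp_sub_left (a := 0) (b := π) (q1 k z z1 z2) (2 * π)
  rw [show 2 * π - π = π by ring, sub_zero] at h1
  rw [← h1]
  simp only [q1_refl hz]
  ring

/-- positivity, if both terms of the integrand are positive -/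
theorem pos1 (hF : ∀ s, 0 < s → s < π → Gz z s < 0)
    (hH : ∀ s, 0 < Gz z1 (b1 k s) + Gz z2 (b1 k s)) :
    0 < ∫ s in (0 : ℝ)..(2 * π), q1 k z z1 z2 s := by
  have hc := cont_q1 hk hk' hz hz1 hz2
  rw [int_q1 hk hk' hz hz1 hz2]
  have h1 : 0 < ∫ s in (0 : ℝ)..π, q1 k z z1 z2 s := by
    refine intervalIntegral.intervalIntegral_pos_of_pos_on (hc.intervalIntegrable _ _) (fun s hs => ?_)
      Real.pi_pos
    rw [q1_eq]
    have h2 := hF s hs.1 hs.2
    have h3 := Real.sin_pos_of_pos_of_lt_pi hs.1 hs.2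
    have h4 := m1_pos hk hk' s
    have h5 := hH s
    have h6 : 0 < m1 k s * Real.sin s := by positivity
    nlinarith
  linarith

/-- positivity for `z = i` and `k = 2` -/
theorem pos1' (hk2 : k = 2) (hre : z.re = 0) (hre1 : z1.re = 1) (hre2 : z2.re = -1 / 2) :
    0 < ∫ s in (0 : ℝ)..(2 * π), q1 k z z1 z2 s := by
  have hpi := Real.pi_pos
  have hc := cont_q1 hk hk' hz hz1 hz2
  have hM := Dc_pos (θ := π / 3) (by linarith) (by linarith)
  set M := Dc (π / 3) with hMd
  rw [int_q1 hk hk' hz hz1 hz2]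
  have h1 : 0 < ∫ s in (0 : ℝ)..(π / 2), q1 k z z1 z2 s := by
    refine intervalIntegral.intervalIntegral_pos_of_pos_on (hc.intervalIntegrable _ _) (fun s hs => ?_)
      (by linarith)
    rw [q1_eq]
    have h2 := nonpos_i hz hre hs.1.le hs.2.le
    have h3 := Real.sin_pos_of_pos_of_lt_pi hs.1 (by linarith [hs.2])
    have h4 := m1_pos hk hk' s
    obtain ⟨h5, h6⟩ := b1_range hk hk' s
    have h7 := pair_B hz1 hz2 hre1 hre2 h5 h6
    have h8 : 0 < m1 k s * Real.sin s := by positivity
    nlinarith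
  have hb : ∀ s, HasDerivAt (b1 k) (-(m1 k s * Real.sin s)) s := hd_b1 hk hk'
  have hcb : Continuous fun s => -(m1 k s * Real.sin s) :=
    ((cont_m1 hk hk').mul Real.continuous_sin).neg
  have e1 : b1 k (π / 2) = 2 * π / 3 := by
    have h2 : √(9 : ℝ) = 3 := by
      rw [show (9 : ℝ) = 3 ^ 2 by norm_num]
      exact Real.sqrt_sq (by norm_num)
    unfold b1 v1 r1
    rw [Real.cos_pi_div_two, hk2, show (1 : ℝ) + 4 * 2 + 8 * 0 = 9 by norm_num, h2,
      show ((1 : ℝ) - 3) / 4 = -1 / 2 by norm_num, arccos_mhalf hz]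
  have e2 : b1 k π = π / 2 := by
    unfold b1 v1 r1
    rw [Real.cos_pi, hk2, show (1 : ℝ) + 4 * 2 + 8 * -1 = 1 by norm_num, Real.sqrt_one, sub_self,
      zero_div, Real.arccos_zero]
  have h2 : ∫ s in (π / 2)..π, (1 / 2 * M * -(m1 k s * Real.sin s) + 1 / 3 * M) ≤
      ∫ s in (π / 2)..π, q1 k z z1 z2 s := by
    refine intervalIntegral.integral_mono_on (by linarith) ?_ (hc.intervalIntegrable _ _) fun s hs => ?_
    · exact ((continuous_const.mul hcb).add continuous_const).intervalIntegrable _ _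
    · rw [q1_eq]
      have h3 := le_i hz hre hs.1 hs.2
      have h4 := m1_pos hk hk' s
      have h5 : 0 ≤ Real.sin s := Real.sin_nonneg_of_nonneg_of_le_pi (by linarith [hs.1]) hs.2
      have h6 : 0 ≤ m1 k s * Real.sin s := by positivity
      have h7 : b1 k s ≤ 2 * π / 3 := by
        rw [← e1]
        unfold b1
        apply Real.antitone_arccos
        unfold v1
        have h8 : r1 k s ≤ r1 k (π / 2) := by
          unfold r1
          rw [Real.cos_pi_div_two]
          have := Real.cos_nonpos_of_pi_div_two_le_of_le hs.1 (by linarith [hs.2])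
          linarith
        have := Real.sqrt_le_sqrt h8
        linarith
      have h8 := pair_B_ge hz1 hz2 hre1 hre2 (b1_range hk hk' s).1 h7
      rw [← hMd] at h3 h8
      nlinarith
  have h3 : ∫ s in (π / 2)..π, (1 / 2 * M * -(m1 k s * Real.sin s) + 1 / 3 * M) = M * π / 12 := by
    have hcb2 : Continuous fun s => 1 / 2 * M * -(m1 k s * Real.sin s) := continuous_const.mul hcb
    rw [intervalIntegral.integral_add (hcb2.intervalIntegrable _ _)
      intervalIntegrable_const, intervalIntegral.integral_const_mul,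
      intervalIntegral.integral_eq_sub_of_hasDerivAt (fun s _ => hb s) (hcb.intervalIntegrable _ _),
      e1, e2, intervalIntegral.integral_const, smul_eq_mul]
    ring
  rw [← intervalIntegral.integral_add_adjacent_intervals (b := π / 2) (hc.intervalIntegrable _ _)
    (hc.intervalIntegrable _ _)]
  have h4 : 0 < M * π / 12 := by positivity
  linarith

end Pool.Agent.P8H1.CG
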