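import Pool.Agent.P8H1.CG.Data
set_option autoImplicit false

/-!
The notions used in the statement of the theorem on the curves `x + 1/x = G(y + 1/y)`.
-/

namespace Pool.Agent.P8H1.CG.St

open Pool.Agent.N65.TK (Pt Path FS br dif bnd Rels)

open Pool.Agent.P8H1.EK (tr)

open Pool.Agent.P8H1.CG (Dat E2 E3 GG)

open scoped WithZero

/-- The complex points `x, y ≠ 0` of the curve `x + 1/x = G(y + 1/y)` are smooth: the partial
derivatives do not vanish simultaneously. -/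
def Smooth (G : Polynomial ℂ) : Prop :=
  ∀ x y : ℂ, x ≠ 0 → y ≠ 0 → x + x⁻¹ = G.eval (y + y⁻¹) →
    1 - (x ^ 2)⁻¹ ≠ 0 ∨ G.derivative.eval (y + y⁻¹) * (1 - (y ^ 2)⁻¹) ≠ 0

section defs

variable {K : Type*} [Field K] {d r : ℕ}

/-- The element `ξ_j` is a cocycle of the complex `B_3(A) → B_2(A) ⊗ A^* → Λ^3 A^*`, and its residues
at all discrete valuations of all fields `L` with a homomorphism `A → L` are zero. -/
def Unramified.{u, w} {K : Type u} [Field K] {d r : ℕ} (C : Dat K d r) (j : Fin r) : Prop :=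
  dif C.Crv (C.xi j) = 0 ∧
    ∀ (L : Type w) [Field L] (φ : C.Crv →+* L) (v : Valuation L ℤᵐ⁰),
      bnd v (FS.map φ (C.xi j)) = 0

/-- The endomorphism of the coordinate ring which is `τ` on the constants and fixes `x` and `y`
exists and fixes the elements `ξ_j`. -/
def Invariant (C : Dat K d r) (τ : K →+* K) : Prop :=
  ∃ f : C.Crv →+* C.Crv, (∀ a, f (C.cst a) = C.cst (τ a)) ∧ f C.cx = C.cx ∧ f C.cy = C.cy ∧
    ∀ j, FS.map f (C.xi j) = C.xi j

/-- The endomorphism of the coordinate ring over the constants with `x ↦ a`, `y ↦ b` exists and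
changes the signs of the regulators of the elements `ξ_j` on all closed paths. -/
def OddUnder (C : Dat K d r) (a b : C.Crvˣ) : Prop :=
  ∃ f : C.Crv →+* C.Crv, (∀ c, f (C.cst c) = C.cst c) ∧ f C.cx = a ∧ f C.cy = b ∧
    ∀ (γ : Path C.Crv) (j : Fin r), γ.reg (FS.map f (C.xi j)) = -γ.reg (C.xi j)

/-- The regulators of the elements `ξ_j` are odd under `(x, y) ↦ (1/x, y)` and under
`(x, y) ↦ (x, 1/y)`. -/
def Odd (C : Dat K d r) : Prop := OddUnder C C.cx⁻¹ C.cy ∧ OddUnder C C.cx C.cy⁻¹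

/-- The elements `ξ_j` are invariant under all endomorphisms `τ` of `K` which fix all `v_j` and for
each `j` permute the numbers `v'_ji`. -/
def Descends (C : Dat K d r) : Prop :=
  ∀ (τ : K →+* K) (e : Fin r → Equiv.Perm (Fin d)), (∀ j, τ (tr (C.z j)) = tr (C.z j)) →
    (∀ j i, τ (tr (C.z' j i)) = tr (C.z' j (e j i))) → Invariant C τ

/-- `γ` is a closed path in the complex points over `σ` whose regulator vanishes on the relations. -/
def Loop (C : Dat K d r) (σ : K →+* ℂ) (γ : Path C.Crv) : Prop :=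
  (∀ t a, γ.e t (C.cst a) = σ a) ∧ ∀ s ∈ Rels C.Crv, γ.reg s = 0

/-- There are closed paths over `σ₁` and over `σ₂` such that the matrix of the regulators of the
elements `ξ_0`, `ξ_1` on these paths is regular. -/
def FullRank (C : Dat K d 2) (σ₁ σ₂ : K →+* ℂ) : Prop :=
  ∃ γ₁ γ₂ : Path C.Crv, Loop C σ₁ γ₁ ∧ Loop C σ₂ γ₂ ∧
    γ₁.reg (C.xi 0) * γ₂.reg (C.xi 1) - γ₁.reg (C.xi 1) * γ₂.reg (C.xi 0) ≠ 0

/-- The elements `ξ_0`, `ξ_1` are linearly independent modulo the relations. -/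
def Indep (C : Dat K d 2) : Prop :=
  ∀ a b : ℚ, a • C.xi 0 + b • C.xi 1 ∈ Rels C.Crv → a = 0 ∧ b = 0

/-- The polynomial `v + k`. -/
noncomputable def lin (k : K) : Polynomial K := Polynomial.X + Polynomial.C k

/-- The conditions for `d = 1`, `G = v + k`: `C.Admissible G`, `r ≥ 1`, `v_j ≠ ± v'_j0`. -/
def Linear (C : Dat K 1 r) (k : K) : Prop :=
  0 < r ∧ C.Admissible (lin k) ∧
    ∀ j, tr (C.z j) ≠ tr (C.z' j 0) ∧ tr (C.z j) ≠ -tr (C.z' j 0)

/-- There is a closed path over `σ` such that for all `j` the regulator of `ξ_j` is not zero, its sign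
is opposite to the sign of `σ(k (v_j + v'_j0))`. -/
def Sign (C : Dat K 1 r) (k : K) (σ : K →+* ℂ) : Prop :=
  ∃ γ : Path C.Crv, Loop C σ γ ∧
    ∀ j, γ.reg (C.xi j) * (σ (k * (tr (C.z j) + tr (C.z' j 0)))).re < 0

end defs

section data

variable {K : Type*} [Field K]

/-- The pairs `(ζ^6, ζ^15)`, `(ζ^10, ζ^18)`, for `G = v + φ`. -/
def D1 (ζ : Kˣ) : Dat K 1 2 := ⟨![ζ ^ 6, ζ ^ 10], ![![ζ ^ 15], ![ζ ^ 18]]⟩

/-- The pairs `(ζ^10, ζ^36)`, `(1, ζ^18)`, for `G = v + φ + 1`. -/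
def D2 (ζ : Kˣ) : Dat K 1 2 := ⟨![ζ ^ 10, 1], ![![ζ ^ 36], ![ζ ^ 18]]⟩

/-- The number `φ = ζ^6 + ζ^(-6)`. -/
def phi (ζ : Kˣ) : K := tr (ζ ^ 6)

/-- The four data satisfy the conditions for the polynomials `v + φ`, `v + φ + 1`, `v² - v - 2`,
`v² - v - 3`. -/
def AllAdmissible (ζ : Kˣ) : Prop :=
  (D1 ζ).Admissible (lin (phi ζ)) ∧ (D2 ζ).Admissible (lin (phi ζ + 1)) ∧
    (E2 ζ).Admissible (GG 2) ∧ (E3 ζ).Admissible (GG 3)

/-- The complex points over `σ` of the four curves are smooth. -/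
def AllSmooth (ζ : Kˣ) (σ : K →+* ℂ) : Prop :=
  Smooth ((lin (phi ζ)).map σ) ∧ Smooth ((lin (phi ζ + 1)).map σ) ∧ Smooth ((GG (2 : K)).map σ) ∧
    Smooth ((GG (3 : K)).map σ)

end data

end Pool.Agent.P8H1.CG.St
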