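import Pool.Agent.P8H1.CG.Stm
import Pool.Agent.P8H1.CG.Main
import Pool.Agent.P8H1.CG.One
import Pool.Agent.P8H1.CG.Inv
set_option autoImplicit false

/-!
The parts of the theorem on the curves `x + 1/x = G(y + 1/y)`.
-/

namespace Pool.Agent.P8H1.CG.St

open Pool.Agent.N65.TK (Pt Path FS br dif bnd Rels)

open Pool.Agent.P8H1.EK (tr)

open Pool.Agent.P8H1.CG (Dat E2 E3 GG)

open scoped WithZero

theorem FullRank.indep {K : Type*} [Field K] {d : ℕ} {C : Dat K d 2} {σ₁ σ₂ : K →+* ℂ}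
    (h : FullRank C σ₁ σ₂) : Indep C := by
  obtain ⟨γ₁, γ₂, ⟨-, h1⟩, ⟨-, h2⟩, h3⟩ := h
  intro a b hab
  have e1 := h1 _ hab
  have e2 := h2 _ hab
  rw [map_add, map_smul, map_smul, Rat.smul_def, Rat.smul_def] at e1 e2
  have ha : (a : ℝ) * (γ₁.reg (C.xi 0) * γ₂.reg (C.xi 1) - γ₁.reg (C.xi 1) * γ₂.reg (C.xi 0)) =
      0 := by
    linear_combination γ₂.reg (C.xi 1) * e1 - γ₁.reg (C.xi 1) * e2
  have hb : (b : ℝ) * (γ₁.reg (C.xi 0) * γ₂.reg (C.xi 1) - γ₁.reg (C.xi 1) * γ₂.reg (C.xi 0)) =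
      0 := by
    linear_combination γ₁.reg (C.xi 0) * e2 - γ₂.reg (C.xi 0) * e1
  exact ⟨by exact_mod_cast (mul_eq_zero.1 ha).resolve_right h3,
    by exact_mod_cast (mul_eq_zero.1 hb).resolve_right h3⟩

theorem pm_one {z : ℂ} (hz : z ≠ 0) (h : 1 - (z ^ 2)⁻¹ = 0) : z = 1 ∨ z = -1 := by
  have h3 : (z - 1) * (z + 1) = 0 := by
    field_simp at h
    linear_combination h
  rcases mul_eq_zero.1 h3 with h4 | h4
  · left; linear_combination h4
  · right; linear_combination h4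

theorem smooth_one {K : Type*} [Field K] {r : ℕ} {C : Dat K 1 r} {k : K}
    (hC : C.Admissible (Polynomial.X + Polynomial.C k))
    (hne : ∀ j, tr (C.z j) ≠ tr (C.z' j 0) ∧ tr (C.z j) ≠ -tr (C.z' j 0))
    (hr : 0 < r) (σ : K →+* ℂ) : Smooth ((Polynomial.X + Polynomial.C k).map σ) := by
  intro x y hx hy h
  by_contra hcon
  rw [not_or, not_not, not_not] at hcon
  obtain ⟨h1, h2⟩ := hcon
  rw [Polynomial.map_add, Polynomial.map_X, Polynomial.map_C] at h h2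
  simp only [Polynomial.eval_add, Polynomial.eval_X, Polynomial.eval_C, Polynomial.derivative_add,
    Polynomial.derivative_X, Polynomial.derivative_C, Polynomial.eval_one, Polynomial.eval_zero,
    add_zero, one_mul] at h h2
  obtain ⟨-, k0, k4⟩ := Pool.Agent.P8H1.EK.re_facts σ (Pool.Agent.P8H1.CG.adm_lin hC hne) ⟨0, hr⟩
  have hre := congrArg Complex.re h
  rw [abs_lt] at k4
  rcases pm_one hx h1 with rfl | rfl <;> rcases pm_one hy h2 with rfl | rfl <;> norm_num at hre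
  · exact k0 hre
  · linarith
  · linarith
  · exact k0 hre

theorem smooth_two {κ : ℂ} (hκ : κ = 2 ∨ κ = 3) :
    Smooth (Polynomial.X ^ 2 - Polynomial.X - Polynomial.C κ) := by
  intro x y hx hy h
  by_contra hcon
  rw [not_or, not_not, not_not] at hcon
  obtain ⟨h1, h2⟩ := hcon
  simp only [Polynomial.eval_sub, Polynomial.eval_pow, Polynomial.eval_X, Polynomial.eval_C,
    Polynomial.derivative_sub, Polynomial.derivative_X_pow, Polynomial.derivative_X,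
    Polynomial.derivative_C, Polynomial.eval_mul, Polynomial.eval_one, Polynomial.eval_zero,
    sub_zero] at h h2
  have hx2 : x + x⁻¹ = 2 ∨ x + x⁻¹ = -2 := by
    rcases pm_one hx h1 with rfl | rfl
    · left; norm_num
    · right; norm_num
  have hv : y + y⁻¹ = 1 / 2 ∨ y + y⁻¹ = 2 ∨ y + y⁻¹ = -2 := by
    rcases mul_eq_zero.1 h2 with h3 | h3
    · left
      norm_num at h3
      linear_combination h3 / 2
    · right
      rcases pm_one hy h3 with rfl | rfl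
      · left; norm_num
      · right; norm_num
  rcases hκ with rfl | rfl <;> rcases hx2 with h3 | h3 <;> rcases hv with h4 | h4 | h4 <;>
    rw [h3, h4] at h <;> norm_num at h

theorem invariant {K : Type*} [Field K] {d r : ℕ} (C : Dat K d r) (τ : K →+* K)
    (e : Fin r → Equiv.Perm (Fin d)) (h : ∀ j, τ (tr (C.z j)) = tr (C.z j))
    (h' : ∀ j i, τ (tr (C.z' j i)) = tr (C.z' j (e j i))) : Invariant C τ := by
  refine ⟨C.gal τ e h h', Pool.Agent.P8H1.CG.gal_cst C τ e h h', ?_, ?_,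
    Pool.Agent.P8H1.CG.gal_xi C τ e h h'⟩
  · have h1 := Pool.Agent.P8H1.CG.gal_mn C τ e h h' 1 (Pi.single 0 1)
    rw [map_one] at h1
    exact congrArg Units.val h1
  · have h1 := Pool.Agent.P8H1.CG.gal_mn C τ e h h' 1 (Pi.single 1 1)
    rw [map_one] at h1
    exact congrArg Units.val h1

theorem odd {K : Type*} [Field K] {d r : ℕ} (C : Dat K d r) : Odd C := by
  refine ⟨⟨C.inv (Pool.Agent.P8H1.CG.sgx r), Pool.Agent.P8H1.CG.inv_cst C _, ?_, ?_,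
    fun γ j => Pool.Agent.P8H1.CG.odd_x C γ j⟩, C.inv (Pool.Agent.P8H1.CG.sgy r),
    Pool.Agent.P8H1.CG.inv_cst C _, ?_, ?_, fun γ j => Pool.Agent.P8H1.CG.odd_y C γ j⟩
  · have h := Pool.Agent.P8H1.CG.inv_cx C (Pool.Agent.P8H1.CG.sgx r)
    have h2 : Units.map (C.inv (Pool.Agent.P8H1.CG.sgx r) : C.Crv →* C.Crv) C.cx = C.cx⁻¹ := by
      rw [h]
      show C.cx ^ (-1 : ℤ) = _
      rw [zpow_neg, zpow_one]
    exact congrArg Units.val h2
  · have h := Pool.Agent.P8H1.CG.inv_cy C (Pool.Agent.P8H1.CG.sgx r)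
    have h2 : Units.map (C.inv (Pool.Agent.P8H1.CG.sgx r) : C.Crv →* C.Crv) C.cy = C.cy := by
      rw [h]
      show C.cy ^ (1 : ℤ) = _
      rw [zpow_one]
    exact congrArg Units.val h2
  · have h := Pool.Agent.P8H1.CG.inv_cx C (Pool.Agent.P8H1.CG.sgy r)
    have h2 : Units.map (C.inv (Pool.Agent.P8H1.CG.sgy r) : C.Crv →* C.Crv) C.cx = C.cx := by
      rw [h]
      show C.cx ^ (1 : ℤ) = _
      rw [zpow_one]
    exact congrArg Units.val h2
  · have h := Pool.Agent.P8H1.CG.inv_cy C (Pool.Agent.P8H1.CG.sgy r)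
    have h2 : Units.map (C.inv (Pool.Agent.P8H1.CG.sgy r) : C.Crv →* C.Crv) C.cy = C.cy⁻¹ := by
      rw [h]
      show C.cy ^ (-1 : ℤ) = _
      rw [zpow_neg, zpow_one]
    exact congrArg Units.val h2

theorem rat_ne (q : ℚ) : q ^ 2 ≠ q + 1 := by
  intro h
  have h1 : (2 * (q : ℝ) - 1) ^ 2 = 5 := by
    have : (q : ℝ) ^ 2 = q + 1 := by exact_mod_cast h
    linear_combination 4 * this
  have h2 : Irrational (√(5 : ℝ)) := by
    have := Nat.Prime.irrational_sqrt (p := 5) (by norm_num)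
    exact_mod_cast this
  have h3 : √(5 : ℝ) = |2 * (q : ℝ) - 1| := by rw [← h1, Real.sqrt_sq_eq_abs]
  apply h2
  refine ⟨|2 * q - 1|, ?_⟩
  rw [h3]
  push_cast
  rfl

theorem two_embeddings {K : Type*} [Field K] [NumberField K] {a : K} (ha : a ^ 2 = a + 1) :
    ∃ σ₁ σ₂ : K →+* ℂ, σ₁ a ≠ σ₂ a := by
  have hmon : (Polynomial.X ^ 2 - Polynomial.X - 1 : Polynomial ℚ).Monic := by
    monicity!
  have hdeg : (Polynomial.X ^ 2 - Polynomial.X - 1 : Polynomial ℚ).natDegree = 2 := by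
    compute_degree!
  have hirr : Irreducible (Polynomial.X ^ 2 - Polynomial.X - 1 : Polynomial ℚ) := by
    rw [Polynomial.Monic.irreducible_iff_roots_eq_zero_of_degree_le_three hmon (by rw [hdeg])
      (by rw [hdeg]; norm_num), Multiset.eq_zero_iff_forall_notMem]
    intro q hq
    have h1 := Polynomial.isRoot_of_mem_roots hq
    rw [Polynomial.IsRoot.def] at h1
    simp only [Polynomial.eval_sub, Polynomial.eval_pow, Polynomial.eval_X,
      Polynomial.eval_one] at h1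
    exact rat_ne q (by linear_combination h1)
  have hmin : Polynomial.X ^ 2 - Polynomial.X - 1 = minpoly ℚ a := by
    refine minpoly.eq_of_irreducible_of_monic hirr ?_ hmon
    simp only [map_sub, map_pow, Polynomial.aeval_X, map_one]
    linear_combination ha
  have hr := NumberField.Embeddings.range_eval_eq_rootSet_minpoly K ℂ a
  rw [← hmin] at hr
  have key : ∀ z : ℂ, z ^ 2 = z + 1 → ∃ σ : K →+* ℂ, σ a = z := by
    intro z hz
    have h1 : z ∈ (Polynomial.X ^ 2 - Polynomial.X - 1 : Polynomial ℚ).rootSet ℂ := by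
      rw [Polynomial.mem_rootSet]
      refine ⟨hmon.ne_zero, ?_⟩
      simp only [map_sub, map_pow, Polynomial.aeval_X, map_one]
      linear_combination hz
    rw [← hr] at h1
    obtain ⟨σ, hσ⟩ := h1
    exact ⟨σ, hσ⟩
  have h5 : ((√5 : ℝ) : ℂ) ^ 2 = 5 := by
    have : (√5 : ℝ) ^ 2 = 5 := Real.sq_sqrt (by norm_num)
    exact_mod_cast this
  obtain ⟨σ₁, e1⟩ := key ((1 + ((√5 : ℝ) : ℂ)) / 2) (by linear_combination h5 / 4)
  obtain ⟨σ₂, e2⟩ := key ((1 - ((√5 : ℝ) : ℂ)) / 2) (by linear_combination h5 / 4)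
  refine ⟨σ₁, σ₂, fun h => ?_⟩
  rw [e1, e2] at h
  have h6 : ((√5 : ℝ) : ℂ) = 0 := by linear_combination h
  rw [h6] at h5
  norm_num at h5

section golden

variable {K : Type*} [Field K] [CharZero K] {ζ : Kˣ} (hζ : IsPrimitiveRoot ζ 60)

include hζ

theorem admD1 : (D1 ζ).Admissible (Polynomial.X + Polynomial.C (tr (ζ ^ 6))) := by
  have h := Pool.Agent.P8H1.EK.adm1 hζ
  refine ⟨h.tors, fun j i => ?_, fun j => ?_⟩
  · have hi : i = 0 := Subsingleton.elim _ _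
    rw [hi]
    revert j
    rw [Fin.forall_fin_two]
    exact ⟨h.tors' 0, h.tors' 1⟩
  · rw [Fin.prod_univ_one]
    revert j
    rw [Fin.forall_fin_two]
    constructor
    · rw [← h.eq 0, Polynomial.C_sub]
      show _ = Polynomial.X - Polynomial.C (tr (ζ ^ 15))
      show _ + (Polynomial.C (tr (ζ ^ 6)) - Polynomial.C (tr (ζ ^ 15))) -
        Polynomial.C (tr (ζ ^ 6)) = _
      ring
    · rw [← h.eq 1, Polynomial.C_sub]
      show _ = Polynomial.X - Polynomial.C (tr (ζ ^ 18))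
      show _ + (Polynomial.C (tr (ζ ^ 10)) - Polynomial.C (tr (ζ ^ 18))) -
        Polynomial.C (tr (ζ ^ 10)) = _
      ring

theorem admD2 : (D2 ζ).Admissible (Polynomial.X + Polynomial.C (tr (ζ ^ 6) + 1)) := by
  have h := Pool.Agent.P8H1.EK.adm2 hζ
  refine ⟨h.tors, fun j i => ?_, fun j => ?_⟩
  · have hi : i = 0 := Subsingleton.elim _ _
    rw [hi]
    revert j
    rw [Fin.forall_fin_two]
    exact ⟨h.tors' 0, h.tors' 1⟩
  · rw [Fin.prod_univ_one]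
    revert j
    rw [Fin.forall_fin_two]
    constructor
    · rw [← h.eq 0, Polynomial.C_sub]
      show _ = Polynomial.X - Polynomial.C (tr (ζ ^ 36))
      show _ + (Polynomial.C (tr (ζ ^ 10)) - Polynomial.C (tr (ζ ^ 36))) -
        Polynomial.C (tr (ζ ^ 10)) = _
      ring
    · rw [← h.eq 1, Polynomial.C_sub]
      show _ = Polynomial.X - Polynomial.C (tr (ζ ^ 18))
      show _ + (Polynomial.C (tr (1 : Kˣ)) - Polynomial.C (tr (ζ ^ 18))) -
        Polynomial.C (tr (1 : Kˣ)) = _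
      ring

theorem neD1 (j : Fin 2) : tr ((D1 ζ).z j) ≠ tr ((D1 ζ).z' j 0) ∧
    tr ((D1 ζ).z j) ≠ -tr ((D1 ζ).z' j 0) := by
  have h := Pool.Agent.P8H1.EK.adm1 hζ
  revert j
  rw [Fin.forall_fin_two]
  exact ⟨⟨h.ne 0, h.ne' 0⟩, h.ne 1, h.ne' 1⟩

theorem neD2 (j : Fin 2) : tr ((D2 ζ).z j) ≠ tr ((D2 ζ).z' j 0) ∧
    tr ((D2 ζ).z j) ≠ -tr ((D2 ζ).z' j 0) := by
  have h := Pool.Agent.P8H1.EK.adm2 hζ
  revert j
  rw [Fin.forall_fin_two]
  exact ⟨⟨h.ne 0, h.ne' 0⟩, h.ne 1, h.ne' 1⟩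

theorem fullD (σ₁ σ₂ : K →+* ℂ) (h : σ₁ (tr (ζ ^ 6)) ≠ σ₂ (tr (ζ ^ 6))) :
    FullRank (D1 ζ) σ₁ σ₂ ∧ FullRank (D2 ζ) σ₁ σ₂ := by
  obtain ⟨h1, h2⟩ := Pool.Agent.P8H1.EK.full_rank hζ σ₁ σ₂ h
  constructor
  · obtain ⟨γ₁, γ₂, g1, g2, g3⟩ := Pool.Agent.P8H1.CG.exists_det_lin (admD1 hζ) (neD1 hζ) σ₁ σ₂ h1
    exact ⟨γ₁, γ₂, ⟨g1, fun s hs => γ₁.reg_of_mem hs⟩, ⟨g2, fun s hs => γ₂.reg_of_mem hs⟩, g3⟩
  · obtain ⟨γ₁, γ₂, g1, g2, g3⟩ := Pool.Agent.P8H1.CG.exists_det_lin (admD2 hζ) (neD2 hζ) σ₁ σ₂ h2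
    exact ⟨γ₁, γ₂, ⟨g1, fun s hs => γ₁.reg_of_mem hs⟩, ⟨g2, fun s hs => γ₂.reg_of_mem hs⟩, g3⟩

theorem fullE (σ : K →+* ℂ) : FullRank (E2 ζ) σ σ ∧ FullRank (E3 ζ) σ σ := by
  constructor
  · obtain ⟨γ₁, γ₂, g1, g2, a, b, c, e⟩ := Pool.Agent.P8H1.CG.full2 hζ σ
    refine ⟨γ₁, γ₂, ⟨g1, fun s hs => γ₁.reg_of_mem hs⟩, ⟨g2, fun s hs => γ₂.reg_of_mem hs⟩, ?_⟩
    have h1 := mul_pos a e
    have h2 := mul_neg_of_pos_of_neg b c
    linarith
  · obtain ⟨γ₁, γ₂, g1, g2, a, b, c, e⟩ := Pool.Agent.P8H1.CG.full3 hζ σ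
    refine ⟨γ₁, γ₂, ⟨g1, fun s hs => γ₁.reg_of_mem hs⟩, ⟨g2, fun s hs => γ₂.reg_of_mem hs⟩, ?_⟩
    have h1 := mul_pos a e
    have h2 := mul_neg_of_pos_of_neg b c
    linarith

theorem invD (τ : K →+* K) (hτ : τ (tr (ζ ^ 6)) = tr (ζ ^ 6)) :
    Invariant (D1 ζ) τ ∧ Invariant (D2 ζ) τ := by
  have t15 : τ (tr (ζ ^ 15)) = tr (ζ ^ 15) := by
    rw [Pool.Agent.P8H1.EK.tr_15 hζ, map_zero]
  have t10 : τ (tr (ζ ^ 10)) = tr (ζ ^ 10) := by
    rw [Pool.Agent.P8H1.EK.tr_10 hζ, map_one]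
  have t36 : τ (tr (ζ ^ 36)) = tr (ζ ^ 36) := by
    rw [Pool.Agent.P8H1.EK.tr_36 hζ, map_neg, hτ]
  have t18 : τ (tr (ζ ^ 18)) = tr (ζ ^ 18) := by
    rw [Pool.Agent.P8H1.EK.tr_18 hζ, map_sub, map_one, hτ]
  have t1 : τ (tr (1 : Kˣ)) = tr (1 : Kˣ) := by
    rw [Pool.Agent.P8H1.EK.tr_one hζ, map_ofNat]
  refine ⟨invariant _ τ (fun _ => Equiv.refl _) ?_ ?_, invariant _ τ (fun _ => Equiv.refl _) ?_ ?_⟩
  · rw [Fin.forall_fin_two]
    exact ⟨hτ, t10⟩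
  · rw [Fin.forall_fin_two]
    exact ⟨fun i => by rw [Subsingleton.elim i 0]; exact t15,
      fun i => by rw [Subsingleton.elim i 0]; exact t18⟩
  · rw [Fin.forall_fin_two]
    exact ⟨t10, t1⟩
  · rw [Fin.forall_fin_two]
    exact ⟨fun i => by rw [Subsingleton.elim i 0]; exact t36,
      fun i => by rw [Subsingleton.elim i 0]; exact t18⟩

theorem invE (τ : K →+* K) : Invariant (E2 ζ) τ ∧ Invariant (E3 ζ) τ := by
  have t15 : τ (tr (ζ ^ 15)) = tr (ζ ^ 15) := by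
    rw [Pool.Agent.P8H1.EK.tr_15 hζ, map_zero]
  have t10 : τ (tr (ζ ^ 10)) = tr (ζ ^ 10) := by
    rw [Pool.Agent.P8H1.EK.tr_10 hζ, map_one]
  have t20 : τ (tr (ζ ^ 20)) = tr (ζ ^ 20) := by
    rw [Pool.Agent.P8H1.CG.tr_20 hζ, map_neg, map_one]
  have t30 : τ (tr (ζ ^ 30)) = tr (ζ ^ 30) := by
    rw [Pool.Agent.P8H1.CG.tr_30 hζ, map_neg, map_ofNat]
  have t1 : τ (tr (1 : Kˣ)) = tr (1 : Kˣ) := by
    rw [Pool.Agent.P8H1.EK.tr_one hζ, map_ofNat]
  constructor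
  · refine invariant _ τ (fun _ => Equiv.refl _) ?_ ?_
    · rw [Fin.forall_fin_two]
      exact ⟨t30, t15⟩
    · rw [Fin.forall_fin_two, Fin.forall_fin_two, Fin.forall_fin_two]
      exact ⟨⟨t15, t10⟩, t1, t20⟩
  · have s6 := Pool.Agent.P8H1.EK.tr_six_sq hζ
    have s18 := Pool.Agent.P8H1.EK.tr_18 hζ
    have h1 : τ (tr (ζ ^ 6)) = tr (ζ ^ 6) ∨ τ (tr (ζ ^ 6)) = tr (ζ ^ 18) := by
      have h2 := congrArg τ s6
      rw [map_pow, map_add, map_one] at h2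
      have h3 : (τ (tr (ζ ^ 6)) - tr (ζ ^ 6)) * (τ (tr (ζ ^ 6)) - tr (ζ ^ 18)) = 0 := by
        rw [s18]
        linear_combination h2 - s6
      rcases mul_eq_zero.1 h3 with h4 | h4
      · left; exact sub_eq_zero.1 h4
      · right; exact sub_eq_zero.1 h4
    rcases h1 with h1 | h1
    · refine invariant _ τ (fun _ => Equiv.refl _) ?_ ?_
      · rw [Fin.forall_fin_two]
        exact ⟨t30, t20⟩
      · rw [Fin.forall_fin_two, Fin.forall_fin_two, Fin.forall_fin_two]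
        refine ⟨⟨h1, ?_⟩, t1, t20⟩
        show τ (tr (ζ ^ 18)) = tr (ζ ^ 18)
        rw [s18, map_sub, map_one, h1]
    · refine invariant _ τ ![Equiv.swap 0 1, Equiv.refl _] ?_ ?_
      · rw [Fin.forall_fin_two]
        exact ⟨t30, t20⟩
      · rw [Fin.forall_fin_two, Fin.forall_fin_two, Fin.forall_fin_two]
        refine ⟨⟨h1, ?_⟩, t1, t20⟩
        show τ (tr (ζ ^ 18)) = tr (ζ ^ 6)
        rw [s18, map_sub, map_one, h1, s18]
        ring

end golden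

end Pool.Agent.P8H1.CG.St
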